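import Pool.Agent.Lib_MP_ad0b27_co.Defs

/-!
MP_ad0b27_co: piece GEOM, conjugation by real quaternions and the sphere.
-/

open NumberField Filter Topology
open scoped nonZeroDivisors

namespace SphereRep

theorem re_mul_comm (a b : Quaternion ℝ) : (a * b).re = (b * a).re := by
  simp only [Quaternion.re_mul]
  ring

theorem re_conj (q w : Quaternion ℝ) (hq : q ≠ 0) (hw : w.re = 0) : (q * w * q⁻¹).re = 0 := by
  rw [re_mul_comm, ← mul_assoc, inv_mul_cancel₀ hq, one_mul, hw]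

theorem pt_inj (x y : Quaternion ℝ) (hx : x.re = 0) (hy : y.re = 0) (h : pt x = pt y) :
    x = y := by
  have h0 := congrFun (congrArg WithLp.ofLp h) 0
  have h1 := congrFun (congrArg WithLp.ofLp h) 1
  have h2 := congrFun (congrArg WithLp.ofLp h) 2
  simp [pt] at h0 h1 h2
  ext
  · rw [hx, hy]
  · exact h0
  · exact h1
  · exact h2

theorem norm_pt (x : Quaternion ℝ) (hx : x.re = 0) : ‖pt x‖ = ‖x‖ := by
  have h1 : ‖pt x‖ ^ 2 = ‖x‖ ^ 2 := by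
    have h2 : ‖x‖ ^ 2 = x.re ^ 2 + x.imI ^ 2 + x.imJ ^ 2 + x.imK ^ 2 := by
      rw [pow_two ‖x‖, ← Quaternion.normSq_eq_norm_mul_self, Quaternion.normSq_def']
    rw [h2, EuclideanSpace.norm_sq_eq, Fin.sum_univ_three, hx]
    simp [pt]
  exact (sq_eq_sq₀ (norm_nonneg _) (norm_nonneg _)).1 h1

theorem pt_sub (x y : Quaternion ℝ) : pt x - pt y = pt (x - y) := by
  ext i
  fin_cases i <;> simp [pt]

theorem norm_conj (q w : Quaternion ℝ) (hq : q ≠ 0) : ‖q * w * q⁻¹‖ = ‖w‖ := by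
  rw [norm_mul, norm_mul, norm_inv]
  have : ‖q‖ ≠ 0 := norm_ne_zero_iff.2 hq
  field_simp

theorem norm_pure (x : Quaternion ℝ) (hx : x.re = 0) :
    ‖x‖ = Real.sqrt (x.imI ^ 2 + x.imJ ^ 2 + x.imK ^ 2) := by
  rw [← Real.sqrt_sq (norm_nonneg x), pow_two,
    ← Quaternion.normSq_eq_norm_mul_self, Quaternion.normSq_def', hx]
  congr 1
  ring

theorem norm_pt_conj (q : Quaternion ℝ) (c s : ℝ) (hq : q ≠ 0) (hcs : c ^ 2 + s ^ 2 = 1) :
    ‖pt (q * ⟨0, c, s, 0⟩ * q⁻¹)‖ = 1 := by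
  rw [norm_pt _ (re_conj q _ hq rfl), norm_conj q _ hq, norm_pure _ rfl]
  simp [hcs]

theorem dist_pt_conj (q : Quaternion ℝ) (c s : ℝ) (hq : q ≠ 0) (hcs : c ^ 2 + s ^ 2 = 1) :
    dist (pt (q * ⟨0, 1, 0, 0⟩ * q⁻¹)) (pt (q * ⟨0, c, s, 0⟩ * q⁻¹)) = Real.sqrt (2 - 2 * c) := by
  have h1 : ∀ u v : Quaternion ℝ, q * u * q⁻¹ - q * v * q⁻¹ = q * (u - v) * q⁻¹ := by
    intro u v
    rw [← sub_mul, ← mul_sub]
  rw [dist_eq_norm, pt_sub, h1, norm_pt _ (re_conj q _ hq ?_), norm_conj q _ hq, norm_pure]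
  · simp only [Quaternion.imI_sub, Quaternion.imJ_sub, Quaternion.imK_sub]
    congr 1
    nlinarith [hcs]
  · simp
  · simp

end SphereRep
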