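import Pool.Agent.Lib_MP_ad0b27_co.Defs

/-!
MP_ad0b27_co, piece NORM: norms of integers of number fields and residue fields with `p` elements.
-/

open NumberField

namespace SphereRep

section Norm
variable {K : Type} [Field K] [NumberField K]

theorem card_eq_mul (p : ℕ) (hp : p.Prime) (ρ : 𝓞 K →+* ZMod p) (ν : 𝓞 K) (h : ρ ν = 0) :
    ∃ A : AddSubgroup (𝓞 K ⧸ Ideal.span {ν}), (Algebra.norm ℤ ν).natAbs = p * Nat.card A ∧
      ∀ z, ρ z = 0 → Ideal.Quotient.mk (Ideal.span {ν}) z ∈ A := by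
  have : Fact p.Prime := ⟨hp⟩
  have hI : ∀ a ∈ Ideal.span {ν}, ρ a = 0 := by
    intro a ha
    obtain ⟨b, rfl⟩ := Ideal.mem_span_singleton'.mp ha
    rw [map_mul, h, mul_zero]
  let f := Ideal.Quotient.lift (Ideal.span {ν}) ρ hI
  have hf : Function.Surjective f := ZMod.ringHom_surjective f
  refine ⟨f.toAddMonoidHom.ker, ?_, ?_⟩
  · have h1 := AddSubgroup.card_eq_card_quotient_mul_card_addSubgroup f.toAddMonoidHom.ker
    have h2 : Nat.card ((𝓞 K ⧸ Ideal.span {ν}) ⧸ f.toAddMonoidHom.ker) = p := by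
      rw [Nat.card_congr
        (QuotientAddGroup.quotientKerEquivOfSurjective f.toAddMonoidHom hf).toEquiv]
      exact Nat.card_zmod p
    rw [h2] at h1
    rw [← h1, ← Ideal.absNorm_span_singleton]
    rfl
  · intro z hz
    rw [AddMonoidHom.mem_ker]
    change f (Ideal.Quotient.mk _ z) = 0
    simp [f, hz]

theorem dvd_norm (p : ℕ) (hp : p.Prime) (ρ : 𝓞 K →+* ZMod p) (ν : 𝓞 K) (h : ρ ν = 0) :
    p ∣ (Algebra.norm ℤ ν).natAbs := by
  obtain ⟨A, hA, -⟩ := card_eq_mul p hp ρ ν h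
  exact ⟨_, hA⟩

theorem local_div (p : ℕ) (hp : p.Prime) (ρ : 𝓞 K →+* ZMod p) (ν : 𝓞 K) (hν : ν ≠ 0)
    (h : ρ ν = 0) (u : ℕ) (hu : (Algebra.norm ℤ ν).natAbs = u * p) (z : 𝓞 K) (hz : ρ z = 0) :
    ν ∣ (u : 𝓞 K) * z := by
  obtain ⟨A, hA, hA2⟩ := card_eq_mul p hp ρ ν h
  have hcard : Nat.card A = u := by
    have : p * Nat.card A = p * u := by rw [← hA, hu, mul_comm]
    exact Nat.eq_of_mul_eq_mul_left hp.pos this
  have h1 := hA2 z hz
  have h2 : Nat.card A • (⟨_, h1⟩ : A) = 0 := card_nsmul_eq_zero'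
  rw [hcard] at h2
  have h3 : u • (Ideal.Quotient.mk (Ideal.span {ν}) z) = 0 := by
    have := congrArg (fun a : A => (a : 𝓞 K ⧸ Ideal.span {ν})) h2
    simpa using this
  have h4 : Ideal.Quotient.mk (Ideal.span {ν}) ((u : 𝓞 K) * z) = 0 := by
    rw [map_mul, map_natCast, ← nsmul_eq_mul]
    exact h3
  rw [Ideal.Quotient.eq_zero_iff_mem, Ideal.mem_span_singleton] at h4
  exact h4

theorem dvd_natAbs_norm (ν : 𝓞 K) : ν ∣ (((Algebra.norm ℤ ν).natAbs : ℕ) : 𝓞 K) := by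
  rw [← Ideal.mem_span_singleton, ← Ideal.absNorm_span_singleton]
  exact Ideal.absNorm_mem _

theorem natAbs_norm_eq (ν : 𝓞 K) :
    ((Algebra.norm ℤ ν).natAbs : ℝ) = ‖Algebra.norm ℚ (ν : K)‖ := by
  rw [← Algebra.coe_norm_int]
  rw [← Rat.norm_cast_real, Rat.cast_intCast, Int.norm_cast_real, Int.norm_eq_abs,
    Nat.cast_natAbs, Int.cast_abs]

theorem natAbs_norm_le_embedding (ν : 𝓞 K) (σ : K →+* ℂ) :
    ((Algebra.norm ℤ ν).natAbs : ℝ) ≤ ‖σ (ν : K)‖ * house (ν : K) ^ (Module.finrank ℚ K - 1) := by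
  rw [natAbs_norm_eq]
  exact norm_norm_le_norm_mul_house_pow (ν : K) σ

theorem natAbs_norm_le (ν : 𝓞 K) :
    ((Algebra.norm ℤ ν).natAbs : ℝ) ≤ house (ν : K) ^ Module.finrank ℚ K := by
  have σ : K →+* ℂ := Classical.choice inferInstance
  refine (natAbs_norm_le_embedding ν σ).trans ?_
  have h1 := norm_embedding_le_house (ν : K) σ
  have h2 := house_nonneg (ν : K)
  have h3 : 0 < Module.finrank ℚ K := Module.finrank_pos
  calc ‖σ (ν : K)‖ * house (ν : K) ^ (Module.finrank ℚ K - 1)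
      ≤ house (ν : K) * house (ν : K) ^ (Module.finrank ℚ K - 1) := by gcongr
    _ = house (ν : K) ^ Module.finrank ℚ K := by
      rw [← pow_succ']
      congr 1
      omega

end Norm

end SphereRep
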