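import Pool.Agent.Lib_MP_ad0b27_co.Psi
import Pool.Agent.Lib_MP_ad0b27_co.NormDiv

/-!
MP_ad0b27_co, piece INTEGRAL: a bounded multiple of the vertex is integral.
-/

open NumberField

namespace SphereRep

section Integral
variable {K : Type} [Field K] [NumberField K] {I : Type}

lemma int_two_ne (D : PD K I) (i : I) : (2 : ZMod (D.p i)) ≠ 0 := by
  have h := D.odd i
  intro h2
  have h3 : ((2 : ℕ) : ZMod (D.p i)) = 0 := by exact_mod_cast h2
  rw [ZMod.natCast_eq_zero_iff] at h3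
  exact absurd (Nat.le_of_dvd (by norm_num) h3) (by omega)

/-- all coordinates of a quaternion with trivial reduction are divisible, locally -/
lemma int_coord (D : PD K I) (i : I) (ν : 𝓞 K) (hν : ν ≠ 0) (h0 : D.ρ i ν = 0) (u : ℕ)
    (hu : (Algebra.norm ℤ ν).natAbs = u * D.p i) (y : Quaternion (𝓞 K)) (hy : D.psi i y = 0) :
    ∃ w : Quaternion (𝓞 K), (u : 𝓞 K) • y = ν • w := by
  have : Fact (D.p i).Prime := ⟨D.prime i⟩
  obtain ⟨h1, h2, h3, h4⟩ := psi_eq_zero (D.ρ i) (D.j i) (D.hj i) (int_two_ne D i) y hy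
  obtain ⟨a, ha⟩ := local_div (D.p i) (D.prime i) (D.ρ i) ν hν h0 u hu _ h1
  obtain ⟨b, hb⟩ := local_div (D.p i) (D.prime i) (D.ρ i) ν hν h0 u hu _ h2
  obtain ⟨c, hc⟩ := local_div (D.p i) (D.prime i) (D.ρ i) ν hν h0 u hu _ h3
  obtain ⟨d, hd⟩ := local_div (D.p i) (D.prime i) (D.ρ i) ν hν h0 u hu _ h4
  refine ⟨⟨a, b, c, d⟩, ?_⟩
  refine QuaternionAlgebra.ext ?_ ?_ ?_ ?_
  · exact ha
  · exact hb
  · exact hc
  · exact hd

lemma int_quot [DecidableEq I] (D : PD K I) (M : Finset I) (N k : ℕ) (hk : N = k * D.m M) (i : I) (hi : i ∈ M)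
    (hik : ¬ D.p i ∣ k) : ∃ u : ℕ, N = u * D.p i ∧ ¬ D.p i ∣ u := by
  refine ⟨k * ∏ j ∈ M.erase i, D.p j, ?_, ?_⟩
  · rw [hk, PD.m, ← Finset.prod_erase_mul M D.p hi]
    ring
  · rw [(D.prime i).dvd_mul]
    rintro (h | h)
    · exact hik h
    · rw [(Nat.Prime.prime (D.prime i)).dvd_finsetProd_iff] at h
      obtain ⟨j, hj, hd⟩ := h
      have := (Nat.prime_dvd_prime_iff_eq (D.prime i) (D.prime j)).mp hd
      exact (Finset.mem_erase.mp hj).1 (D.inj this.symm)

theorem psi_ne_zero (D : PD K I) (M : Finset I) (h : Quaternion (𝓞 K)) (k : ℕ)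
    (hν : Quaternion.normSq h ≠ 0)
    (hk : (Algebra.norm ℤ (Quaternion.normSq h)).natAbs = k * D.m M) (i : I) (hi : i ∈ M)
    (hik : ¬ D.p i ∣ k) : D.psi i h ≠ 0 := by
  classical
  intro h0
  have : Fact (D.p i).Prime := ⟨D.prime i⟩
  obtain ⟨u, hu, hud⟩ := int_quot D M _ k hk i hi hik
  have hρ : D.ρ i (Quaternion.normSq h) = 0 := by
    rw [← psi_det (D.ρ i) (D.j i) (D.hj i) h]
    have : SphereRep.psi (D.ρ i) (D.j i) h = 0 := h0
    rw [this]
    simp
  obtain ⟨w, hw⟩ := int_coord D i _ hν hρ u hu h h0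
  have h1 := congrArg Quaternion.normSq hw
  rw [Quaternion.normSq_smul, Quaternion.normSq_smul, sq (Quaternion.normSq h), mul_assoc,
    mul_comm _ (Quaternion.normSq h)] at h1
  have h2 : (u : 𝓞 K) ^ 2 = Quaternion.normSq h * Quaternion.normSq w :=
    mul_left_cancel₀ hν h1
  have h3 := congrArg (D.ρ i) h2
  rw [map_mul, hρ, zero_mul, map_pow, map_natCast] at h3
  have h4 := pow_eq_zero_iff (two_ne_zero) |>.mp h3
  rw [ZMod.natCast_eq_zero_iff] at h4
  exact hud h4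

theorem integral_vertex [DecidableEq I] (D : PD K I) (T M : Finset I) (hTM : T ⊆ M)
    (h h' ω : Quaternion (𝓞 K)) (k k' : ℕ)
    (hν : Quaternion.normSq h ≠ 0) (hν' : Quaternion.normSq h' ≠ 0)
    (hk : (Algebra.norm ℤ (Quaternion.normSq h)).natAbs = k * D.m M)
    (hk' : (Algebra.norm ℤ (Quaternion.normSq h')).natAbs = k' * D.m T)
    (hik : ∀ i ∈ M, ¬ D.p i ∣ k) (hik' : ∀ i ∈ M, ¬ D.p i ∣ k')
    (hsing : ∀ i ∈ M, D.ρ i (Quaternion.normSq h) = 0)
    (hsing' : ∀ i ∈ T, D.ρ i (Quaternion.normSq h') = 0)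
    (hT : ∀ i ∈ T, D.psi i h' * D.psi i h = 0)
    (hA : ∀ i ∈ M, i ∉ T → D.psi i h * D.psi i ω * (D.psi i h).adjugate = 0) :
    ∃ w : Quaternion (𝓞 K), ((k * k' : ℕ) : 𝓞 K) • (h' * h * ω * star h * star h') =
      (Quaternion.normSq h * Quaternion.normSq h') • w := by
  set ν := Quaternion.normSq h with hνdef
  set ν' := Quaternion.normSq h' with hνdef'
  set W := h' * h * ω * star h * star h' with hW
  let J : Ideal ℤ :=
    { carrier := {u : ℤ | ∃ w : Quaternion (𝓞 K), ((u : ℤ) : 𝓞 K) • W = (ν * ν') • w}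
      zero_mem' := ⟨0, by simp⟩
      add_mem' := by
        rintro a b ⟨w, hw⟩ ⟨w', hw'⟩
        refine ⟨w + w', ?_⟩
        push_cast
        rw [add_smul, hw, hw', smul_add]
      smul_mem' := by
        rintro c a ⟨w, hw⟩
        refine ⟨(c : 𝓞 K) • w, ?_⟩
        rw [smul_eq_mul]
        push_cast
        rw [mul_smul, hw, smul_comm] }
  have hJ : ∀ u : ℤ, u ∈ J ↔ ∃ w : Quaternion (𝓞 K), ((u : ℤ) : 𝓞 K) • W = (ν * ν') • w :=
    fun u => Iff.rfl
  obtain ⟨g, hg⟩ := (IsPrincipalIdealRing.principal J).principal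
  have hgJ : ∀ u : ℤ, u ∈ J ↔ g ∣ u := by
    intro u
    rw [hg]
    exact Ideal.mem_span_singleton
  -- the product of the norms
  have h1 : (((k * D.m M * (k' * D.m T) : ℕ)) : ℤ) ∈ J := by
    rw [hJ]
    obtain ⟨c, hc⟩ := dvd_natAbs_norm ν
    obtain ⟨c', hc'⟩ := dvd_natAbs_norm ν'
    rw [hk] at hc
    rw [hk'] at hc'
    refine ⟨(c * c') • W, ?_⟩
    have : (((((k * D.m M * (k' * D.m T) : ℕ)) : ℤ)) : 𝓞 K) = (ν * ν') * (c * c') := by
      rw [Int.cast_natCast, Nat.cast_mul, hc, hc']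
      ring
    rw [this, mul_smul]
  -- local statement
  have h2 : ∀ i ∈ M, ∃ u : ℕ, (u : ℤ) ∈ J ∧ ¬ D.p i ∣ u := by
    intro i hi
    have : Fact (D.p i).Prime := ⟨D.prime i⟩
    obtain ⟨u₁, hu₁, hud₁⟩ := int_quot D M _ k hk i hi (hik i hi)
    by_cases hiT : i ∈ T
    · obtain ⟨u₂, hu₂, hud₂⟩ := int_quot D T _ k' hk' i hiT (hik' i hi)
      have hy : D.psi i (h' * h) = 0 := by
        have := hT i hiT
        unfold PD.psi at this ⊢
        rw [psi_mul (D.ρ i) (D.j i) (D.hj i), this]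
      obtain ⟨y₁, hy₁⟩ := int_coord D i ν hν (hsing i hi) u₁ hu₁ _ hy
      obtain ⟨y₂, hy₂⟩ := int_coord D i ν' hν' (hsing' i hiT) u₂ hu₂ _ hy
      refine ⟨u₁ * u₂, ?_, ?_⟩
      · rw [hJ]
        refine ⟨y₁ * ω * star y₂, ?_⟩
        have hy₂' : (u₂ : 𝓞 K) • star (h' * h) = ν' • star y₂ := by
          have := congrArg star hy₂
          rw [Quaternion.star_smul, Quaternion.star_smul] at this
          exact this
        have hWy : W = (h' * h) * ω * star (h' * h) := by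
          rw [hW, star_mul]
          simp only [mul_assoc]
        have hc : (((u₁ * u₂ : ℕ) : ℤ) : 𝓞 K) = (u₁ : 𝓞 K) * (u₂ : 𝓞 K) := by push_cast; rfl
        rw [hc, hWy]
        calc ((u₁ : 𝓞 K) * (u₂ : 𝓞 K)) • ((h' * h) * ω * star (h' * h))
            = ((u₁ : 𝓞 K) • (h' * h)) * ω * ((u₂ : 𝓞 K) • star (h' * h)) := by
              rw [smul_mul_assoc, smul_mul_assoc, mul_smul_comm, smul_smul]
          _ = (ν • y₁) * ω * (ν' • star y₂) := by rw [hy₁, hy₂']
          _ = _ := by rw [smul_mul_assoc, smul_mul_assoc, mul_smul_comm, smul_smul]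
      · rw [(D.prime i).dvd_mul]
        rintro (h | h)
        · exact hud₁ h
        · exact hud₂ h
    · have hz : D.psi i (h * ω * star h) = 0 := by
        have := hA i hi hiT
        unfold PD.psi at this ⊢
        rw [psi_mul (D.ρ i) (D.j i) (D.hj i), psi_mul (D.ρ i) (D.j i) (D.hj i), psi_star, this]
      obtain ⟨z₁, hz₁⟩ := int_coord D i ν hν (hsing i hi) u₁ hu₁ _ hz
      obtain ⟨c', hc'⟩ := dvd_natAbs_norm ν'
      rw [hk'] at hc'
      refine ⟨u₁ * (k' * D.m T), ?_, ?_⟩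
      · rw [hJ]
        refine ⟨c' • (h' * z₁ * star h'), ?_⟩
        have hWz : W = h' * (h * ω * star h) * star h' := by
          rw [hW]
          simp only [mul_assoc]
        have hc : (((u₁ * (k' * D.m T) : ℕ) : ℤ) : 𝓞 K) = (u₁ : 𝓞 K) * (ν' * c') := by
          rw [Int.cast_natCast, Nat.cast_mul, hc']
        rw [hc, hWz]
        calc ((u₁ : 𝓞 K) * (ν' * c')) • (h' * (h * ω * star h) * star h')
            = (ν' * c') • (h' * ((u₁ : 𝓞 K) • (h * ω * star h)) * star h') := by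
              rw [mul_smul_comm, smul_mul_assoc, smul_smul, mul_comm (u₁ : 𝓞 K)]
          _ = (ν' * c') • (h' * (ν • z₁) * star h') := by rw [hz₁]
          _ = _ := by
              rw [mul_smul_comm, smul_mul_assoc, smul_smul, smul_smul]
              congr 1
              ring
      · rw [(D.prime i).dvd_mul, (D.prime i).dvd_mul]
        rintro (h | h | h)
        · exact hud₁ h
        · exact hik' i hi h
        · rw [PD.m, (Nat.Prime.prime (D.prime i)).dvd_finsetProd_iff] at h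
          obtain ⟨j, hj, hd⟩ := h
          have := (Nat.prime_dvd_prime_iff_eq (D.prime i) (D.prime j)).mp hd
          exact hiT (D.inj this ▸ hj)
  have h3 : ∀ i ∈ M, IsCoprime g (D.p i : ℤ) := by
    intro i hi
    obtain ⟨u, hu, hud⟩ := h2 i hi
    rw [hgJ] at hu
    have hp : Prime (D.p i : ℤ) := Nat.prime_iff_prime_int.mp (D.prime i)
    rw [isCoprime_comm, Prime.coprime_iff_not_dvd hp]
    intro hd
    exact hud (Int.natCast_dvd_natCast.mp (hd.trans hu))
  have h4 : ∀ S : Finset I, S ⊆ M → IsCoprime g ((D.m S : ℕ) : ℤ) := by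
    intro S hS
    rw [PD.m]
    push_cast
    exact IsCoprime.prod_right fun i hi => h3 i (hS hi)
  rw [hgJ] at h1
  have h5 : g ∣ ((k * k' : ℕ) : ℤ) := by
    have e1 : (((k * D.m M * (k' * D.m T) : ℕ)) : ℤ) =
        ((k * k' : ℕ) : ℤ) * ((D.m M : ℕ) : ℤ) * ((D.m T : ℕ) : ℤ) := by
      push_cast
      ring
    rw [e1] at h1
    exact (h4 M le_rfl).dvd_of_dvd_mul_right ((h4 T hTM).dvd_of_dvd_mul_right h1)
  rw [← hgJ, hJ] at h5
  obtain ⟨w, hw⟩ := h5
  refine ⟨w, ?_⟩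
  rw [← hw, Int.cast_natCast]

end Integral

end SphereRep
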