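import Pool.Agent.Lib_MP_ad0b27_co.Defs

/-!
MP_ad0b27_co: the real quaternion of an integral one (definition only).
-/

open NumberField

namespace SphereRep

/-- The real quaternion attached to an integral one. -/
noncomputable def qR {K : Type} [Field K] [NumberField K] (τ : K →+* ℝ) (h : Quaternion (𝓞 K)) :
    Quaternion ℝ := qmap (τ.comp (algebraMap (𝓞 K) K)) h

end SphereRep
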