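import Pool.Agent.Lib_MP_ad0b27_co.Psi
import Pool.Agent.Lib_MP_ad0b27_co.NormDiv

/-! MP_ad0b27_co: the size of the norm of a good quaternion. -/

open NumberField

namespace SphereRep

theorem normSq_ne_zero_of {K : Type} [Field K] [NumberField K] (τ : K →+* ℝ)
    (h : Quaternion (𝓞 K)) (h0 : h ≠ 0) : Quaternion.normSq h ≠ 0 := by
  intro hn
  apply h0
  rw [Quaternion.normSq_def'] at hn
  set f : 𝓞 K →+* ℝ := τ.comp (algebraMap (𝓞 K) K) with hf
  have hfi : Function.Injective f :=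
    (τ.injective).comp (FaithfulSMul.algebraMap_injective (𝓞 K) K)
  have h1 : f h.re ^ 2 + f h.imI ^ 2 + f h.imJ ^ 2 + f h.imK ^ 2 = 0 := by
    have := congrArg f hn
    simpa only [map_add, map_pow, map_zero] using this
  have hz : ∀ x : 𝓞 K, f x = 0 → x = 0 := fun x hx => hfi (by rw [hx, map_zero])
  have b1 := sq_nonneg (f h.re)
  have b2 := sq_nonneg (f h.imI)
  have b3 := sq_nonneg (f h.imJ)
  have b4 := sq_nonneg (f h.imK)
  have a1 : f h.re = 0 := pow_eq_zero_iff two_ne_zero |>.mp (by linarith)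
  have a2 : f h.imI = 0 := pow_eq_zero_iff two_ne_zero |>.mp (by linarith)
  have a3 : f h.imJ = 0 := pow_eq_zero_iff two_ne_zero |>.mp (by linarith)
  have a4 : f h.imK = 0 := pow_eq_zero_iff two_ne_zero |>.mp (by linarith)
  ext
  · exact congrArg _ (hz _ a1)
  · exact congrArg _ (hz _ a2)
  · exact congrArg _ (hz _ a3)
  · exact congrArg _ (hz _ a4)

theorem house_normSq_le {K : Type} [Field K] [NumberField K] (B : ℝ)
    (h : Quaternion (𝓞 K)) (hB : HouseLe B (qK h)) :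
    house ((Quaternion.normSq h : 𝓞 K) : K) ≤ 4 * B ^ 2 := by
  obtain ⟨h1, h2, h3, h4⟩ := hB
  have hq : ((Quaternion.normSq h : 𝓞 K) : K) =
      (qK h).re ^ 2 + (qK h).imI ^ 2 + (qK h).imJ ^ 2 + (qK h).imK ^ 2 := by
    rw [Quaternion.normSq_def']
    simp only [qK, qmap, map_add, map_pow]
  have hsq : ∀ x : K, house x ≤ B → house (x ^ 2) ≤ B ^ 2 := fun x hx =>
    (house_pow_le x 2).trans (pow_le_pow_left₀ (house_nonneg x) hx 2)
  rw [hq]
  have e1 := house_add_le ((qK h).re ^ 2 + (qK h).imI ^ 2 + (qK h).imJ ^ 2) ((qK h).imK ^ 2)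
  have e2 := house_add_le ((qK h).re ^ 2 + (qK h).imI ^ 2) ((qK h).imJ ^ 2)
  have e3 := house_add_le ((qK h).re ^ 2) ((qK h).imI ^ 2)
  linarith [hsq _ h1, hsq _ h2, hsq _ h3, hsq _ h4]

theorem rho_normSq {K : Type} [Field K] [NumberField K] {I : Type} (D : PD K I) (M : Finset I)
    (v : ∀ i, Option (ZMod (D.p i))) (C : ℝ) (h : Quaternion (𝓞 K)) (hG : Good C D M v h)
    (i : I) (hi : i ∈ M) : D.ρ i (Quaternion.normSq h) = 0 := by
  have : Fact (D.p i).Prime := ⟨D.prime i⟩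
  rw [← psi_det (D.ρ i) (D.j i) (D.hj i) h]
  exact det_zero_of_line _ (v i) (hG.ker i hi)

theorem PD.m_pos {K : Type} [Field K] [NumberField K] {I : Type} (D : PD K I) (M : Finset I) :
    0 < D.m M := Finset.prod_pos fun i _ => (D.prime i).pos

theorem PD.m_dvd {K : Type} [Field K] [NumberField K] {I : Type} (D : PD K I) (M : Finset I)
    (n : ℕ) (h : ∀ i ∈ M, D.p i ∣ n) : D.m M ∣ n := by
  classical
  have h1 : D.m M = ∏ q ∈ M.image D.p, q := by
    rw [Finset.prod_image (fun a _ b _ hab => D.inj hab)]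
    rfl
  rw [h1]
  apply Finset.prod_primes_dvd
  · intro q hq
    obtain ⟨i, _, rfl⟩ := Finset.mem_image.mp hq
    exact (D.prime i).prime
  · intro q hq
    obtain ⟨i, hi, rfl⟩ := Finset.mem_image.mp hq
    exact h i hi

theorem good_size (K : Type) [Field K] [NumberField K] (τ : K →+* ℝ) (C : ℝ) (hC : 1 ≤ C) :
    ∃ (C₁ : ℕ) (c₂ : ℝ), 0 < C₁ ∧ 0 < c₂ ∧ ∀ (I : Type) (D : PD K I) (M : Finset I)
      (v : ∀ i, Option (ZMod (D.p i))) (h : Quaternion (𝓞 K)), Good C D M v h →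
      ∃ k : ℕ, 1 ≤ k ∧ k ≤ C₁ ∧ (Algebra.norm ℤ (Quaternion.normSq h)).natAbs = k * D.m M ∧
        ∀ σ : K →+* ℂ, c₂ * (D.m M : ℝ) ^ (1 / (Module.finrank ℚ K : ℝ)) ≤
          ‖σ ((Quaternion.normSq h : 𝓞 K) : K)‖ := by
  set n : ℕ := Module.finrank ℚ K with hn
  have hn0 : 0 < n := Module.finrank_pos
  have hnr : (0 : ℝ) < n := by exact_mod_cast hn0
  have hCp : 0 < 4 * C ^ 2 := by positivity
  refine ⟨⌈(4 * C ^ 2) ^ n⌉₊, 1 / (4 * C ^ 2) ^ (n - 1), ?_, by positivity, ?_⟩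
  · exact Nat.ceil_pos.mpr (by positivity)
  intro I D M v h hG
  set ν := Quaternion.normSq h with hν
  have hν0 : ν ≠ 0 := normSq_ne_zero_of τ h hG.ne
  have hN0 : (Algebra.norm ℤ ν).natAbs ≠ 0 := by
    rw [Int.natAbs_ne_zero]
    exact Algebra.norm_ne_zero_iff.mpr hν0
  have hdvd : D.m M ∣ (Algebra.norm ℤ ν).natAbs := by
    apply PD.m_dvd
    intro i hi
    exact dvd_norm (D.p i) (D.prime i) (D.ρ i) ν (rho_normSq D M v C h hG i hi)
  obtain ⟨k, hk⟩ := hdvd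
  have hmp : 0 < D.m M := D.m_pos M
  have hmr : (0 : ℝ) < D.m M := by exact_mod_cast hmp
  set y : ℝ := (D.m M : ℝ) ^ (1 / (n : ℝ)) with hy
  have hyp : 0 < y := by positivity
  have hyn : y ^ n = D.m M := by
    rw [hy, ← Real.rpow_natCast, ← Real.rpow_mul hmr.le, one_div, inv_mul_cancel₀ hnr.ne',
      Real.rpow_one]
  have hB2 : (C * (D.m M : ℝ) ^ (1 / (2 * (n : ℝ)))) ^ 2 = C ^ 2 * y := by
    rw [mul_pow, ← Real.rpow_natCast ((D.m M : ℝ) ^ (1 / (2 * (n : ℝ)))) 2,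
      ← Real.rpow_mul hmr.le, hy]
    congr 2
    push_cast
    field_simp
  have hhouse : house (ν : K) ≤ 4 * C ^ 2 * y := by
    have := house_normSq_le _ h hG.bnd
    rw [hB2] at this
    linarith
  have hk0 : k ≠ 0 := by
    rintro rfl
    rw [mul_zero] at hk
    exact hN0 hk
  refine ⟨k, Nat.one_le_iff_ne_zero.mpr hk0, ?_, by rw [hk, mul_comm], ?_⟩
  · have h1 := natAbs_norm_le ν
    have h2 : house (ν : K) ^ n ≤ (4 * C ^ 2 * y) ^ n :=
      pow_le_pow_left₀ (house_nonneg _) hhouse n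
    rw [mul_pow, hyn] at h2
    have h3 : (k : ℝ) * D.m M ≤ (4 * C ^ 2) ^ n * D.m M := by
      have h4 : (((Algebra.norm ℤ ν).natAbs : ℕ) : ℝ) = k * D.m M := by
        rw [hk]; push_cast; ring
      rw [← h4]
      exact h1.trans h2
    have h5 : (k : ℝ) ≤ (4 * C ^ 2) ^ n := le_of_mul_le_mul_right h3 hmr
    exact_mod_cast h5.trans (Nat.le_ceil _)
  · intro σ
    have h1 := natAbs_norm_le_embedding ν σ
    have h2 : house (ν : K) ^ (n - 1) ≤ (4 * C ^ 2 * y) ^ (n - 1) :=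
      pow_le_pow_left₀ (house_nonneg _) hhouse (n - 1)
    have h3 : (D.m M : ℝ) ≤ (((Algebra.norm ℤ ν).natAbs : ℕ) : ℝ) := by
      exact_mod_cast Nat.le_of_dvd (Nat.pos_of_ne_zero hN0) ⟨k, hk⟩
    have h4 : (D.m M : ℝ) ≤ ‖σ (ν : K)‖ * (4 * C ^ 2 * y) ^ (n - 1) :=
      h3.trans (h1.trans (mul_le_mul_of_nonneg_left h2 (norm_nonneg _)))
    have h5 : (D.m M : ℝ) = y * y ^ (n - 1) := by
      rw [← pow_succ', Nat.sub_add_cancel hn0, hyn]
    rw [h5, mul_pow, ← mul_assoc] at h4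
    have h6 : y ≤ ‖σ (ν : K)‖ * (4 * C ^ 2) ^ (n - 1) :=
      le_of_mul_le_mul_right h4 (by positivity)
    rw [div_mul_eq_mul_div, one_mul, div_le_iff₀ (by positivity)]
    exact h6

end SphereRep
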