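import Pool.Agent.Lib_MP_ad0b27_co.Psi
import Pool.Agent.Lib_MP_ad0b27_co.Size
import Pool.Agent.Lib_MP_ad0b27_co.Integral
import Pool.Agent.Lib_MP_ad0b27_co.QR

/-!
MP_ad0b27_co, piece INJECT: the pair of points determines the set of primes and the lines.
-/

open NumberField

namespace SphereRep

section Inject
variable {K : Type} [Field K] [NumberField K] {I : Type}

/-- a real quaternion that commutes with `i` and with `c i + s j`, `s ≠ 0`, is real -/
theorem inj_comm (A : Quaternion ℝ) (c s : ℝ) (hs : s ≠ 0)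
    (h1 : A * ⟨0, 1, 0, 0⟩ = ⟨0, 1, 0, 0⟩ * A) (h2 : A * ⟨0, c, s, 0⟩ = ⟨0, c, s, 0⟩ * A) :
    A.imI = 0 ∧ A.imJ = 0 ∧ A.imK = 0 := by
  have e1 := congrArg QuaternionAlgebra.imJ h1
  have e2 := congrArg QuaternionAlgebra.imK h1
  have e3 := congrArg QuaternionAlgebra.imK h2
  simp at e1 e2 e3
  have hK : A.imK = 0 := by linarith
  have hJ : A.imJ = 0 := by linarith
  refine ⟨?_, hJ, hK⟩
  have : A.imI * s = 0 := by
    rw [hJ] at e3
    linarith
  exact (mul_eq_zero.mp this).resolve_right hs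

/-- the primes of `M` are primes of `M'` -/
theorem inj_sub [DecidableEq I] (D : PD K I) (M M' : Finset I) (a ν ν' : ℤ) (k k' : ℕ)
    (ha : a ^ 2 = ν * ν') (hk : ν.natAbs = k * D.m M) (hk' : ν'.natAbs = k' * D.m M')
    (h1 : ∀ i, ¬ D.p i ∣ k) (h2 : ∀ i, ¬ D.p i ∣ k') : M ⊆ M' := by
  intro i hi
  by_contra hi'
  have hp := D.prime i
  have hM : D.m M = D.p i * D.m (M.erase i) := by
    unfold PD.m
    rw [Finset.mul_prod_erase M D.p hi]
  have e : a.natAbs ^ 2 = (k * (D.p i * D.m (M.erase i))) * (k' * D.m M') := by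
    rw [← hM, ← hk, ← hk', ← Int.natAbs_mul, ← ha, Int.natAbs_pow]
  have hpa : D.p i ∣ a.natAbs := by
    apply hp.dvd_of_dvd_pow (n := 2)
    rw [e]
    exact ⟨k * D.m (M.erase i) * (k' * D.m M'), by ring⟩
  obtain ⟨b, hb⟩ := hpa
  have e2 : D.p i * b ^ 2 = (k * D.m (M.erase i)) * (k' * D.m M') := by
    apply Nat.eq_of_mul_eq_mul_left hp.pos
    rw [hb] at e
    linear_combination e
  have hnd : ∀ N : Finset I, i ∉ N → ¬ D.p i ∣ D.m N := by
    intro N hN hd
    unfold PD.m at hd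
    rw [Prime.dvd_finsetProd_iff hp.prime] at hd
    obtain ⟨j, hj, hd⟩ := hd
    have := (Nat.prime_dvd_prime_iff_eq hp (D.prime j)).1 hd
    have := D.inj this
    rw [this] at hN
    exact hN hj
  have hd : D.p i ∣ (k * D.m (M.erase i)) * (k' * D.m M') := ⟨_, e2.symm⟩
  rcases (hp.dvd_mul).1 hd with hd | hd
  · rcases (hp.dvd_mul).1 hd with hd | hd
    · exact h1 i hd
    · exact hnd _ (Finset.notMem_erase i M) hd
  · rcases (hp.dvd_mul).1 hd with hd | hd
    · exact h2 i hd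
    · exact hnd _ hi' hd

theorem inj_conj (q q' x : Quaternion ℝ) (hq : q ≠ 0) (hq' : q' ≠ 0)
    (h : q * x * q⁻¹ = q' * x * q'⁻¹) : (star q' * q) * x = x * (star q' * q) := by
  have n1 : star q' * q' = ((Quaternion.normSq q' : ℝ) : Quaternion ℝ) :=
    Quaternion.star_mul_self q'
  have n2 : star q' = ((Quaternion.normSq q' : ℝ) : Quaternion ℝ) * q'⁻¹ := by
    rw [← n1, mul_assoc, mul_inv_cancel₀ hq', mul_one]
  have n3 : q * x = q' * x * q'⁻¹ * q := by
    rw [← h, mul_assoc (q * x), inv_mul_cancel₀ hq, mul_one]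
  calc (star q' * q) * x = (star q' * q') * (x * q'⁻¹ * q) := by
        rw [mul_assoc, n3]
        simp only [mul_assoc]
    _ = ((Quaternion.normSq q' : ℝ) : Quaternion ℝ) * x * (q'⁻¹ * q) := by
        rw [n1]
        simp only [mul_assoc]
    _ = x * ((Quaternion.normSq q' : ℝ) : Quaternion ℝ) * (q'⁻¹ * q) := by
        rw [Quaternion.coe_commutes]
    _ = x * (star q' * q) := by
        rw [n2]
        simp only [mul_assoc]

end Inject

theorem good_inj (K : Type) [Field K] [NumberField K] (τ : K →+* ℝ) (C : ℝ) (hC : 1 ≤ C) :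
    ∃ P₀ : ℕ, ∀ (I : Type) [Fintype I] [DecidableEq I] (D : PD K I), (∀ i, P₀ < D.p i) →
      ∀ (c₀ s₀ : 𝓞 K), s₀ ≠ 0 →
      ∀ (M M' : Finset I) (t t' : ∀ i, ZMod (D.p i)) (h h' : Quaternion (𝓞 K)),
        Good C D M (fun i => some (t i)) h → Good C D M' (fun i => some (t' i)) h' →
        qR τ h * qR τ ⟨0, 1, 0, 0⟩ * (qR τ h)⁻¹ = qR τ h' * qR τ ⟨0, 1, 0, 0⟩ * (qR τ h')⁻¹ →
        qR τ h * qR τ ⟨0, c₀, s₀, 0⟩ * (qR τ h)⁻¹ =
          qR τ h' * qR τ ⟨0, c₀, s₀, 0⟩ * (qR τ h')⁻¹ →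
        M = M' ∧ ∀ i ∈ M, t i = t' i := by
  obtain ⟨C₁, c₂, hC₁, hc₂, hsize⟩ := good_size K τ C hC
  refine ⟨C₁, ?_⟩
  intro I _ _ D hD c₀ s₀ hs₀ M M' t t' h h' hg hg' e1 e2
  obtain ⟨k, hk1, hk2, hkN, -⟩ := hsize I D M _ h hg
  obtain ⟨k', hk1', hk2', hkN', -⟩ := hsize I D M' _ h' hg'
  have hmpos : ∀ N : Finset I, 0 < D.m N := fun N => Finset.prod_pos fun i _ => (D.prime i).pos
  have hν : Quaternion.normSq h ≠ 0 := by
    intro h0
    rw [h0] at hkN
    rw [Algebra.norm_zero, Int.natAbs_zero] at hkN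
    have := Nat.mul_pos (by omega : 0 < k) (hmpos M)
    omega
  have hν' : Quaternion.normSq h' ≠ 0 := by
    intro h0
    rw [h0] at hkN'
    rw [Algebra.norm_zero, Int.natAbs_zero] at hkN'
    have := Nat.mul_pos (by omega : 0 < k') (hmpos M')
    omega
  have hnd : ∀ i, ¬ D.p i ∣ k := fun i hd => by
    have := Nat.le_of_dvd (by omega) hd
    have := hD i
    omega
  have hnd' : ∀ i, ¬ D.p i ∣ k' := fun i hd => by
    have := Nat.le_of_dvd (by omega) hd
    have := hD i
    omega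
  set f : 𝓞 K →+* ℝ := τ.comp (algebraMap (𝓞 K) K) with hf
  have hfinj : Function.Injective f :=
    τ.injective.comp (FaithfulSMul.algebraMap_injective (𝓞 K) K)
  have hq : ∀ g : Quaternion (𝓞 K), Quaternion.normSq g ≠ 0 → qR τ g ≠ 0 := by
    intro g hg0 h0
    apply hg0
    apply hfinj
    rw [map_zero, ← qmap_normSq f g]
    have : qmap f g = 0 := h0
    rw [this, map_zero]
  set a : Quaternion (𝓞 K) := star h' * h with ha
  have haR : qR τ a = star (qR τ h') * qR τ h := by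
    unfold qR
    rw [ha, qmap_mul, qmap_star]
  have c1 := inj_conj _ _ _ (hq h hν) (hq h' hν') e1
  have c2 := inj_conj _ _ _ (hq h hν) (hq h' hν') e2
  rw [← haR] at c1 c2
  have hi0 : qR τ ⟨0, 1, 0, 0⟩ = (⟨0, 1, 0, 0⟩ : Quaternion ℝ) := by
    unfold qR qmap
    simp
  have hw0 : qR τ ⟨0, c₀, s₀, 0⟩ = (⟨0, f c₀, f s₀, 0⟩ : Quaternion ℝ) := by
    unfold qR qmap
    simp [hf]
  rw [hi0] at c1
  rw [hw0] at c2
  obtain ⟨g1, g2, g3⟩ := inj_comm (qR τ a) (f c₀) (f s₀)
    (fun h0 => hs₀ (hfinj (by rw [h0, map_zero]))) c1 c2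
  have a1 : a.imI = 0 := hfinj (by rw [map_zero]; exact g1)
  have a2 : a.imJ = 0 := hfinj (by rw [map_zero]; exact g2)
  have a3 : a.imK = 0 := hfinj (by rw [map_zero]; exact g3)
  have hacoe : a = ((a.re : 𝓞 K) : Quaternion (𝓞 K)) := by
    ext <;> simp [a1, a2, a3]
  set r : 𝓞 K := a.re with hr
  have hn : r ^ 2 = Quaternion.normSq h * Quaternion.normSq h' := by
    have : Quaternion.normSq a = Quaternion.normSq h' * Quaternion.normSq h := by
      rw [ha, map_mul, Quaternion.normSq_star]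
    rw [mul_comm, ← this, hacoe]
    exact (Quaternion.normSq_coe _).symm
  have hnN : (Algebra.norm ℤ r) ^ 2 =
      Algebra.norm ℤ (Quaternion.normSq h) * Algebra.norm ℤ (Quaternion.normSq h') := by
    rw [← map_pow, hn, map_mul]
  have hMM' : M = M' := by
    apply Finset.Subset.antisymm
    · exact inj_sub D M M' _ _ _ k k' hnN hkN hkN' hnd hnd'
    · exact inj_sub D M' M _ _ _ k' k (by rw [hnN, mul_comm]) hkN' hkN hnd' hnd
  subst hMM'
  refine ⟨rfl, ?_⟩
  -- `h * star h' = r`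
  have hhr : h * star h' = (r : Quaternion (𝓞 K)) := by
    have b1 : h' * a = ((Quaternion.normSq h' : 𝓞 K) : Quaternion (𝓞 K)) * h := by
      rw [ha, ← mul_assoc, Quaternion.self_mul_star]
    have b2 : (r : Quaternion (𝓞 K)) * h' =
        ((Quaternion.normSq h' : 𝓞 K) : Quaternion (𝓞 K)) * h := by
      rw [← b1, hacoe]
      exact Quaternion.coe_commutes r h'
    have b3 : ((Quaternion.normSq h' : 𝓞 K) : Quaternion (𝓞 K)) * (h * star h') =
        ((Quaternion.normSq h' : 𝓞 K) : Quaternion (𝓞 K)) * (r : Quaternion (𝓞 K)) := by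
      rw [← mul_assoc, ← b2, mul_assoc, Quaternion.self_mul_star]
      exact Quaternion.coe_commutes r _
    have b4 : ∀ x y : Quaternion (𝓞 K), ((Quaternion.normSq h' : 𝓞 K) : Quaternion (𝓞 K)) * x =
        ((Quaternion.normSq h' : 𝓞 K) : Quaternion (𝓞 K)) * y → x = y := by
      intro x y hxy
      apply QuaternionAlgebra.ext
      · have := congrArg QuaternionAlgebra.re hxy
        simp at this
        exact this.resolve_right hν'
      · have := congrArg QuaternionAlgebra.imI hxy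
        simp at this
        exact this.resolve_right hν'
      · have := congrArg QuaternionAlgebra.imJ hxy
        simp at this
        exact this.resolve_right hν'
      · have := congrArg QuaternionAlgebra.imK hxy
        simp at this
        exact this.resolve_right hν'
    exact b4 _ _ b3
  intro i hi
  have : Fact (D.p i).Prime := ⟨D.prime i⟩
  have hdet : D.ρ i (Quaternion.normSq h) = 0 := by
    rw [← psi_det (D.ρ i) (D.j i) (D.hj i) h]
    exact det_zero_of_line _ _ (hg.ker i hi)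
  have hr0 : D.ρ i r = 0 := by
    have : (D.ρ i r) ^ 2 = 0 := by
      rw [← map_pow, hn, map_mul, hdet, zero_mul]
    exact pow_eq_zero_iff (two_ne_zero) |>.1 this
  have hprod : D.psi i h * (D.psi i h').adjugate = 0 := by
    unfold PD.psi
    rw [← psi_star, ← psi_mul (D.ρ i) (D.j i) (D.hj i), hhr, psi_coe, hr0, zero_smul]
  have hne : D.psi i h ≠ 0 := psi_ne_zero D M h k hν hkN i hi (hnd i)
  have hne' : D.psi i h' ≠ 0 := psi_ne_zero D M h' k' hν' hkN' i hi (hnd' i)
  have hk' : (D.psi i h').mulVec ![1, t' i] = 0 := hg'.ker i hi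
  have hk0 : (D.psi i h).mulVec ![1, t i] = 0 := hg.ker i hi
  have := mulVec_of_mul_adj (D.psi i h) (D.psi i h') (t' i) hk' hne' hprod
  exact unique_line (D.psi i h) (t i) (t' i) hne hk0 this

end SphereRep
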