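import Pool.Agent.Lib_MP_ad0b27_co.Defs

/-!
MP_ad0b27_co, piece PIGEON: a short integral quaternion killing given points of projective lines.
-/

open NumberField

namespace SphereRep

section
variable {K : Type} [Field K] [NumberField K]

/-- combination of the integral basis -/
noncomputable def comb (n : Module.Free.ChooseBasisIndex ℤ (𝓞 K) → ℤ) : 𝓞 K :=
  ∑ l, n l • RingOfIntegers.basis K l

theorem comb_sub (n m : Module.Free.ChooseBasisIndex ℤ (𝓞 K) → ℤ) :
    comb (K := K) n - comb m = comb (fun l => n l - m l) := by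
  unfold comb
  rw [← Finset.sum_sub_distrib]
  apply Finset.sum_congr rfl
  intro l _
  rw [sub_smul]

theorem comb_eq_zero {n : Module.Free.ChooseBasisIndex ℤ (𝓞 K) → ℤ} (h : comb (K := K) n = 0)
    (l : Module.Free.ChooseBasisIndex ℤ (𝓞 K)) : n l = 0 := by
  have := (Fintype.linearIndependent_iff (R := ℤ)).1 (RingOfIntegers.basis K).linearIndependent n h
  exact this l

/-- bound of the houses of the basis -/
noncomputable def beta (K : Type) [Field K] [NumberField K] : ℝ :=
  ∑ l, house ((RingOfIntegers.basis K l : 𝓞 K) : K)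

theorem beta_nonneg : 0 ≤ beta K := Finset.sum_nonneg fun _ _ => house_nonneg _

theorem house_comb_le {n : Module.Free.ChooseBasisIndex ℤ (𝓞 K) → ℤ} {N : ℝ}
    (h : ∀ l, |(n l : ℝ)| ≤ N) : house ((comb n : 𝓞 K) : K) ≤ N * beta K := by
  unfold comb beta
  have e : ((∑ l, n l • RingOfIntegers.basis K l : 𝓞 K) : K) =
      ∑ l, ((n l : ℤ) : K) * ((RingOfIntegers.basis K l : 𝓞 K) : K) := by
    have h1 : algebraMap (𝓞 K) K (∑ l, n l • RingOfIntegers.basis K l) =
        ∑ l, ((n l : ℤ) : K) * algebraMap (𝓞 K) K (RingOfIntegers.basis K l) := by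
      rw [map_sum]
      apply Finset.sum_congr rfl
      intro l _
      rw [zsmul_eq_mul, map_mul, map_intCast]
    exact h1
  rw [e]
  refine (house_sum_le_sum_house _ _).trans ?_
  rw [Finset.mul_sum]
  apply Finset.sum_le_sum
  intro l _
  refine (house_mul_le _ _).trans ?_
  rw [house_intCast]
  apply mul_le_mul_of_nonneg_right _ (house_nonneg _)
  have := h l
  push_cast
  exact this

/-- the integral quaternion with given coordinates -/
noncomputable def quat {n : ℕ} (c : Fin 4 → Module.Free.ChooseBasisIndex ℤ (𝓞 K) → Fin n) :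
    Quaternion (𝓞 K) :=
  ⟨comb (fun l => ((c 0 l : ℕ) : ℤ)), comb (fun l => ((c 1 l : ℕ) : ℤ)),
    comb (fun l => ((c 2 l : ℕ) : ℤ)), comb (fun l => ((c 3 l : ℕ) : ℤ))⟩

theorem psi_sub {R k : Type*} [CommRing R] [CommRing k] (ρ : R →+* k) (j : k)
    (h h' : Quaternion R) : psi ρ j (h - h') = psi ρ j h - psi ρ j h' := by
  unfold psi
  ext a b
  fin_cases a <;> fin_cases b <;> simp <;> ring

end

theorem exists_good (K : Type) [Field K] [NumberField K] :
    ∃ C : ℝ, 1 ≤ C ∧ ∀ (I : Type) [Fintype I] [DecidableEq I] (D : PD K I) (M : Finset I)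
      (v : ∀ i, Option (ZMod (D.p i))), ∃ h, Good C D M v h := by
  refine ⟨1 + beta K, by linarith [beta_nonneg (K := K)], ?_⟩
  intro I _ _ D M v
  have hp : ∀ i, Fact (D.p i).Prime := fun i => ⟨D.prime i⟩
  have : ∀ i, NeZero (D.p i) := fun i => ⟨(D.prime i).ne_zero⟩
  set d : ℕ := Module.finrank ℚ K with hd
  have hd0 : 0 < d := Module.finrank_pos
  set m : ℕ := D.m M with hm
  have hm1 : 1 ≤ m := by
    have : 0 < D.m M := Finset.prod_pos fun i _ => (D.prime i).pos
    omega
  set x : ℝ := (m : ℝ) ^ (1 / (2 * (d : ℝ))) with hx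
  have hx0 : 0 ≤ x := Real.rpow_nonneg (by positivity) _
  set K0 : ℕ := ⌊x⌋₊ with hK0
  have hK0x : (K0 : ℝ) ≤ x := Nat.floor_le hx0
  have hK0lt : x < (K0 : ℝ) + 1 := Nat.lt_floor_add_one x
  have hcardι : Fintype.card (Module.Free.ChooseBasisIndex ℤ (𝓞 K)) = d := by
    rw [← Module.finrank_eq_card_chooseBasisIndex, RingOfIntegers.rank]
  have hxpow : x ^ (2 * d) = m := by
    rw [hx, ← Real.rpow_natCast, ← Real.rpow_mul (by positivity)]
    have : (1 / (2 * (d : ℝ))) * ((2 * d : ℕ) : ℝ) = 1 := by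
      push_cast
      have : (d : ℝ) ≠ 0 := by positivity
      field_simp
    rw [this, Real.rpow_one]
  have hlt1 : m < (K0 + 1) ^ (2 * d) := by
    have h1 : x ^ (2 * d) < ((K0 : ℝ) + 1) ^ (2 * d) :=
      pow_lt_pow_left₀ hK0lt hx0 (by omega)
    rw [hxpow] at h1
    exact_mod_cast h1
  -- the map
  let f : (Fin 4 → Module.Free.ChooseBasisIndex ℤ (𝓞 K) → Fin (K0 + 1)) →
      (∀ i : {i // i ∈ M}, Fin 2 → ZMod (D.p i.1)) :=
    fun c i => (D.psi i.1 (quat c)).mulVec (vec (v i.1))
  have hcard1 : Fintype.card (Fin 4 → Module.Free.ChooseBasisIndex ℤ (𝓞 K) → Fin (K0 + 1)) =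
      ((K0 + 1) ^ (2 * d)) ^ 2 := by
    rw [Fintype.card_fun, Fintype.card_fun, Fintype.card_fin, Fintype.card_fin, hcardι,
      ← pow_mul, ← pow_mul]
    congr 1
    ring
  have hcard2 : Fintype.card (∀ i : {i // i ∈ M}, Fin 2 → ZMod (D.p i.1)) = m ^ 2 := by
    rw [Fintype.card_pi]
    have : ∀ i : {i // i ∈ M}, Fintype.card (Fin 2 → ZMod (D.p i.1)) = D.p i.1 ^ 2 := by
      intro i
      rw [Fintype.card_fun, Fintype.card_fin, ZMod.card]
    rw [Finset.prod_congr rfl fun i _ => this i]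
    rw [Finset.prod_pow, hm, PD.m]
    congr 1
    exact Finset.prod_coe_sort M (fun i => D.p i)
  have hcard : Fintype.card (∀ i : {i // i ∈ M}, Fin 2 → ZMod (D.p i.1)) <
      Fintype.card (Fin 4 → Module.Free.ChooseBasisIndex ℤ (𝓞 K) → Fin (K0 + 1)) := by
    rw [hcard1, hcard2]
    exact Nat.pow_lt_pow_left hlt1 (by norm_num)
  obtain ⟨c, c', hne, heq⟩ := Fintype.exists_ne_map_eq_of_card_lt f hcard
  refine ⟨quat c - quat c', ?_, ?_, ?_⟩
  · intro h0
    apply hne
    have e0 : comb (K := K) (fun l => ((c 0 l : ℕ) : ℤ) - ((c' 0 l : ℕ) : ℤ)) = 0 := by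
      have := congrArg (fun q : Quaternion (𝓞 K) => q.re) h0
      rw [← comb_sub]
      exact this
    have e1 : comb (K := K) (fun l => ((c 1 l : ℕ) : ℤ) - ((c' 1 l : ℕ) : ℤ)) = 0 := by
      have := congrArg (fun q : Quaternion (𝓞 K) => q.imI) h0
      rw [← comb_sub]
      exact this
    have e2 : comb (K := K) (fun l => ((c 2 l : ℕ) : ℤ) - ((c' 2 l : ℕ) : ℤ)) = 0 := by
      have := congrArg (fun q : Quaternion (𝓞 K) => q.imJ) h0
      rw [← comb_sub]
      exact this
    have e3 : comb (K := K) (fun l => ((c 3 l : ℕ) : ℤ) - ((c' 3 l : ℕ) : ℤ)) = 0 := by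
      have := congrArg (fun q : Quaternion (𝓞 K) => q.imK) h0
      rw [← comb_sub]
      exact this
    funext a l
    fin_cases a
    · have := comb_eq_zero e0 l
      apply Fin.ext
      show (c 0 l : ℕ) = (c' 0 l : ℕ)
      omega
    · have := comb_eq_zero e1 l
      apply Fin.ext
      show (c 1 l : ℕ) = (c' 1 l : ℕ)
      omega
    · have := comb_eq_zero e2 l
      apply Fin.ext
      show (c 2 l : ℕ) = (c' 2 l : ℕ)
      omega
    · have := comb_eq_zero e3 l
      apply Fin.ext
      show (c 3 l : ℕ) = (c' 3 l : ℕ)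
      omega
  · intro i hi
    have h1 := congrFun heq ⟨i, hi⟩
    have h2 : (D.psi i (quat c)).mulVec (vec (v i)) = (D.psi i (quat c')).mulVec (vec (v i)) := h1
    unfold PD.psi at h2 ⊢
    rw [psi_sub, Matrix.sub_mulVec, h2, sub_self]
  · have hb : ∀ a : Fin 4, house ((comb (fun l => ((c a l : ℕ) : ℤ) - ((c' a l : ℕ) : ℤ)) : 𝓞 K) : K)
        ≤ (1 + beta K) * x := by
      intro a
      have h1 : house ((comb (fun l => ((c a l : ℕ) : ℤ) - ((c' a l : ℕ) : ℤ)) : 𝓞 K) : K)
          ≤ (K0 : ℝ) * beta K := by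
        apply house_comb_le
        intro l
        have h1 := (c a l).isLt
        have h2 := (c' a l).isLt
        have h3 : |((c a l : ℕ) : ℤ) - ((c' a l : ℕ) : ℤ)| ≤ (K0 : ℤ) := by
          rw [abs_le]
          constructor <;> omega
        exact_mod_cast h3
      refine h1.trans ?_
      have h2 : (K0 : ℝ) * beta K ≤ x * beta K :=
        mul_le_mul_of_nonneg_right hK0x beta_nonneg
      nlinarith
    refine ⟨?_, ?_, ?_, ?_⟩
    · have := hb 0
      rw [← comb_sub] at this
      exact this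
    · have := hb 1
      rw [← comb_sub] at this
      exact this
    · have := hb 2
      rw [← comb_sub] at this
      exact this
    · have := hb 3
      rw [← comb_sub] at this
      exact this

end SphereRep
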