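import Pool.Agent.Lib_MP_ad0b27_co.Defs

/-!
MP_ad0b27_co: piece SETUP, the number fields.
-/

open NumberField Filter Topology
open scoped nonZeroDivisors

namespace SphereRep

/-- a common positive denominator -/
theorem common_den (K : Type) [Field K] [NumberField K] (c s : K) :
    ∃ (d : ℕ) (c₀ s₀ : 𝓞 K), 0 < d ∧ (c₀ : K) = d * c ∧ (s₀ : K) = d * s := by
  have h1 : ∀ z : K, ∃ y : ℤ, y ≠ 0 ∧ IsIntegral ℤ (y • z) := by
    intro z
    refine IsAlgebraic.exists_integral_multiple ?_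
    rw [IsFractionRing.isAlgebraic_iff ℤ ℚ K]
    exact Algebra.IsAlgebraic.isAlgebraic z
  obtain ⟨y1, hy1, hi1⟩ := h1 c
  obtain ⟨y2, hy2, hi2⟩ := h1 s
  have hz : ∀ (y : ℤ) (z : K), IsIntegral ℤ (y • z) → IsIntegral ℤ ((y.natAbs : K) * z) := by
    intro y z h
    rcases Int.natAbs_eq y with h' | h'
    · have h2 : ((y.natAbs : ℕ) : K) * z = y • z := by
        rw [zsmul_eq_mul]
        congr 1
        rw [← Int.cast_natCast (R := K), ← h']
      rw [h2]; exact h
    · have h2 : ((y.natAbs : ℕ) : K) * z = -(y • z) := by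
        rw [zsmul_eq_mul, ← neg_mul]
        congr 1
        have : ((y.natAbs : ℕ) : ℤ) = -y := by omega
        rw [← Int.cast_natCast (R := K), this, Int.cast_neg]
      rw [h2]; exact h.neg
  have hn : ∀ n : ℕ, IsIntegral ℤ (n : K) := fun n => by simpa using (isIntegral_algebraMap (R := ℤ) (A := K) (x := (n : ℤ)))
  refine ⟨y1.natAbs * y2.natAbs, ⟨(y2.natAbs : K) * ((y1.natAbs : K) * c), (hn _).mul (hz _ _ hi1)⟩,
    ⟨(y1.natAbs : K) * ((y2.natAbs : K) * s), (hn _).mul (hz _ _ hi2)⟩, ?_, ?_, ?_⟩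
  · exact Nat.mul_pos (Int.natAbs_pos.2 hy1) (Int.natAbs_pos.2 hy2)
  · simp only [Nat.cast_mul]
    change (y2.natAbs : K) * ((y1.natAbs : K) * c) = _
    ring
  · simp only [Nat.cast_mul]
    change (y1.natAbs : K) * ((y2.natAbs : K) * s) = _
    ring

theorem exists_I (K : Type) [Field K] [NumberField K] :
    ∃ (L : Type) (_ : Field L) (_ : NumberField L) (_ : Algebra K L) (ι : 𝓞 L), ι ^ 2 = -1 := by
  let f : Polynomial K := Polynomial.X ^ 2 + 1
  have hL : NumberField f.SplittingField := NumberField.of_module_finite K f.SplittingField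
  refine ⟨f.SplittingField, inferInstance, hL, inferInstance, ?_⟩
  have hdeg : (f.map (algebraMap K f.SplittingField)).degree ≠ 0 := by
    rw [Polynomial.degree_map]
    have : f.degree = 2 := by
      have := Polynomial.degree_X_pow_add_C (R := K) (n := 2) (by norm_num) 1
      simpa [f] using this
    rw [this]; norm_num
  obtain ⟨x, hx⟩ := (Polynomial.SplittingField.splits f).exists_eval_eq_zero hdeg
  have hx2 : x ^ 2 = -1 := by
    simp [f] at hx
    exact eq_neg_of_add_eq_zero_left hx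
  have hint : IsIntegral ℤ x := by
    refine IsIntegral.of_pow (n := 2) (by norm_num) ?_
    rw [hx2]
    exact isIntegral_one.neg
  refine ⟨⟨x, hint⟩, ?_⟩
  apply RingOfIntegers.ext
  simpa using hx2

theorem field_setup (α : ℝ) (h0 : 0 < α) (h2 : α < 2) (halg : IsAlgebraic ℚ α) :
    ∃ (K : Type) (_ : Field K) (_ : NumberField K) (L : Type) (_ : Field L) (_ : NumberField L)
      (τ : K →+* ℝ) (g : 𝓞 K →+* 𝓞 L) (ι : 𝓞 L) (c₀ s₀ : 𝓞 K) (d : ℕ),
      ι ^ 2 = -1 ∧ 0 < d ∧ c₀ ^ 2 + s₀ ^ 2 = (d : 𝓞 K) ^ 2 ∧ s₀ ≠ 0 ∧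
      τ (c₀ : K) = d * (1 - α ^ 2 / 2) := by
  set c : ℝ := 1 - α ^ 2 / 2 with hc
  set s : ℝ := Real.sqrt (1 - c ^ 2) with hs
  have hc1 : c < 1 := by rw [hc]; nlinarith
  have hc2 : -1 < c := by rw [hc]; nlinarith
  have hs0 : 0 < s := Real.sqrt_pos.2 (by nlinarith)
  have hcs : c ^ 2 + s ^ 2 = 1 := by
    rw [hs, Real.sq_sqrt (by nlinarith)]; ring
  have hcalg : IsAlgebraic ℚ c := by
    have h1 : IsAlgebraic ℚ (α ^ 2) := halg.pow 2
    have h2 : IsAlgebraic ℚ ((1 / 2 : ℝ)) := by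
      have := isAlgebraic_algebraMap (R := ℚ) (A := ℝ) (1 / 2 : ℚ)
      simpa using this
    have h3 : c = 1 - (1 / 2 : ℝ) * α ^ 2 := by rw [hc]; ring
    rw [h3]
    exact isAlgebraic_one.sub (h2.mul h1)
  have hsalg : IsAlgebraic ℚ s := by
    refine IsAlgebraic.of_pow (n := 2) (by norm_num) ?_
    have h3 : s ^ 2 = 1 - c ^ 2 := by linarith
    rw [h3]
    exact isAlgebraic_one.sub (hcalg.pow 2)
  let E : IntermediateField ℚ ℝ := IntermediateField.adjoin ℚ {c, s}
  have hfin : FiniteDimensional ℚ E := by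
    refine IntermediateField.finiteDimensional_adjoin ?_
    intro x hx
    rcases hx with rfl | rfl
    · exact hcalg.isIntegral
    · exact hsalg.isIntegral
  have hE : NumberField E := { to_charZero := inferInstance, to_finiteDimensional := hfin }
  have hcE : c ∈ E := IntermediateField.subset_adjoin ℚ _ (by simp)
  have hsE : s ∈ E := IntermediateField.subset_adjoin ℚ _ (by simp)
  obtain ⟨d, c₀, s₀, hd, hc0, hs0'⟩ := common_den E ⟨c, hcE⟩ ⟨s, hsE⟩
  obtain ⟨L, _, hL, hKL, ι, hι⟩ := exists_I E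
  refine ⟨E, inferInstance, hE, L, inferInstance, hL, (algebraMap E ℝ), 
    RingOfIntegers.mapRingHom (algebraMap E L), ι, c₀, s₀, d, hι, hd, ?_, ?_, ?_⟩
  · apply RingOfIntegers.ext
    have e1 : ((c₀ ^ 2 + s₀ ^ 2 : 𝓞 E) : E) = (c₀ : E) ^ 2 + (s₀ : E) ^ 2 := by
      simp only [map_add, map_pow]
    have e2 : (((d : 𝓞 E) ^ 2 : 𝓞 E) : E) = (d : E) ^ 2 := by
      simp only [map_pow, map_natCast]
    rw [e1, e2, hc0, hs0']
    apply Subtype.ext
    push_cast
    have : (d : ℝ) ^ 2 * (c ^ 2 + s ^ 2) = (d : ℝ) ^ 2 := by rw [hcs, mul_one]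
    linarith [this, mul_pow (d : ℝ) c 2, mul_pow (d : ℝ) s 2]
  · intro h
    rw [h] at hs0'
    have h1 : (d : E) * ⟨s, hsE⟩ = 0 := by rw [← hs0']; simp
    rcases mul_eq_zero.1 h1 with h1 | h1
    · have : d = 0 := by exact_mod_cast h1
      omega
    · have := congrArg Subtype.val h1
      simp at this
      exact hs0.ne' this
  · rw [hc0, map_mul, map_natCast]
    rfl

end SphereRep
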