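import Pool.Agent.Lib_MP_ad0b27_co.Vertex
import Pool.Agent.Lib_MP_ad0b27_co.Inject
import Pool.Agent.Lib_MP_ad0b27_co.Geom
import Pool.Agent.Lib_MP_ad0b27_co.Setup
import Pool.Agent.Lib_MP_ad0b27_co.Pigeon

/-!
MP_ad0b27_co, piece CORE.
-/

open NumberField

namespace SphereRep

theorem qR_ne_zero {K : Type} [Field K] [NumberField K] (τ : K →+* ℝ) (h : Quaternion (𝓞 K))
    (hh : h ≠ 0) : qR τ h ≠ 0 := by
  intro h0
  apply hh
  have hinj : Function.Injective (τ.comp (algebraMap (𝓞 K) K)) :=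
    τ.injective.comp RingOfIntegers.coe_injective
  apply qmap_injective _ hinj
  unfold qR at h0
  rw [h0]
  ext <;> exact (map_zero _).symm

theorem conj_smul (a b : ℝ) (hab : a * b = 1) (q w : Quaternion ℝ) :
    a • (q * (b • w) * q⁻¹) = q * w * q⁻¹ := by
  rw [mul_smul_comm, smul_mul_assoc, smul_smul, hab, one_smul]

theorem line_one {k : Type*} [Field k] {R : Type*} [CommRing R] (ρ : R →+* k) (j : k) :
    (psi ρ j (⟨0, 1, 0, 0⟩ : Quaternion R)).mulVec ![1, 0] = j • ![1, 0] := by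
  rw [mulVec_two]
  ext i
  fin_cases i <;> simp [psi]

theorem line_two {k : Type*} [Field k] {R : Type*} [CommRing R] (ρ : R →+* k) (j : k)
    (hj : j ^ 2 = -1) (c₀ s₀ : R) (d : k) (hs : ρ s₀ ≠ 0) (hcs : ρ c₀ ^ 2 + ρ s₀ ^ 2 = d ^ 2) :
    (psi ρ j (⟨0, c₀, s₀, 0⟩ : Quaternion R)).mulVec ![1, j * (d - ρ c₀) / ρ s₀] =
      (d * j) • ![1, j * (d - ρ c₀) / ρ s₀] := by
  rw [mulVec_two]
  ext i
  fin_cases i
  · simp [psi]
    field_simp
    ring
  · simp [psi]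
    field_simp
    linear_combination (-(d ^ 2) + ρ c₀ ^ 2) * hj - hcs

theorem core (α : ℝ) (h0 : 0 < α) (h2 : α < 2) (halg : IsAlgebraic ℚ α) :
    ∃ (L : Type) (_ : Field L) (_ : NumberField L) (C₀ P₀ : ℕ),
     ∀ (I : Type) [Fintype I] [DecidableEq I] (p : I → ℕ), Function.Injective p →
       (∀ i, (p i).Prime) → (∀ i, P₀ < p i) → (∀ i, Nonempty (𝓞 L →+* ZMod (p i))) →
     ∃ (X Y : Finset I → (∀ i, ZMod (p i)) → E3) (e : ∀ i, ZMod (p i))
       (Vx Vy : Finset I → Finset E3),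
       (∀ i, e i ≠ 0) ∧
       (∀ M t, ‖X M t‖ = 1 ∧ ‖Y M t‖ = 1 ∧ dist (X M t) (Y M t) = α) ∧
       (∀ M t M' t', X M t = X M' t' → Y M t = Y M' t' → M = M' ∧ ∀ i ∈ M, t i = t' i) ∧
       (∀ T, (Vx T).card ≤ C₀ * ∏ i ∈ T, (p i + 1)) ∧
       (∀ T, (Vy T).card ≤ C₀ * ∏ i ∈ T, (p i + 1)) ∧
       (∀ T M t, T ⊆ M → (∀ i ∈ M, i ∉ T → t i = 0) → X M t ∈ Vx T) ∧
       (∀ T M t, T ⊆ M → (∀ i ∈ M, i ∉ T → t i = e i) → Y M t ∈ Vy T) := by
  classical
  obtain ⟨K, _, _, L, _, _, τ, g, ι, c₀, s₀, d, hι, hd, hcs, hs0, hτ⟩ := field_setup α h0 h2 halg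
  obtain ⟨C, hC, hgood⟩ := exists_good K
  obtain ⟨C₁, P₁, hV1⟩ := vertex_sets K τ C hC hgood ⟨0, 1, 0, 0⟩
  obtain ⟨C₂, P₂, hV2⟩ := vertex_sets K τ C hC hgood ⟨0, c₀, s₀, 0⟩
  obtain ⟨P₃, hinj⟩ := good_inj K τ C hC
  refine ⟨L, inferInstance, inferInstance, C₁ + C₂,
    P₁ + P₂ + P₃ + d + (Algebra.norm ℤ s₀).natAbs + 2, ?_⟩
  intro I _ _ p hpinj hp hP hρ
  let D : PD K I :=
    { p := p
      prime := hp
      inj := hpinj
      odd := fun i => by have := hP i; omega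
      ρ := fun i => (Classical.choice (hρ i)).comp g
      j := fun i => (Classical.choice (hρ i)) ι
      hj := fun i => by rw [← map_pow, hι, map_neg, map_one] }
  have hF : ∀ i, Fact (D.p i).Prime := fun i => ⟨hp i⟩
  have hρs : ∀ i, D.ρ i s₀ ≠ 0 := by
    intro i hi
    have h1 := dvd_norm (D.p i) (hp i) (D.ρ i) s₀ hi
    have h2 : (Algebra.norm ℤ s₀).natAbs ≠ 0 := by
      rw [Int.natAbs_ne_zero]
      exact (Algebra.norm_ne_zero_iff).mpr hs0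
    have h3 := Nat.le_of_dvd (Nat.pos_of_ne_zero h2) h1
    have := hP i
    change p i ≤ _ at h3
    omega
  have hρd : ∀ i, ((d : ℕ) : ZMod (D.p i)) ≠ 0 := by
    intro i hi
    rw [ZMod.natCast_eq_zero_iff] at hi
    have h3 := Nat.le_of_dvd hd hi
    have := hP i
    change p i ≤ _ at h3
    omega
  have hρcs : ∀ i, D.ρ i c₀ ^ 2 + D.ρ i s₀ ^ 2 = ((d : ℕ) : ZMod (D.p i)) ^ 2 := by
    intro i
    have := congrArg (D.ρ i) hcs
    simpa using this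
  let e : ∀ i, ZMod (p i) := fun i =>
    D.j i * (((d : ℕ) : ZMod (D.p i)) - D.ρ i c₀) / D.ρ i s₀
  have hj0 : ∀ i, D.j i ≠ 0 := by
    intro i hi
    have := D.hj i
    rw [hi] at this
    simp at this
  have he : ∀ i, e i ≠ 0 := by
    intro i
    refine div_ne_zero (mul_ne_zero (hj0 i) ?_) (hρs i)
    intro h
    have h1 := hρcs i
    have h2 : D.ρ i s₀ ^ 2 = 0 := by
      linear_combination h1 + (((d : ℕ) : ZMod (D.p i)) + D.ρ i c₀) * h
    exact hρs i (pow_eq_zero_iff (two_ne_zero) |>.mp h2)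
  obtain ⟨V1, hV1c, hV1m⟩ := hV1 I D (fun i => by have := hP i; change _ < p i; omega)
    (fun i => 0) (fun i => ⟨D.j i, line_one (D.ρ i) (D.j i)⟩)
  obtain ⟨V2, hV2c, hV2m⟩ := hV2 I D (fun i => by have := hP i; change _ < p i; omega)
    e (fun i => ⟨((d : ℕ) : ZMod (D.p i)) * D.j i,
      line_two (D.ρ i) (D.j i) (D.hj i) c₀ s₀ _ (hρs i) (hρcs i)⟩)
  have hinj' := hinj I D (fun i => by have := hP i; change _ < p i; omega) c₀ s₀ hs0
  choose h hh using fun (M : Finset I) (t : ∀ i, ZMod (D.p i)) =>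
    hgood I D M (fun i => some (t i))
  have hq : ∀ M t, qR τ (h M t) ≠ 0 := fun M t => qR_ne_zero τ _ (hh M t).ne
  have hdR : (d : ℝ) ≠ 0 := by positivity
  set c : ℝ := 1 - α ^ 2 / 2 with hc
  set s : ℝ := τ (s₀ : K) / d with hs
  have hcs1 : c ^ 2 + s ^ 2 = 1 := by
    have h1 : (τ (c₀ : K)) ^ 2 + (τ (s₀ : K)) ^ 2 = (d : ℝ) ^ 2 := by
      have := congrArg (fun z : 𝓞 K => τ (z : K)) hcs
      simpa using this
    rw [hτ] at h1
    rw [hs]
    field_simp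
    linear_combination h1
  have hx0 : qR τ (⟨0, 1, 0, 0⟩ : Quaternion (𝓞 K)) = ⟨0, 1, 0, 0⟩ := by
    unfold qR qmap
    simp
  have hy0 : qR τ (⟨0, c₀, s₀, 0⟩ : Quaternion (𝓞 K)) = (d : ℝ) • (⟨0, c, s, 0⟩ : Quaternion ℝ) := by
    unfold qR qmap
    ext
    · simp
    · simp [hτ]
    · simp [hs]
      field_simp
    · simp
  have hY : ∀ q : Quaternion ℝ, ((1 : ℝ) / d) • (q * qR τ (⟨0, c₀, s₀, 0⟩ : Quaternion (𝓞 K)) * q⁻¹)
      = q * ⟨0, c, s, 0⟩ * q⁻¹ := by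
    intro q
    rw [hy0]
    exact conj_smul _ _ (one_div_mul_cancel hdR) q _
  refine ⟨fun M t => pt (qR τ (h M t) * qR τ ⟨0, 1, 0, 0⟩ * (qR τ (h M t))⁻¹),
    fun M t => pt (((1 : ℝ) / d) • (qR τ (h M t) * qR τ ⟨0, c₀, s₀, 0⟩ * (qR τ (h M t))⁻¹)),
    e, fun T => (V1 T).image pt, fun T => (V2 T).image (fun q => pt (((1 : ℝ) / d) • q)),
    he, ?_, ?_, ?_, ?_, ?_, ?_⟩
  · intro M t
    refine ⟨?_, ?_, ?_⟩
    · rw [hx0]
      exact norm_pt_conj _ 1 0 (hq M t) (by norm_num)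
    · simp only [hY]
      exact norm_pt_conj _ c s (hq M t) hcs1
    · simp only [hY, hx0]
      rw [dist_pt_conj _ c s (hq M t) hcs1, hc]
      rw [show (2 : ℝ) - 2 * (1 - α ^ 2 / 2) = α ^ 2 by ring]
      exact Real.sqrt_sq h0.le
  · intro M t M' t' hX hY'
    have h1 := pt_inj _ _ (re_conj _ _ (hq M t) (by rw [hx0])) (re_conj _ _ (hq M' t') (by rw [hx0]))
      hX
    simp only [hY] at hY'
    have h2 := pt_inj _ _ (re_conj _ _ (hq M t) rfl) (re_conj _ _ (hq M' t') rfl) hY'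
    rw [← hY, ← hY] at h2
    have h3 := smul_right_injective (Quaternion ℝ) (one_div_ne_zero hdR) h2
    exact hinj' M M' t t' _ _ (hh M t) (hh M' t') h1 h3
  · intro T
    refine Finset.card_image_le.trans ((hV1c T).trans ?_)
    gcongr
    omega
  · intro T
    refine Finset.card_image_le.trans ((hV2c T).trans ?_)
    gcongr
    omega
  · intro T M t hTM ht
    exact Finset.mem_image_of_mem _ (hV1m T M t _ hTM ht (hh M t))
  · intro T M t hTM ht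
    exact Finset.mem_image_of_mem _ (hV2m T M t _ hTM ht (hh M t))

end SphereRep
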