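import Pool.Agent.Lib_MP_ad0b27_co.Graph

/-!
MP_ad0b27_co, piece COUNT: double counting.
-/

open Finset

namespace SphereRep

namespace CountP

/-- the elementary inequality between the products -/
theorem prod_bound {I : Type} [DecidableEq I] (p : I → ℕ) (X₀ r l : ℕ) (hX : 3 ≤ X₀)
    (hpX : ∀ i, X₀ < p i ∧ p i ≤ 2 * X₀) (T B : Finset I) (hB : B ⊆ T) (hT : T.card = r)
    (hBl : B.card = l) :
    (X₀ - 2) ^ r * ∏ i ∈ T, (p i + 1) ≤
      (2 * X₀ + 1) ^ l * (X₀ + 1) ^ r * ∏ i ∈ T \ B, (p i - 2) := by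
  have h1 : ∏ i ∈ T, (p i + 1) = (∏ i ∈ T \ B, (p i + 1)) * ∏ i ∈ B, (p i + 1) :=
    (Finset.prod_sdiff hB).symm
  have h2 : ∏ i ∈ B, (p i + 1) ≤ (2 * X₀ + 1) ^ l := by
    calc ∏ i ∈ B, (p i + 1) ≤ ∏ i ∈ B, (2 * X₀ + 1) :=
          Finset.prod_le_prod' fun i _ => by have := (hpX i).2; omega
      _ = (2 * X₀ + 1) ^ l := by rw [Finset.prod_const, hBl]
  have h3 : (T \ B).card = r - l := by rw [Finset.card_sdiff_of_subset hB, hT, hBl]
  have hlr : l ≤ r := by rw [← hT, ← hBl]; exact Finset.card_le_card hB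
  have h4 : (X₀ - 2) ^ (r - l) * ∏ i ∈ T \ B, (p i + 1) ≤
      (X₀ + 1) ^ (r - l) * ∏ i ∈ T \ B, (p i - 2) := by
    rw [← h3, ← Finset.prod_const, ← Finset.prod_const, ← Finset.prod_mul_distrib,
      ← Finset.prod_mul_distrib]
    apply Finset.prod_le_prod'
    intro i _
    have hi := (hpX i).1
    obtain ⟨a, ha⟩ : ∃ a, X₀ = a + 2 := ⟨X₀ - 2, by omega⟩
    obtain ⟨b, hb⟩ : ∃ b, p i = a + 2 + 1 + b := ⟨p i - (a + 2 + 1), by omega⟩
    have e1 : X₀ - 2 = a := by omega
    have e2 : p i - 2 = a + 1 + b := by omega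
    rw [e1, e2, ha, hb]
    nlinarith
  have h5 : (X₀ - 2) ^ l ≤ (X₀ + 1) ^ l := Nat.pow_le_pow_left (by omega) l
  have h6 : (X₀ - 2) ^ r = (X₀ - 2) ^ (r - l) * (X₀ - 2) ^ l := by
    rw [← pow_add]; congr 1; omega
  have h7 : (X₀ + 1) ^ r = (X₀ + 1) ^ (r - l) * (X₀ + 1) ^ l := by
    rw [← pow_add]; congr 1; omega
  calc (X₀ - 2) ^ r * ∏ i ∈ T, (p i + 1)
      = (X₀ - 2) ^ l * ((X₀ - 2) ^ (r - l) * ∏ i ∈ T \ B, (p i + 1)) * ∏ i ∈ B, (p i + 1) := by
        rw [h1, h6]; ring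
    _ ≤ (X₀ + 1) ^ l * ((X₀ + 1) ^ (r - l) * ∏ i ∈ T \ B, (p i - 2)) * (2 * X₀ + 1) ^ l :=
        Nat.mul_le_mul (Nat.mul_le_mul h5 h4) h2
    _ = (2 * X₀ + 1) ^ l * (X₀ + 1) ^ r * ∏ i ∈ T \ B, (p i - 2) := by rw [h7]; ring

end CountP

open CountP in
theorem count_conf (α : ℝ) (C₀ X₀ r l k : ℕ) (hX : 3 ≤ X₀) (hlr : l ≤ r)
    (I : Type) [Fintype I] [DecidableEq I] (p : I → ℕ) (hp : ∀ i, (p i).Prime)
    (hpX : ∀ i, X₀ < p i ∧ p i ≤ 2 * X₀) (hrI : r + l ≤ Fintype.card I)
    (X Y : Finset I → (∀ i, ZMod (p i)) → E3) (e : ∀ i, ZMod (p i))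
    (Vx Vy : Finset I → Finset E3)
    (he : ∀ i, e i ≠ 0)
    (hXY : ∀ M t, ‖X M t‖ = 1 ∧ ‖Y M t‖ = 1 ∧ dist (X M t) (Y M t) = α)
    (hinj : ∀ M t M' t', X M t = X M' t' → Y M t = Y M' t' → M = M' ∧ ∀ i ∈ M, t i = t' i)
    (hVx : ∀ T, (Vx T).card ≤ C₀ * ∏ i ∈ T, (p i + 1))
    (hVy : ∀ T, (Vy T).card ≤ C₀ * ∏ i ∈ T, (p i + 1))
    (hXV : ∀ T M t, T ⊆ M → (∀ i ∈ M, i ∉ T → t i = 0) → X M t ∈ Vx T)
    (hYV : ∀ T M t, T ⊆ M → (∀ i ∈ M, i ∉ T → t i = e i) → Y M t ∈ Vy T)
    (hk : 4 * k * C₀ * (2 * X₀ + 1) ^ l * (X₀ + 1) ^ r ≤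
      r.choose l * (Fintype.card I - r).choose l * (X₀ - 2) ^ r) :
    ∃ P : Finset E3, P.Nonempty ∧ IsConf α k P ∧
      P.card ≤ 2 * C₀ * (Fintype.card I).choose r * (2 * X₀ + 1) ^ r := by
  classical
  have hne : ∀ i, NeZero (p i) := fun i => ⟨(hp i).ne_zero⟩
  set F : ∀ i, Finset (ZMod (p i)) := fun i => (Finset.univ.erase 0).erase (e i) with hF
  have hFmem : ∀ i x, x ∈ F i ↔ x ≠ e i ∧ x ≠ 0 := by
    intro i x
    simp [hF]
  have hFcard : ∀ i, (F i).card = p i - 2 := by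
    intro i
    have h1 : e i ∈ Finset.univ.erase (0 : ZMod (p i)) := by simp [he i]
    show ((Finset.univ.erase (0 : ZMod (p i))).erase (e i)).card = p i - 2
    rw [Finset.card_erase_of_mem h1, Finset.card_erase_of_mem (Finset.mem_univ _),
      Finset.card_univ, ZMod.card]
    omega
  set TT : Finset I → Finset I → Finset (∀ i, ZMod (p i)) := fun T B =>
    Fintype.piFinset (fun i => if i ∈ T \ B then F i else {0}) with hTT
  have hTTcard : ∀ T B, (TT T B).card = ∏ i ∈ T \ B, (p i - 2) := by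
    intro T B
    simp only [hTT]
    rw [Fintype.card_piFinset]
    have : ∀ i, (if i ∈ T \ B then F i else {0}).card = if i ∈ T \ B then (p i - 2) else 1 := by
      intro i
      by_cases hi : i ∈ T \ B
      · rw [if_pos hi, if_pos hi, hFcard]
      · rw [if_neg hi, if_neg hi, Finset.card_singleton]
    rw [Finset.prod_congr rfl fun i _ => this i, Finset.prod_ite_mem, Finset.univ_inter]
  have hTTmem : ∀ T B t, t ∈ TT T B ↔
      (∀ i, i ∈ T \ B → t i ≠ e i ∧ t i ≠ 0) ∧ (∀ i, i ∉ T \ B → t i = 0) := by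
    intro T B t
    simp only [hTT, Fintype.mem_piFinset]
    constructor
    · intro h
      constructor
      · intro i hi
        have := h i
        rw [if_pos hi, hFmem] at this
        exact this
      · intro i hi
        have := h i
        rw [if_neg hi, Finset.mem_singleton] at this
        exact this
    · rintro ⟨h1, h2⟩ i
      by_cases hi : i ∈ T \ B
      · rw [if_pos hi, hFmem]; exact h1 i hi
      · rw [if_neg hi, Finset.mem_singleton]; exact h2 i hi
  -- the data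
  set DD : Finset (Σ _ : Finset I, Σ _ : Finset I × Finset I, ∀ i, ZMod (p i)) :=
    (Finset.powersetCard r Finset.univ).sigma fun T =>
      (Finset.powersetCard l T ×ˢ Finset.powersetCard l Tᶜ).sigma fun BA => TT T BA.1 with hDD
  have hDmem : ∀ d, d ∈ DD ↔ d.1.card = r ∧ (d.2.1.1 ⊆ d.1 ∧ d.2.1.1.card = l) ∧
      (d.2.1.2 ⊆ d.1ᶜ ∧ d.2.1.2.card = l) ∧ d.2.2 ∈ TT d.1 d.2.1.1 := by
    intro d
    simp only [hDD, Finset.mem_sigma, Finset.mem_powersetCard, Finset.mem_product,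
      Finset.subset_univ, true_and]
    tauto
  set tt : (Σ _ : Finset I, Σ _ : Finset I × Finset I, ∀ i, ZMod (p i)) → (∀ i, ZMod (p i)) :=
    fun d i => if i ∈ d.2.1.1 then e i else d.2.2 i with htt
  set mm : (Σ _ : Finset I, Σ _ : Finset I × Finset I, ∀ i, ZMod (p i)) → Finset I :=
    fun d => d.1 ∪ d.2.1.2 with hmm
  set pr : (Σ _ : Finset I, Σ _ : Finset I × Finset I, ∀ i, ZMod (p i)) → E3 × E3 :=
    fun d => (X (mm d) (tt d), Y (mm d) (tt d)) with hpr
  -- the vertex set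
  set V : Finset E3 := ((Finset.powersetCard r Finset.univ).biUnion (fun T => Vx T ∪ Vy T)).filter
    (fun x => ‖x‖ = 1) with hV
  have hVcard : V.card ≤ ∑ T ∈ Finset.powersetCard r (Finset.univ : Finset I),
      2 * C₀ * ∏ i ∈ T, (p i + 1) := by
    calc V.card ≤ ((Finset.powersetCard r Finset.univ).biUnion (fun T => Vx T ∪ Vy T)).card :=
          Finset.card_filter_le _ _
      _ ≤ ∑ T ∈ Finset.powersetCard r (Finset.univ : Finset I), (Vx T ∪ Vy T).card :=
          Finset.card_biUnion_le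
      _ ≤ ∑ T ∈ Finset.powersetCard r (Finset.univ : Finset I), 2 * C₀ * ∏ i ∈ T, (p i + 1) := by
          apply Finset.sum_le_sum
          intro T _
          calc (Vx T ∪ Vy T).card ≤ (Vx T).card + (Vy T).card := Finset.card_union_le _ _
            _ ≤ C₀ * ∏ i ∈ T, (p i + 1) + C₀ * ∏ i ∈ T, (p i + 1) :=
                Nat.add_le_add (hVx T) (hVy T)
            _ = 2 * C₀ * ∏ i ∈ T, (p i + 1) := by ring
  -- values of the modified function
  have hA : ∀ d ∈ DD, ∀ i ∈ d.2.1.2, tt d i = 0 := by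
    intro d hd i hi
    obtain ⟨h1, h2, h3, h4⟩ := (hDmem d).mp hd
    have hiT : i ∉ d.1 := Finset.mem_compl.mp (h3.1 hi)
    have hiB : i ∉ d.2.1.1 := fun h => hiT (h2.1 h)
    simp only [htt, if_neg hiB]
    exact ((hTTmem _ _ _).mp h4).2 i (fun h => hiT (Finset.mem_sdiff.mp h).1)
  have hB : ∀ d ∈ DD, ∀ i ∈ d.2.1.1, tt d i = e i := by
    intro d hd i hi
    simp only [htt, if_pos hi]
  have hC : ∀ d ∈ DD, ∀ i ∈ d.1 \ d.2.1.1, tt d i = d.2.2 i ∧ tt d i ≠ e i ∧ tt d i ≠ 0 := by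
    intro d hd i hi
    obtain ⟨h1, h2, h3, h4⟩ := (hDmem d).mp hd
    have hiB : i ∉ d.2.1.1 := (Finset.mem_sdiff.mp hi).2
    have e1 : tt d i = d.2.2 i := by simp only [htt, if_neg hiB]
    rw [e1]
    exact ⟨rfl, ((hTTmem _ _ _).mp h4).1 i hi⟩
  -- the pairs are edges of `V`
  have hmaps : ∀ d ∈ DD, pr d ∈ (V ×ˢ V).filter (fun q => dist q.1 q.2 = α) := by
    intro d hd
    obtain ⟨h1, h2, h3, h4⟩ := (hDmem d).mp hd
    obtain ⟨n1, n2, n3⟩ := hXY (mm d) (tt d)
    have hx : X (mm d) (tt d) ∈ Vx d.1 := by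
      apply hXV _ _ _ Finset.subset_union_left
      intro i hi hi'
      have : i ∈ d.2.1.2 := by
        rcases Finset.mem_union.mp hi with h | h
        · exact absurd h hi'
        · exact h
      exact hA d hd i this
    have hy : Y (mm d) (tt d) ∈ Vy (d.2.1.2 ∪ (d.1 \ d.2.1.1)) := by
      apply hYV
      · intro i hi
        rcases Finset.mem_union.mp hi with h | h
        · exact Finset.mem_union_right _ h
        · exact Finset.mem_union_left _ (Finset.mem_sdiff.mp h).1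
      · intro i hi hi'
        have hiB : i ∈ d.2.1.1 := by
          by_contra hcon
          apply hi'
          rcases Finset.mem_union.mp hi with h | h
          · exact Finset.mem_union_right _ (Finset.mem_sdiff.mpr ⟨h, hcon⟩)
          · exact Finset.mem_union_left _ h
        exact hB d hd i hiB
    have hcard : (d.2.1.2 ∪ (d.1 \ d.2.1.1)).card = r := by
      rw [Finset.card_union_of_disjoint, Finset.card_sdiff_of_subset h2.1, h1, h2.2, h3.2]
      · omega
      · rw [Finset.disjoint_left]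
        intro i hi hi'
        exact Finset.mem_compl.mp (h3.1 hi) (Finset.mem_sdiff.mp hi').1
    rw [Finset.mem_filter, Finset.mem_product]
    refine ⟨⟨?_, ?_⟩, n3⟩
    · simp only [hV, hpr, Finset.mem_filter, Finset.mem_biUnion, Finset.mem_powersetCard]
      exact ⟨⟨d.1, ⟨Finset.subset_univ _, h1⟩, Finset.mem_union_left _ hx⟩, n1⟩
    · simp only [hV, hpr, Finset.mem_filter, Finset.mem_biUnion, Finset.mem_powersetCard]
      exact ⟨⟨_, ⟨Finset.subset_univ _, hcard⟩, Finset.mem_union_right _ hy⟩, n2⟩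
  -- the pairs determine the data
  have hAeq : ∀ d ∈ DD, d.2.1.2 = (mm d).filter (fun i => tt d i = 0) := by
    intro d hd
    obtain ⟨h1, h2, h3, h4⟩ := (hDmem d).mp hd
    ext i
    rw [Finset.mem_filter]
    constructor
    · intro hi
      exact ⟨Finset.mem_union_right _ hi, hA d hd i hi⟩
    · rintro ⟨hi, h0⟩
      rcases Finset.mem_union.mp hi with h | h
      · exfalso
        by_cases hiB : i ∈ d.2.1.1
        · rw [hB d hd i hiB] at h0
          exact he i h0
        · exact (hC d hd i (Finset.mem_sdiff.mpr ⟨h, hiB⟩)).2.2 h0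
      · exact h
  have hBeq : ∀ d ∈ DD, d.2.1.1 = (mm d).filter (fun i => tt d i = e i) := by
    intro d hd
    obtain ⟨h1, h2, h3, h4⟩ := (hDmem d).mp hd
    ext i
    rw [Finset.mem_filter]
    constructor
    · intro hi
      exact ⟨Finset.mem_union_left _ (h2.1 hi), hB d hd i hi⟩
    · rintro ⟨hi, h0⟩
      by_contra hcon
      rcases Finset.mem_union.mp hi with h | h
      · exact (hC d hd i (Finset.mem_sdiff.mpr ⟨h, hcon⟩)).2.1 h0
      · rw [hA d hd i h] at h0
        exact he i h0.symm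
  have hTeq : ∀ d ∈ DD, d.1 = mm d \ d.2.1.2 := by
    intro d hd
    obtain ⟨h1, h2, h3, h4⟩ := (hDmem d).mp hd
    ext i
    rw [Finset.mem_sdiff]
    constructor
    · intro hi
      exact ⟨Finset.mem_union_left _ hi, fun h => Finset.mem_compl.mp (h3.1 h) hi⟩
    · rintro ⟨hi, h0⟩
      rcases Finset.mem_union.mp hi with h | h
      · exact h
      · exact absurd h h0
  have hprinj : ∀ d ∈ DD, ∀ d' ∈ DD, pr d = pr d' → d = d' := by
    intro d hd d' hd' h
    obtain ⟨hM, ht⟩ := hinj _ _ _ _ (congrArg Prod.fst h) (congrArg Prod.snd h)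
    have eA : d.2.1.2 = d'.2.1.2 := by
      rw [hAeq d hd, hAeq d' hd', ← hM]
      apply Finset.filter_congr
      intro i hi
      rw [ht i hi]
    have eB : d.2.1.1 = d'.2.1.1 := by
      rw [hBeq d hd, hBeq d' hd', ← hM]
      apply Finset.filter_congr
      intro i hi
      rw [ht i hi]
    have eT : d.1 = d'.1 := by
      rw [hTeq d hd, hTeq d' hd', ← hM, eA]
    have et : d.2.2 = d'.2.2 := by
      funext i
      obtain ⟨h1, h2, h3, h4⟩ := (hDmem d).mp hd
      obtain ⟨h1', h2', h3', h4'⟩ := (hDmem d').mp hd'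
      by_cases hi : i ∈ d.1 \ d.2.1.1
      · have hi' : i ∈ d'.1 \ d'.2.1.1 := by rw [← eT, ← eB]; exact hi
        rw [← (hC d hd i hi).1, ← (hC d' hd' i hi').1]
        exact ht i (Finset.mem_union_left _ (Finset.mem_sdiff.mp hi).1)
      · have hi' : i ∉ d'.1 \ d'.2.1.1 := by rw [← eT, ← eB]; exact hi
        rw [((hTTmem _ _ _).mp h4).2 i hi, ((hTTmem _ _ _).mp h4').2 i hi']
    obtain ⟨T, ⟨B, A⟩, t⟩ := d
    obtain ⟨T', ⟨B', A'⟩, t'⟩ := d'
    simp only at eA eB eT et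
    subst eA eB eT et
    rfl
  have hedges : DD.card ≤ ((V ×ˢ V).filter (fun q => dist q.1 q.2 = α)).card :=
    Finset.card_le_card_of_injOn pr hmaps (fun d hd d' hd' h => hprinj d hd d' hd' h)
  -- counting the data
  have hDcard : DD.card = ∑ T ∈ Finset.powersetCard r (Finset.univ : Finset I),
      ∑ BA ∈ Finset.powersetCard l T ×ˢ Finset.powersetCard l Tᶜ,
        ∏ i ∈ T \ BA.1, (p i - 2) := by
    simp only [hDD, Finset.card_sigma, hTTcard]
  have hterm : ∀ T ∈ Finset.powersetCard r (Finset.univ : Finset I),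
      4 * k * C₀ * ∏ i ∈ T, (p i + 1) ≤
        ∑ BA ∈ Finset.powersetCard l T ×ˢ Finset.powersetCard l Tᶜ,
          ∏ i ∈ T \ BA.1, (p i - 2) := by
    intro T hT
    have hTr : T.card = r := (Finset.mem_powersetCard.mp hT).2
    have hTc : (Tᶜ).card = Fintype.card I - r := by rw [Finset.card_compl, hTr]
    have hpos : 0 < (2 * X₀ + 1) ^ l * (X₀ + 1) ^ r := by positivity
    apply Nat.le_of_mul_le_mul_left _ hpos
    calc (2 * X₀ + 1) ^ l * (X₀ + 1) ^ r * (4 * k * C₀ * ∏ i ∈ T, (p i + 1))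
        = 4 * k * C₀ * (2 * X₀ + 1) ^ l * (X₀ + 1) ^ r * ∏ i ∈ T, (p i + 1) := by ring
      _ ≤ r.choose l * (Fintype.card I - r).choose l * (X₀ - 2) ^ r * ∏ i ∈ T, (p i + 1) :=
          Nat.mul_le_mul_right _ hk
      _ = ∑ BA ∈ Finset.powersetCard l T ×ˢ Finset.powersetCard l Tᶜ,
            ((X₀ - 2) ^ r * ∏ i ∈ T, (p i + 1)) := by
          rw [Finset.sum_const, Finset.card_product, Finset.card_powersetCard,
            Finset.card_powersetCard, hTr, hTc, smul_eq_mul]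
          ring
      _ ≤ ∑ BA ∈ Finset.powersetCard l T ×ˢ Finset.powersetCard l Tᶜ,
            ((2 * X₀ + 1) ^ l * (X₀ + 1) ^ r * ∏ i ∈ T \ BA.1, (p i - 2)) := by
          apply Finset.sum_le_sum
          intro BA hBA
          have h1 := Finset.mem_powersetCard.mp (Finset.mem_product.mp hBA).1
          exact prod_bound p X₀ r l hX hpX T BA.1 h1.1 hTr h1.2
      _ = (2 * X₀ + 1) ^ l * (X₀ + 1) ^ r *
            ∑ BA ∈ Finset.powersetCard l T ×ˢ Finset.powersetCard l Tᶜ,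
              ∏ i ∈ T \ BA.1, (p i - 2) := by rw [Finset.mul_sum]
  have hcount : 2 * k * V.card ≤ ((V ×ˢ V).filter (fun q => dist q.1 q.2 = α)).card := by
    calc 2 * k * V.card ≤ 2 * k * ∑ T ∈ Finset.powersetCard r (Finset.univ : Finset I),
          2 * C₀ * ∏ i ∈ T, (p i + 1) := Nat.mul_le_mul_left _ hVcard
      _ = ∑ T ∈ Finset.powersetCard r (Finset.univ : Finset I),
          4 * k * C₀ * ∏ i ∈ T, (p i + 1) := by
          rw [Finset.mul_sum]
          apply Finset.sum_congr rfl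
          intro T _
          ring
      _ ≤ DD.card := by
          rw [hDcard]
          exact Finset.sum_le_sum hterm
      _ ≤ _ := hedges
  -- `V` is not empty
  have hVne : V.Nonempty := by
    have hr : r ≤ (Finset.univ : Finset I).card := by rw [Finset.card_univ]; omega
    obtain ⟨T, hTu, hTr⟩ := Finset.exists_subset_card_eq hr
    obtain ⟨B, hBT, hBl⟩ := Finset.exists_subset_card_eq (s := T) (n := l) (by omega)
    obtain ⟨A, hAT, hAl⟩ := Finset.exists_subset_card_eq (s := Tᶜ) (n := l)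
      (by rw [Finset.card_compl, hTr]; omega)
    have hTTne : (TT T B).Nonempty := by
      rw [← Finset.card_pos, hTTcard]
      apply Finset.prod_pos
      intro i _
      have := (hpX i).1
      omega
    obtain ⟨t, ht⟩ := hTTne
    have hd : (⟨T, (B, A), t⟩ : Σ _ : Finset I, Σ _ : Finset I × Finset I, ∀ i, ZMod (p i)) ∈ DD :=
      (hDmem _).mpr ⟨hTr, ⟨hBT, hBl⟩, ⟨hAT, hAl⟩, ht⟩
    have := hmaps _ hd
    rw [Finset.mem_filter, Finset.mem_product] at this
    exact ⟨_, this.1.1⟩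
  obtain ⟨W, hWV, hWne, hW⟩ := exists_min_degree (fun x y : E3 => dist x y = α)
    (fun x y h => by rw [dist_comm]; exact h) V k hVne hcount
  refine ⟨W, hWne, ⟨?_, ?_⟩, ?_⟩
  · intro w hw
    exact (Finset.mem_filter.mp (hWV hw)).2
  · intro w hw
    have := hW w hw
    unfold deg
    convert this
  · calc W.card ≤ V.card := Finset.card_le_card hWV
      _ ≤ ∑ T ∈ Finset.powersetCard r (Finset.univ : Finset I), 2 * C₀ * ∏ i ∈ T, (p i + 1) :=
          hVcard
      _ ≤ ∑ T ∈ Finset.powersetCard r (Finset.univ : Finset I), 2 * C₀ * (2 * X₀ + 1) ^ r := by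
          apply Finset.sum_le_sum
          intro T hT
          have hTr : T.card = r := (Finset.mem_powersetCard.mp hT).2
          apply Nat.mul_le_mul_left
          rw [← hTr, ← Finset.prod_const]
          exact Finset.prod_le_prod' fun i _ => by have := (hpX i).2; omega
      _ = 2 * C₀ * (Fintype.card I).choose r * (2 * X₀ + 1) ^ r := by
          rw [Finset.sum_const, Finset.card_powersetCard, Finset.card_univ, smul_eq_mul]
          ring

end SphereRep
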