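import Mathlib

/-!
MP_ad0b27_co, repeated distances from every point on the sphere: definitions.
-/

open NumberField

namespace SphereRep

/-- Euclidean three space. -/
abbrev E3 := EuclideanSpace ℝ (Fin 3)

open Classical in
/-- The number of points of `P` at distance exactly `α` from `p`. -/
noncomputable def deg (α : ℝ) (P : Finset E3) (p : E3) : ℕ := (P.filter (fun q => dist p q = α)).card

/-- `P` is a finite set of points of the unit sphere, and every point of `P` has at least `k`
points of `P` at distance exactly `α`. -/
def IsConf (α : ℝ) (k : ℕ) (P : Finset E3) : Prop :=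
  (∀ p ∈ P, ‖p‖ = 1) ∧ ∀ p ∈ P, k ≤ deg α P p

/-- The two dimensional representation of the quaternions attached to a ring homomorphism `ρ` to a
commutative ring `k` and an element `j` of `k` with square `-1`. -/
def psi {R k : Type*} [CommRing R] [CommRing k] (ρ : R →+* k) (j : k) (h : Quaternion R) :
    Matrix (Fin 2) (Fin 2) k :=
  !![ρ h.re + ρ h.imI * j, ρ h.imJ + ρ h.imK * j;
     -ρ h.imJ + ρ h.imK * j, ρ h.re - ρ h.imI * j]

/-- A finite family of pairwise distinct odd primes `p i` with homomorphisms from the ring of
integers of `K` to the field with `p i` elements and square roots of `-1`. -/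
structure PD (K : Type) [Field K] [NumberField K] (I : Type) where
  p : I → ℕ
  prime : ∀ i, (p i).Prime
  inj : Function.Injective p
  odd : ∀ i, 2 < p i
  ρ : ∀ i, 𝓞 K →+* ZMod (p i)
  j : ∀ i, ZMod (p i)
  hj : ∀ i, j i ^ 2 = -1

variable {K : Type} [Field K] [NumberField K] {I : Type}

/-- The product of the primes in `M`. -/
def PD.m (D : PD K I) (M : Finset I) : ℕ := ∏ i ∈ M, D.p i

/-- The reduction of a quaternion modulo the prime number `i`. -/
def PD.psi (D : PD K I) (i : I) (h : Quaternion (𝓞 K)) : Matrix (Fin 2) (Fin 2) (ZMod (D.p i)) :=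
  SphereRep.psi (D.ρ i) (D.j i) h

/-- The point of the projective line: `none` is the point at infinity. -/
def vec {k : Type*} [CommRing k] : Option k → (Fin 2 → k)
  | none => ![0, 1]
  | some t => ![1, t]

/-- All four coordinates of the quaternion have house at most `B`. -/
def HouseLe (B : ℝ) (h : Quaternion K) : Prop :=
  house h.re ≤ B ∧ house h.imI ≤ B ∧ house h.imJ ≤ B ∧ house h.imK ≤ B

/-- Extension of scalars for quaternions. -/
def qmap {R S : Type*} [CommRing R] [CommRing S] (f : R →+* S) (h : Quaternion R) : Quaternion S :=
  ⟨f h.re, f h.imI, f h.imJ, f h.imK⟩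

/-- The embedding of the integral quaternions in the rational ones. -/
noncomputable def qK (h : Quaternion (𝓞 K)) : Quaternion K := qmap (algebraMap (𝓞 K) K) h

/-- A short nonzero integral quaternion whose reduction modulo the primes of `M` kills the given
points `v i` of the projective lines. -/
structure Good (C : ℝ) (D : PD K I) (M : Finset I) (v : ∀ i, Option (ZMod (D.p i)))
    (h : Quaternion (𝓞 K)) : Prop where
  ne : h ≠ 0
  ker : ∀ i ∈ M, (D.psi i h).mulVec (vec (v i)) = 0
  bnd : HouseLe (C * (D.m M : ℝ) ^ (1 / (2 * (Module.finrank ℚ K : ℝ)))) (qK h)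

/-- The point of three space given by the imaginary part of a real quaternion. -/
noncomputable def pt (q : Quaternion ℝ) : E3 := !₂[q.imI, q.imJ, q.imK]

end SphereRep
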