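import Pool.Agent.Lib_MP_ad0b27_co.Defs

/-! MP_ad0b27_co, piece NUM1: choice of the parameters. -/

open Filter Topology

namespace SphereRep

/-- lower bound for binomial coefficients -/
theorem choose_lower (n l : ℕ) (hl : 1 ≤ l) (h : 2 * l ≤ n) :
    ((n : ℝ) / (2 * l)) ^ l ≤ (n.choose l : ℝ) := by
  have h1 := Nat.pow_le_choose (α := ℝ) l n
  refine le_trans ?_ h1
  have hl0 : (0 : ℝ) < l := by exact_mod_cast hl
  have hfac : ((l.factorial : ℕ) : ℝ) ≤ (l : ℝ) ^ l := by exact_mod_cast Nat.factorial_le_pow l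
  have hfac0 : (0 : ℝ) < (l.factorial : ℕ) := by exact_mod_cast Nat.factorial_pos l
  have hbase : (n : ℝ) / 2 ≤ ((n + 1 - l : ℕ) : ℝ) := by
    have : n ≤ 2 * (n + 1 - l) := by omega
    have h2 : (n : ℝ) ≤ 2 * ((n + 1 - l : ℕ) : ℝ) := by exact_mod_cast this
    linarith
  calc ((n : ℝ) / (2 * l)) ^ l = ((n : ℝ) / 2) ^ l / (l : ℝ) ^ l := by
        rw [← div_pow, div_div]
    _ ≤ ((n + 1 - l : ℕ) : ℝ) ^ l / (l : ℝ) ^ l := by
        gcongr
    _ ≤ ((n + 1 - l : ℕ) : ℝ) ^ l / ((l.factorial : ℕ) : ℝ) := by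
        gcongr

theorem num_params (C₀ : ℕ) (δ : ℝ) (hδ : 0 < δ) (hδ1 : δ < 1 / 8) :
    ∀ᶠ X : ℕ in atTop, ∀ s : ℕ, (X : ℝ) ^ (1 - δ) ≤ s → s ≤ X →
      ∃ r l k : ℕ, l ≤ r ∧ r + l ≤ s ∧
        Real.exp ((X : ℝ) ^ (1 / 2 - 2 * δ)) ≤ k ∧
        4 * k * C₀ * (2 * X + 1) ^ l * (X + 1) ^ r ≤
          r.choose l * (s - r).choose l * (X - 2) ^ r ∧
        Real.log ((2 * C₀ * s.choose r * (2 * X + 1) ^ r : ℕ) : ℝ) ≤ (X : ℝ) ^ (1 + δ) := by
  have hcast : Tendsto (fun X : ℕ => (X : ℝ)) atTop atTop := tendsto_natCast_atTop_atTop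
  have ht : ∀ y : ℝ, 0 < y → Tendsto (fun X : ℕ => (X : ℝ) ^ y) atTop atTop :=
    fun y hy => (tendsto_rpow_atTop hy).comp hcast
  have e1 : ∀ᶠ X : ℕ in atTop, (6 : ℝ) ≤ (X : ℝ) ^ (1 - δ) :=
    (ht (1 - δ) (by linarith)).eventually_ge_atTop 6
  have e2 : ∀ᶠ X : ℕ in atTop, (1 : ℝ) ≤ (X : ℝ) ^ (1 / 2 - 2 * δ) :=
    (ht (1 / 2 - 2 * δ) (by linarith)).eventually_ge_atTop 1
  have e3 : ∀ᶠ X : ℕ in atTop, (12 : ℝ) ≤ (X : ℝ) ^ (1 / 2 + δ) :=
    (ht (1 / 2 + δ) (by linarith)).eventually_ge_atTop 12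
  have e5 : ∀ᶠ X : ℕ in atTop, 1296 * (4 * C₀ * Real.exp 2 + 1) ≤ (X : ℝ) ^ (2 * δ) :=
    (ht (2 * δ) (by linarith)).eventually_ge_atTop _
  have e6 : ∀ᶠ X : ℕ in atTop, Real.log (2 * C₀ + 1) + (X : ℝ) * Real.log 2 +
      (X : ℝ) / 2 * Real.log (2 * X + 1) ≤ (X : ℝ) ^ (1 + δ) := by
    have a1 : ∀ᶠ X : ℕ in atTop, Real.log (2 * C₀ + 1) + Real.log 2 + 1 ≤ (X : ℝ) ^ (δ / 2) :=
      (ht (δ / 2) (by linarith)).eventually_ge_atTop _
    have a2 : ∀ᶠ X : ℕ in atTop, Real.log (3 * X) ≤ (X : ℝ) ^ (δ / 2) := by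
      have hlo := isLittleO_log_rpow_atTop (show (0 : ℝ) < δ / 4 by linarith)
      have h1 : ∀ᶠ x : ℝ in atTop, ‖Real.log x‖ ≤ 1 * ‖x ^ (δ / 4)‖ := hlo.bound one_pos
      have h2 : ∀ᶠ X : ℕ in atTop, ‖Real.log ((X : ℝ))‖ ≤ 1 * ‖(X : ℝ) ^ (δ / 4)‖ :=
        hcast.eventually h1
      have h3 : ∀ᶠ X : ℕ in atTop, 1 + Real.log 3 ≤ (X : ℝ) ^ (δ / 4) :=
        (ht (δ / 4) (by linarith)).eventually_ge_atTop _
      filter_upwards [h2, h3, eventually_ge_atTop 1] with X h4 h5 h6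
      have hX : (1 : ℝ) ≤ X := by exact_mod_cast h6
      have hX0 : (0 : ℝ) < X := by linarith
      have hp0 : 0 ≤ (X : ℝ) ^ (δ / 4) := Real.rpow_nonneg hX0.le _
      rw [Real.norm_of_nonneg (Real.log_nonneg hX), Real.norm_of_nonneg hp0, one_mul] at h4
      rw [Real.log_mul (by norm_num) hX0.ne']
      have h7 : (X : ℝ) ^ (δ / 2) = (X : ℝ) ^ (δ / 4) * (X : ℝ) ^ (δ / 4) := by
        rw [← Real.rpow_add hX0]; congr 1; ring
      rw [h7]
      have hl3 : 0 ≤ Real.log 3 := Real.log_nonneg (by norm_num)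
      nlinarith
    filter_upwards [a1, a2, eventually_ge_atTop 1] with X h1 h2 h3
    have hX : (1 : ℝ) ≤ X := by exact_mod_cast h3
    have hX0 : (0 : ℝ) < X := by linarith
    have h4 : (X : ℝ) ^ (1 + δ) = X * ((X : ℝ) ^ (δ / 2) * (X : ℝ) ^ (δ / 2)) := by
      rw [← Real.rpow_add hX0]
      nth_rewrite 2 [← Real.rpow_one (X : ℝ)]
      rw [← Real.rpow_add hX0]; congr 1; ring
    have h5 : Real.log (2 * X + 1) ≤ Real.log (3 * X) :=
      Real.log_le_log (by linarith) (by linarith)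
    have h6 : (1 : ℝ) ≤ (X : ℝ) ^ (δ / 2) := Real.one_le_rpow hX (by linarith)
    rw [h4]
    have hc0 : 0 ≤ Real.log (2 * C₀ + 1) := Real.log_nonneg (by
      have : (0 : ℝ) ≤ C₀ := Nat.cast_nonneg _
      linarith)
    have hl2 : 0 ≤ Real.log 2 := Real.log_nonneg (by norm_num)
    set u := (X : ℝ) ^ (δ / 2) with hu
    have h7 : Real.log (2 * X + 1) ≤ u := h5.trans h2
    have h8 : Real.log (2 * C₀ + 1) + (X : ℝ) * Real.log 2 + (X : ℝ) / 2 * Real.log (2 * X + 1) ≤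
        X * (Real.log (2 * C₀ + 1) + Real.log 2 + u / 2) := by
      have : Real.log (2 * C₀ + 1) ≤ X * Real.log (2 * C₀ + 1) := by nlinarith
      nlinarith
    refine h8.trans ?_
    gcongr
    nlinarith
  filter_upwards [e1, e2, e3, e5, e6, eventually_ge_atTop 10] with X h1 h2 h3 h5 h6 h10 s hs1 hs2
  have hX10 : (10 : ℝ) ≤ X := by exact_mod_cast h10
  have hX0 : (0 : ℝ) < X := by linarith
  set a := (X : ℝ) ^ (1 / 2 - 2 * δ) with ha
  set l := ⌈a⌉₊ with hldef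
  set r := s / 2 with hrdef
  have hla : a ≤ l := Nat.le_ceil a
  have hla2 : (l : ℝ) ≤ 2 * a := by
    have := Nat.ceil_lt_add_one (show 0 ≤ a by linarith)
    linarith
  have hl1 : 1 ≤ l := by
    have : (1 : ℝ) ≤ l := h2.trans hla
    exact_mod_cast this
  have hs6 : 6 ≤ s := by
    have : (6 : ℝ) ≤ s := h1.trans hs1
    exact_mod_cast this
  have hr3 : s ≤ 3 * r := by omega
  have hrs : 2 * r ≤ s := by omega
  have hr3' : (s : ℝ) ≤ 3 * r := by exact_mod_cast hr3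
  have hprod : (X : ℝ) ^ (1 - δ) = a * (X : ℝ) ^ (1 / 2 + δ) := by
    rw [ha, ← Real.rpow_add hX0]; congr 1; ring
  have ha0 : 0 < a := by linarith
  have h4a : 4 * a ≤ r := by
    have : 12 * a ≤ (X : ℝ) ^ (1 - δ) := by rw [hprod]; nlinarith
    linarith
  have h2l : 2 * l ≤ r := by
    have : (2 : ℝ) * l ≤ r := by linarith
    exact_mod_cast this
  have hlr : l ≤ r := by omega
  refine ⟨r, l, 3 ^ l, hlr, by omega, ?_, ?_, ?_⟩
  · -- exponential
    have : Real.exp a ≤ Real.exp l := Real.exp_le_exp.2 hla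
    refine this.trans ?_
    have h3e : Real.exp 1 ≤ 3 := by
      have := Real.exp_one_lt_d9
      linarith
    calc Real.exp l = (Real.exp 1) ^ l := by rw [← Real.exp_nat_mul, mul_one]
      _ ≤ 3 ^ l := by gcongr
      _ = ((3 ^ l : ℕ) : ℝ) := by push_cast; rfl
  · -- the main inequality
    have hl0 : (0 : ℝ) < l := by exact_mod_cast hl1
    have hc1 := choose_lower r l hl1 h2l
    have hc2 : ((r : ℝ) / (2 * l)) ^ l ≤ ((s - r).choose l : ℝ) := by
      refine hc1.trans ?_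
      exact_mod_cast Nat.choose_le_choose l (by omega : r ≤ s - r)
    have hXr : (X : ℝ) ^ (1 - δ) ≤ 3 * r := hs1.trans hr3'
    have hrl : (X : ℝ) ^ (1 / 2 + δ) / 12 ≤ (r : ℝ) / (2 * l) := by
      rw [div_le_div_iff₀ (by norm_num) (by positivity)]
      have hp : 0 ≤ (X : ℝ) ^ (1 / 2 + δ) := Real.rpow_nonneg hX0.le _
      calc (X : ℝ) ^ (1 / 2 + δ) * (2 * l) ≤ (X : ℝ) ^ (1 / 2 + δ) * (2 * (2 * a)) := by gcongr
        _ = 4 * (a * (X : ℝ) ^ (1 / 2 + δ)) := by ring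
        _ = 4 * (X : ℝ) ^ (1 - δ) := by rw [hprod]
        _ ≤ r * 12 := by linarith
    have hsq : (X : ℝ) ^ (1 / 2 + δ) / 12 * ((X : ℝ) ^ (1 / 2 + δ) / 12) =
        X * (X : ℝ) ^ (2 * δ) / 144 := by
      have : (X : ℝ) ^ (1 / 2 + δ) * (X : ℝ) ^ (1 / 2 + δ) = X * (X : ℝ) ^ (2 * δ) := by
        rw [← Real.rpow_add hX0]
        nth_rewrite 2 [← Real.rpow_one (X : ℝ)]
        rw [← Real.rpow_add hX0]; congr 1; ring
      rw [div_mul_div_comm, this]; norm_num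
    have hbin : (9 * X * (4 * C₀ * Real.exp 2 + 1)) ^ l ≤
        (r.choose l : ℝ) * ((s - r).choose l : ℝ) := by
      calc (9 * X * (4 * C₀ * Real.exp 2 + 1)) ^ l
          ≤ (X * (X : ℝ) ^ (2 * δ) / 144) ^ l := by
            have he2 : 0 < Real.exp 2 := Real.exp_pos 2
            gcongr
            nlinarith
        _ = ((X : ℝ) ^ (1 / 2 + δ) / 12) ^ l * ((X : ℝ) ^ (1 / 2 + δ) / 12) ^ l := by
            rw [← mul_pow, hsq]
        _ ≤ ((r : ℝ) / (2 * l)) ^ l * ((r : ℝ) / (2 * l)) ^ l := by gcongr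
        _ ≤ _ := by gcongr
    have hX2 : ((X - 2 : ℕ) : ℝ) = (X : ℝ) - 2 := by
      rw [Nat.cast_sub (by omega)]; norm_num
    have hrX : (r : ℝ) ≤ X / 2 := by
      have : 2 * r ≤ X := by omega
      have h' : (2 : ℝ) * r ≤ X := by exact_mod_cast this
      linarith
    have hexp : ((X : ℝ) + 1) ^ r ≤ Real.exp 2 * ((X : ℝ) - 2) ^ r := by
      have hb : (X : ℝ) + 1 ≤ Real.exp (3 / ((X : ℝ) - 2)) * ((X : ℝ) - 2) := by
        have h' := Real.add_one_le_exp (3 / ((X : ℝ) - 2))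
        have hpos : (0 : ℝ) < (X : ℝ) - 2 := by linarith
        calc (X : ℝ) + 1 = (3 / ((X : ℝ) - 2) + 1) * ((X : ℝ) - 2) := by
              field_simp; ring
          _ ≤ _ := by gcongr
      calc ((X : ℝ) + 1) ^ r ≤ (Real.exp (3 / ((X : ℝ) - 2)) * ((X : ℝ) - 2)) ^ r := by gcongr
        _ = Real.exp (r * (3 / ((X : ℝ) - 2))) * ((X : ℝ) - 2) ^ r := by
            rw [mul_pow, ← Real.exp_nat_mul]
        _ ≤ Real.exp 2 * ((X : ℝ) - 2) ^ r := by
            have hpos : (0 : ℝ) < (X : ℝ) - 2 := by linarith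
            gcongr
            rw [mul_div_assoc', div_le_iff₀ hpos]
            linarith
    have hgoal : ((4 * 3 ^ l * C₀ * (2 * X + 1) ^ l * (X + 1) ^ r : ℕ) : ℝ) ≤
        ((r.choose l * (s - r).choose l * (X - 2) ^ r : ℕ) : ℝ) := by
      push_cast
      rw [hX2]
      have hpos : (0 : ℝ) ≤ ((X : ℝ) - 2) ^ r := pow_nonneg (by linarith) _
      have he2 : 0 < Real.exp 2 := Real.exp_pos 2
      have hC : (0 : ℝ) ≤ C₀ := Nat.cast_nonneg _
      have hone : (4 * C₀ * Real.exp 2) ≤ (4 * C₀ * Real.exp 2 + 1) ^ l := by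
        calc (4 * C₀ * Real.exp 2) ≤ (4 * C₀ * Real.exp 2 + 1) ^ 1 := by rw [pow_one]; linarith
          _ ≤ _ := by
            refine pow_le_pow_right₀ ?_ hl1
            have : 0 ≤ 4 * C₀ * Real.exp 2 := by positivity
            linarith
      have h9 : (3 * (2 * (X : ℝ) + 1)) ^ l ≤ (9 * (X : ℝ)) ^ l :=
        pow_le_pow_left₀ (by positivity) (by linarith) l
      calc (4 : ℝ) * 3 ^ l * C₀ * (2 * X + 1) ^ l * (X + 1) ^ r
          ≤ 4 * 3 ^ l * C₀ * (2 * X + 1) ^ l * (Real.exp 2 * ((X : ℝ) - 2) ^ r) := by gcongr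
        _ = (4 * C₀ * Real.exp 2) * (3 * (2 * X + 1)) ^ l * ((X : ℝ) - 2) ^ r := by
            rw [mul_pow]; ring
        _ ≤ (4 * C₀ * Real.exp 2 + 1) ^ l * (9 * X) ^ l * ((X : ℝ) - 2) ^ r := by
            gcongr
        _ = (9 * X * (4 * C₀ * Real.exp 2 + 1)) ^ l * ((X : ℝ) - 2) ^ r := by
            rw [← mul_pow]; ring
        _ ≤ _ := by gcongr
    exact_mod_cast hgoal
  · -- logarithm
    refine le_trans ?_ h6
    have hch : (s.choose r : ℝ) ≤ 2 ^ X := by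
      have h' : s.choose r ≤ 2 ^ s := Nat.choose_le_two_pow s r
      have h'' : (2 : ℕ) ^ s ≤ 2 ^ X := Nat.pow_le_pow_right (by norm_num) hs2
      exact_mod_cast h'.trans h''
    have hrX : (r : ℝ) ≤ X / 2 := by
      have : 2 * r ≤ X := by omega
      have h' : (2 : ℝ) * r ≤ X := by exact_mod_cast this
      linarith
    rcases Nat.eq_zero_or_pos C₀ with hC | hC
    · subst hC
      simp only [mul_zero, zero_mul, Nat.cast_zero, Real.log_zero, zero_add, Real.log_one]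
      have hl2 : 0 ≤ Real.log 2 := Real.log_nonneg (by norm_num)
      have hl3 : 0 ≤ Real.log (2 * X + 1) := Real.log_nonneg (by linarith)
      positivity
    · have hC' : (0 : ℝ) < C₀ := by exact_mod_cast hC
      push_cast
      have hchpos : (0 : ℝ) < (s.choose r : ℝ) := by
        exact_mod_cast Nat.choose_pos (by omega : r ≤ s)
      rw [Real.log_mul (by positivity) (by positivity), Real.log_mul (by positivity)
        (by positivity), Real.log_pow]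
      have t1 : Real.log (2 * C₀) ≤ Real.log (2 * C₀ + 1) :=
        Real.log_le_log (by positivity) (by linarith)
      have t2 : Real.log (s.choose r : ℝ) ≤ X * Real.log 2 := by
        calc Real.log (s.choose r : ℝ) ≤ Real.log (2 ^ X) := Real.log_le_log hchpos hch
          _ = X * Real.log 2 := by rw [Real.log_pow]
      have hl3 : 0 ≤ Real.log (2 * X + 1) := Real.log_nonneg (by linarith)
      have t3 : (r : ℝ) * Real.log (2 * X + 1) ≤ (X : ℝ) / 2 * Real.log (2 * X + 1) := by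
        gcongr
      linarith

end SphereRep
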