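import Pool.Agent.Lib_MP_ad0b27_co.Defs

/-!
MP_ad0b27_co, piece PAD: padding of configurations.
-/

open scoped RealInnerProductSpace

namespace SphereRep

/-- The moment curve. -/
noncomputable def mom (s : ℝ) : E3 := !₂[1, s, s ^ 2]

theorem mom_zero (s : ℝ) : mom s 0 = 1 := rfl
theorem mom_one (s : ℝ) : mom s 1 = s := rfl
theorem mom_two (s : ℝ) : mom s 2 = s ^ 2 := rfl

/-- The half turn about the axis `mom s`. -/
noncomputable def turn (s : ℝ) : E3 ≃ₗᵢ[ℝ] E3 := (ℝ ∙ mom s).reflection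

theorem turn_apply (s : ℝ) (p : E3) :
    turn s p = 2 • (⟪mom s, p⟫ / ‖mom s‖ ^ 2) • mom s - p := by
  unfold turn
  rw [Submodule.reflection_singleton_apply]
  simp

theorem finite_quad (a b c : ℝ) (h : ¬ (a = 0 ∧ b = 0 ∧ c = 0)) :
    {s : ℝ | a + b * s + c * s ^ 2 = 0}.Finite := by
  let P : Polynomial ℝ := Polynomial.C a + Polynomial.C b * Polynomial.X +
    Polynomial.C c * Polynomial.X ^ 2
  have hP : P ≠ 0 := by
    intro h0
    apply h
    have h0' := congrArg (fun Q => Polynomial.coeff Q 0) h0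
    have h1' := congrArg (fun Q => Polynomial.coeff Q 1) h0
    have h2' := congrArg (fun Q => Polynomial.coeff Q 2) h0
    simp [P, Polynomial.coeff_X, Polynomial.coeff_C] at h0' h1' h2'
    exact ⟨h0', h1', h2'⟩
  refine (Polynomial.finite_setOfPred_isRoot hP).subset ?_
  intro s hs
  simp only [Set.mem_ofPred_eq] at hs ⊢
  simp only [Polynomial.IsRoot, P, Polynomial.eval_add, Polynomial.eval_mul, Polynomial.eval_C,
    Polynomial.eval_X, Polynomial.eval_pow]
  linarith

theorem finite_bad (p q : E3) (hp : p ≠ 0) : {s : ℝ | turn s p = q}.Finite := by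
  by_cases hpq : p + q = 0
  · -- then `⟪mom s, p⟫ = 0`
    refine (finite_quad (p 0) (p 1) (p 2) ?_).subset ?_
    · rintro ⟨h0, h1, h2⟩
      apply hp
      ext i
      fin_cases i
      · exact h0
      · exact h1
      · exact h2
    · intro s hs
      simp only [Set.mem_ofPred_eq] at hs ⊢
      rw [turn_apply] at hs
      have h1 : (2 : ℕ) • (⟪mom s, p⟫ / ‖mom s‖ ^ 2) • mom s = 0 := by
        have : (2 : ℕ) • (⟪mom s, p⟫ / ‖mom s‖ ^ 2) • mom s = p + q := by
          rw [← hs]; abel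
        rw [this, hpq]
      have h2 := congrArg (fun v : E3 => v 0) h1
      simp only [PiLp.smul_apply, PiLp.zero_apply, mom_zero] at h2
      have h3 : ⟪mom s, p⟫ / ‖mom s‖ ^ 2 = 0 := by
        simp only [nsmul_eq_mul, smul_eq_mul, mul_one] at h2
        have : ((2 : ℕ) : ℝ) ≠ 0 := by norm_num
        exact (mul_eq_zero.1 h2).resolve_left this
      have h4 : mom s ≠ 0 := by
        intro h
        have := congrArg (fun v : E3 => v 0) h
        simp [mom_zero] at this
      have h5 : ⟪mom s, p⟫ = 0 := by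
        rcases div_eq_zero_iff.1 h3 with h | h
        · exact h
        · exact absurd h (by positivity)
      rw [PiLp.inner_apply] at h5
      simp only [Fin.sum_univ_three, mom_zero, mom_one, mom_two, RCLike.inner_apply, conj_trivial]
        at h5
      linarith
  · -- then `mom s` is parallel to `p + q`
    refine Set.Finite.subset (Set.finite_singleton ((p + q) 1 / (p + q) 0)) ?_
    intro s hs
    simp only [Set.mem_ofPred_eq, Set.mem_singleton_iff] at hs ⊢
    rw [turn_apply] at hs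
    set c := ⟪mom s, p⟫ / ‖mom s‖ ^ 2 with hc
    have h1 : (2 : ℕ) • c • mom s = p + q := by rw [← hs]; abel
    have h0 := congrArg (fun v : E3 => v 0) h1
    have h2 := congrArg (fun v : E3 => v 1) h1
    simp only [PiLp.smul_apply, mom_zero, mom_one, nsmul_eq_mul, smul_eq_mul] at h0 h2
    have hc0 : c ≠ 0 := by
      intro h
      apply hpq
      rw [← h1, h]
      simp
    rw [← h0, ← h2]
    push_cast
    field_simp

/-- A finite set on the sphere can be moved away from a given finite set. -/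
theorem exists_turn (P Q : Finset E3) (hP : ∀ p ∈ P, ‖p‖ = 1) :
    ∃ s : ℝ, ∀ p ∈ P, turn s p ∉ Q := by
  have hfin : (⋃ p ∈ P, ⋃ q ∈ Q, {s : ℝ | turn s p = q}).Finite := by
    refine Set.Finite.biUnion P.finite_toSet fun p hp => ?_
    refine Set.Finite.biUnion Q.finite_toSet fun q _ => ?_
    refine finite_bad p q ?_
    intro h
    have := hP p hp
    rw [h, norm_zero] at this
    norm_num at this
  obtain ⟨s, hs⟩ := hfin.exists_notMem
  refine ⟨s, fun p hp hq => hs ?_⟩
  simp only [Set.mem_iUnion]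
  exact ⟨p, hp, turn s p, hq, rfl⟩

theorem deg_mono {α : ℝ} {P Q : Finset E3} (h : P ⊆ Q) (p : E3) : deg α P p ≤ deg α Q p := by
  classical
  unfold deg
  exact Finset.card_le_card (Finset.filter_subset_filter _ h)

theorem IsConf.union [DecidableEq E3] {α : ℝ} {k : ℕ} {P Q : Finset E3} (hP : IsConf α k P)
    (hQ : IsConf α k Q) : IsConf α k (P ∪ Q) := by
  refine ⟨fun p hp => ?_, fun p hp => ?_⟩
  · rcases Finset.mem_union.1 hp with h | h
    · exact hP.1 p h
    · exact hQ.1 p h
  · rcases Finset.mem_union.1 hp with h | h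
    · exact (hP.2 p h).trans (deg_mono Finset.subset_union_left p)
    · exact (hQ.2 p h).trans (deg_mono Finset.subset_union_right p)

theorem IsConf.map {α : ℝ} {k : ℕ} {P : Finset E3} (hP : IsConf α k P) (R : E3 ≃ₗᵢ[ℝ] E3) :
    IsConf α k (P.map R.toEquiv.toEmbedding) := by
  classical
  refine ⟨fun p hp => ?_, fun p hp => ?_⟩
  · obtain ⟨q, hq, rfl⟩ := Finset.mem_map.1 hp
    change ‖R q‖ = 1
    rw [R.norm_map]
    exact hP.1 q hq
  · obtain ⟨q, hq, rfl⟩ := Finset.mem_map.1 hp
    refine (hP.2 q hq).trans ?_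
    unfold deg
    rw [Finset.filter_map, Finset.card_map]
    refine Finset.card_le_card ?_
    intro x hx
    rw [Finset.mem_filter] at hx ⊢
    refine ⟨hx.1, ?_⟩
    change dist (R q) (R x) = α
    rw [R.dist_map]
    exact hx.2

theorem IsConf.erase [DecidableEq E3] {α : ℝ} {k : ℕ} {P : Finset E3} (hP : IsConf α (k + 1) P)
    (p₀ : E3) : IsConf α k (P.erase p₀) := by
  refine ⟨fun p hp => hP.1 p (Finset.mem_of_mem_erase hp), fun p hp => ?_⟩
  have h1 := hP.2 p (Finset.mem_of_mem_erase hp)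
  unfold deg at h1 ⊢
  set F : Finset E3 := @Finset.filter _ (fun q => dist p q = α)
    (fun a => Classical.propDecidable _) P with hF
  have h2 : F.card - 1 ≤ (F.erase p₀).card := Finset.pred_card_le_card_erase
  have h3 : F.erase p₀ ⊆ @Finset.filter _ (fun q => dist p q = α)
      (fun a => Classical.propDecidable _) (P.erase p₀) := by
    intro x hx
    rw [Finset.mem_erase, hF, Finset.mem_filter] at hx
    rw [Finset.mem_filter, Finset.mem_erase]
    exact ⟨⟨hx.1, hx.2.1⟩, hx.2.2⟩
  have h4 := Finset.card_le_card h3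
  omega

theorem IsConf.weaken {α : ℝ} {k : ℕ} {P : Finset E3} (hP : IsConf α (k + 1) P) :
    IsConf α k P := ⟨hP.1, fun p hp => (Nat.le_succ k).trans (hP.2 p hp)⟩

/-- Adding a disjoint copy. -/
theorem conf_add {α : ℝ} {k : ℕ} {P Q : Finset E3} (hP : IsConf α k P) (hQ : IsConf α k Q) :
    ∃ W : Finset E3, W.card = Q.card + P.card ∧ IsConf α k W := by
  classical
  obtain ⟨s, hs⟩ := exists_turn P Q hP.1
  refine ⟨Q ∪ P.map (turn s).toEquiv.toEmbedding, ?_, hQ.union (hP.map _)⟩
  rw [Finset.card_union_of_disjoint, Finset.card_map]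
  rw [Finset.disjoint_left]
  intro x hx hx'
  obtain ⟨p, hp, rfl⟩ := Finset.mem_map.1 hx'
  exact hs p hp hx

theorem conf_copies {α : ℝ} {k : ℕ} {P Q : Finset E3} (hP : IsConf α k P) (hQ : IsConf α k Q)
    (a : ℕ) : ∃ W : Finset E3, W.card = Q.card + a * P.card ∧ IsConf α k W := by
  induction a with
  | zero => exact ⟨Q, by simp, hQ⟩
  | succ a ih =>
    obtain ⟨W, hW, hW'⟩ := ih
    obtain ⟨W', h1, h2⟩ := conf_add hP hW'
    exact ⟨W', by rw [h1, hW]; ring, h2⟩

theorem conf_pad (α : ℝ) (hα : 0 < α) (k : ℕ) (P : Finset E3) (hP : P.Nonempty)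
    (h : IsConf α (k + 1) P) (n : ℕ) (hn : P.card ^ 2 ≤ n) :
    ∃ Q : Finset E3, Q.card = n ∧ IsConf α k Q := by
  classical
  obtain ⟨p₀, hp₀⟩ := hP
  set c := P.card with hc
  have hc0 : 0 < c := Finset.card_pos.2 ⟨p₀, hp₀⟩
  have hempty : IsConf α k (∅ : Finset E3) := ⟨by simp, by simp⟩
  -- `n = a c + b (c - 1)`
  obtain ⟨a, b, hab⟩ : ∃ a b : ℕ, n = a * c + b * (c - 1) := by
    obtain ⟨b, d, hb, hd⟩ : ∃ b d : ℕ, b < c ∧ n + b = d * c := by
      rcases Nat.eq_zero_or_pos (n % c) with h0 | h0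
      · refine ⟨0, n / c, hc0, ?_⟩
        have := Nat.div_add_mod n c
        rw [h0] at this
        rw [add_zero, mul_comm]
        omega
      · refine ⟨c - n % c, n / c + 1, by omega, ?_⟩
        have := Nat.div_add_mod n c
        have h2 := Nat.mod_lt n hc0
        rw [add_mul, one_mul, mul_comm (n / c) c]
        omega
    have hbd : b ≤ d := by
      by_contra hlt
      rw [not_le] at hlt
      have h3 : d * c < c * c := by
        apply Nat.mul_lt_mul_of_pos_right (hlt.trans hb) hc0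
      have h4 : c ^ 2 = c * c := sq c
      omega
    refine ⟨d - b, b, ?_⟩
    obtain ⟨e, rfl⟩ := Nat.exists_eq_add_of_le hbd
    obtain ⟨c', hc'⟩ : ∃ c', c = c' + 1 := ⟨c - 1, by omega⟩
    rw [hc'] at hd ⊢
    simp only [Nat.add_sub_cancel, Nat.add_sub_cancel_left]
    nlinarith [hd]
  obtain ⟨W, hW, hW'⟩ := conf_copies (h.erase p₀) hempty b
  obtain ⟨Q, hQ, hQ'⟩ := conf_copies h.weaken hW' a
  refine ⟨Q, ?_, hQ'⟩
  rw [hQ, hW, Finset.card_erase_of_mem hp₀, ← hc, hab]
  simp
  ring

end SphereRep
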