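import Pool.Agent.Lib_MP_ad0b27_co.PrimesDefs

/-!
# Piece PR1: density of ideals
-/

open NumberField Filter Topology
open scoped nonZeroDivisors

namespace SphereRep

section Primes
variable (L : Type) [Field L] [NumberField L]

/-- PIECE PR1 (PrimesA.lean) -/
theorem AL_tendsto : ∃ κ : ℝ, 0 < κ ∧ Tendsto (fun n : ℕ => (AL L n : ℝ) / n) atTop (𝓝 κ) := by
  refine ⟨dedekindZeta_residue L, dedekindZeta_residue_pos L, ?_⟩
  refine ((Ideal.tendsto_norm_le_div_atTop₀ L).comp tendsto_natCast_atTop_atTop).congr fun n ↦ ?_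
  simp only [Function.comp_apply, Nat.cast_le]
  congr 2
  unfold AL aL
  rw [← add_left_inj 1, ← Ideal.card_norm_le_eq_card_norm_le_add_one,
    show Finset.Icc 1 n = Finset.Ioc 0 n from Finset.Icc_succ_left_eq_Ioc _ _,
    show 1 = Nat.card {I : Ideal (𝓞 L) // Ideal.absNorm I = 0} by simp [Ideal.absNorm_eq_zero_iff],
    Finset.sum_Ioc_add_eq_sum_Icc (n.zero_le),
    ← Finset.card_preimage_eq_sum_card_image_eq (fun k _ ↦ Ideal.finite_setOfPred_absNorm_eq k)]
  simp [Set.coe_eq_subtype]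

end Primes

end SphereRep
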