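import Pool.Agent.Lib_MP_ad0b27_co.PrimesDefs

/-!
MP_ad0b27_co, piece PR2: the logarithm identity.
-/

open NumberField Filter Topology UniqueFactorizationMonoid
open scoped nonZeroDivisors

namespace SphereRep

section Primes
variable (L : Type) [Field L] [NumberField L]

open Classical in
/-- The nonzero ideals of norm at most `n`. -/
noncomputable def SL (n : ℕ) : Finset (Ideal (𝓞 L)) :=
  ((Ideal.finite_setOfPred_absNorm_le (S := 𝓞 L) n).toFinset).filter (fun I => I ≠ ⊥)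

open Classical in
/-- The pairs of a prime and an exponent with norm of the power at most `n`. -/
noncomputable def QL (n : ℕ) : Finset (Ideal (𝓞 L) × ℕ) :=
  (((SL L n).filter (fun I => I.IsPrime)) ×ˢ (Finset.Icc 1 n)).filter
    (fun q => Ideal.absNorm q.1 ^ q.2 ≤ n)

theorem mem_SL {n : ℕ} {I : Ideal (𝓞 L)} : I ∈ SL L n ↔ I ≠ ⊥ ∧ Ideal.absNorm I ≤ n := by
  classical
  unfold SL
  rw [Finset.mem_filter, Set.Finite.mem_toFinset]
  exact and_comm

theorem absNorm_pos_of_ne {I : Ideal (𝓞 L)} (h : I ≠ ⊥) : 1 ≤ Ideal.absNorm I :=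
  Nat.pos_of_ne_zero (fun h0 => h (Ideal.absNorm_eq_zero_iff.1 h0))

theorem two_le_absNorm {P : Ideal (𝓞 L)} (hP : P.IsPrime) (h : P ≠ ⊥) : 2 ≤ Ideal.absNorm P := by
  have h1 := absNorm_pos_of_ne L h
  have h2 : Ideal.absNorm P ≠ 1 := by
    rw [Ne, Ideal.absNorm_eq_one_iff]
    exact hP.ne_top
  omega

theorem mem_QL {n : ℕ} {q : Ideal (𝓞 L) × ℕ} :
    q ∈ QL L n ↔ q.1.IsPrime ∧ q.1 ≠ ⊥ ∧ 1 ≤ q.2 ∧ Ideal.absNorm q.1 ^ q.2 ≤ n := by
  classical
  unfold QL
  rw [Finset.mem_filter, Finset.mem_product, Finset.mem_filter, mem_SL, Finset.mem_Icc]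
  constructor
  · rintro ⟨⟨⟨⟨h1, h2⟩, h3⟩, h4, h5⟩, h6⟩
    exact ⟨h3, h1, h4, h6⟩
  · rintro ⟨h3, h1, h4, h6⟩
    have h7 := two_le_absNorm L h3 h1
    refine ⟨⟨⟨⟨h1, ?_⟩, h3⟩, h4, ?_⟩, h6⟩
    · calc Ideal.absNorm q.1 = Ideal.absNorm q.1 ^ 1 := (pow_one _).symm
        _ ≤ Ideal.absNorm q.1 ^ q.2 := Nat.pow_le_pow_right (by omega) h4
        _ ≤ n := h6
    · calc q.2 ≤ 2 ^ q.2 := Nat.lt_two_pow_self.le
        _ ≤ Ideal.absNorm q.1 ^ q.2 := Nat.pow_le_pow_left h7 _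
        _ ≤ n := h6

open Classical in
theorem aL_eq_card (n m : ℕ) (h1 : 1 ≤ m) (h2 : m ≤ n) :
    aL L m = ((SL L n).filter (fun I => Ideal.absNorm I = m)).card := by
  unfold aL
  refine Nat.subtype_card _ ?_
  intro I
  rw [Finset.mem_filter, mem_SL]
  constructor
  · rintro ⟨_, h⟩
    exact h
  · intro h
    refine ⟨⟨?_, by omega⟩, h⟩
    rintro rfl
    rw [Ideal.absNorm_bot] at h
    omega

theorem AL_eq_card (n : ℕ) : AL L n = (SL L n).card := by
  classical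
  unfold AL
  rw [Finset.card_eq_sum_card_fiberwise (f := fun I => Ideal.absNorm I) (t := Finset.Icc 1 n)]
  · refine Finset.sum_congr rfl fun m hm => ?_
    rw [Finset.mem_Icc] at hm
    exact aL_eq_card L n m hm.1 hm.2
  · intro I hI
    have hI' := (mem_SL L).1 hI
    exact Finset.mem_coe.2 (Finset.mem_Icc.2 ⟨absNorm_pos_of_ne L hI'.1, hI'.2⟩)

open Classical in
theorem LamL_eq_sum (n m : ℕ) (h2 : m ≤ n) :
    LamL L m = ∑ q ∈ (QL L n).filter (fun q => Ideal.absNorm q.1 ^ q.2 = m),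
      Real.log (Ideal.absNorm q.1) := by
  unfold LamL
  have h : (∑ᶠ q : {q : Ideal (𝓞 L) × ℕ // q.1.IsPrime ∧ q.1 ≠ ⊥ ∧ 1 ≤ q.2 ∧
      Ideal.absNorm q.1 ^ q.2 = m}, Real.log (Ideal.absNorm q.1.1)) =
      ∑ᶠ (q : Ideal (𝓞 L) × ℕ) (_ : q.1.IsPrime ∧ q.1 ≠ ⊥ ∧ 1 ≤ q.2 ∧
        Ideal.absNorm q.1 ^ q.2 = m), Real.log (Ideal.absNorm q.1) :=
    finsum_subtype_eq_finsum_cond (f := fun q : Ideal (𝓞 L) × ℕ => Real.log (Ideal.absNorm q.1)) _
  rw [h]
  refine finsum_cond_eq_sum_of_cond_iff _ ?_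
  intro q _
  rw [Finset.mem_filter, mem_QL]
  constructor
  · rintro ⟨h1, h2', h3, h4⟩
    exact ⟨⟨h1, h2', h3, by omega⟩, h4⟩
  · rintro ⟨⟨h1, h2', h3, _⟩, h4⟩
    exact ⟨h1, h2', h3, h4⟩

open Classical in
theorem pow_dvd_iff_le_count {P I : Ideal (𝓞 L)} (hP : P.IsPrime) (hP0 : P ≠ ⊥) (hI : I ≠ ⊥)
    (k : ℕ) : P ^ k ∣ I ↔ k ≤ (normalizedFactors I).count P := by
  have hirr : Irreducible P := (Ideal.prime_of_isPrime hP0 hP).irreducible
  rw [pow_dvd_iff_le_emultiplicity, emultiplicity_eq_count_normalizedFactors hirr hI,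
    normalize_eq]
  exact Nat.cast_le

open Classical in
theorem log_absNorm (n : ℕ) (I : Ideal (𝓞 L)) (hI : I ∈ SL L n) :
    Real.log (Ideal.absNorm I) =
      ∑ q ∈ (QL L n).filter (fun q => q.1 ^ q.2 ∣ I), Real.log (Ideal.absNorm q.1) := by
  have hI' := (mem_SL L).1 hI
  have h1 : ∑ q ∈ (QL L n).filter (fun q => q.1 ^ q.2 ∣ I), Real.log (Ideal.absNorm q.1) =
      ∑ P ∈ (normalizedFactors I).toFinset, ∑ k ∈ Finset.Icc 1 ((normalizedFactors I).count P),
        Real.log (Ideal.absNorm P) := by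
    refine Finset.sum_finset_product _ _ (fun P => Finset.Icc 1 ((normalizedFactors I).count P)) ?_
    intro q
    rw [Finset.mem_filter, mem_QL, Multiset.mem_toFinset, Finset.mem_Icc]
    constructor
    · rintro ⟨⟨h1, h2, h3, h4⟩, h5⟩
      rw [pow_dvd_iff_le_count L h1 h2 hI'.1] at h5
      exact ⟨Multiset.one_le_count_iff_mem.1 (h3.trans h5), h3, h5⟩
    · rintro ⟨h1, h2, h3⟩
      have hp : Prime q.1 := prime_of_normalized_factor _ h1
      have hp1 : q.1.IsPrime := Ideal.isPrime_of_prime hp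
      have hp0 : q.1 ≠ ⊥ := hp.ne_zero
      have hd : q.1 ^ q.2 ∣ I := (pow_dvd_iff_le_count L hp1 hp0 hI'.1 _).2 h3
      refine ⟨⟨hp1, hp0, h2, ?_⟩, hd⟩
      have h4 : Ideal.absNorm (q.1 ^ q.2) ∣ Ideal.absNorm I := map_dvd Ideal.absNorm hd
      rw [map_pow] at h4
      exact (Nat.le_of_dvd (absNorm_pos_of_ne L hI'.1) h4).trans hI'.2
  rw [h1]
  have h2 : Ideal.absNorm I = ∏ P ∈ (normalizedFactors I).toFinset,
      Ideal.absNorm P ^ (normalizedFactors I).count P := by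
    conv_lhs => rw [← Ideal.prod_normalizedFactors_eq_self hI'.1]
    rw [map_multiset_prod, Finset.prod_multiset_map_count]
  rw [h2]
  push_cast
  rw [Real.log_prod]
  · refine Finset.sum_congr rfl fun P _ => ?_
    rw [Real.log_pow, Finset.sum_const, Nat.card_Icc, nsmul_eq_mul]
    simp
  · intro P hP
    rw [Multiset.mem_toFinset] at hP
    have hp : Prime P := prime_of_normalized_factor _ hP
    have := absNorm_pos_of_ne L (I := P) hp.ne_zero
    positivity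

open Classical in
theorem card_dvd (n : ℕ) (D : Ideal (𝓞 L)) (hD : D ≠ ⊥) :
    ((SL L n).filter (fun I => D ∣ I)).card = AL L (n / Ideal.absNorm D) := by
  rw [AL_eq_card]
  have h : (SL L n).filter (fun I => D ∣ I) =
      (SL L (n / Ideal.absNorm D)).image (fun J => D * J) := by
    ext I
    rw [Finset.mem_filter, mem_SL, Finset.mem_image]
    constructor
    · rintro ⟨⟨h1, h2⟩, J, rfl⟩
      refine ⟨J, (mem_SL L).2 ⟨?_, ?_⟩, rfl⟩
      · rintro rfl
        exact h1 (by simp)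
      · rw [map_mul] at h2
        rw [Nat.le_div_iff_mul_le (absNorm_pos_of_ne L hD)]
        linarith [mul_comm (Ideal.absNorm D) (Ideal.absNorm J)]
    · rintro ⟨J, hJ, rfl⟩
      rw [mem_SL, Nat.le_div_iff_mul_le (absNorm_pos_of_ne L hD)] at hJ
      refine ⟨⟨?_, ?_⟩, dvd_mul_right _ _⟩
      · intro h0
        rcases mul_eq_zero.1 h0 with h0 | h0
        · exact hD h0
        · exact hJ.1 h0
      · rw [map_mul]
        linarith [hJ.2, mul_comm (Ideal.absNorm D) (Ideal.absNorm J)]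
  rw [h, Finset.card_image_of_injective]
  exact mul_right_injective₀ hD

/-- PIECE PR2 (PrimesB.lean) -/
theorem log_identity (n : ℕ) :
    ∑ m ∈ Finset.Icc 1 n, (aL L m : ℝ) * Real.log m =
      ∑ m ∈ Finset.Icc 1 n, LamL L m * (AL L (n / m) : ℝ) := by
  classical
  have hL : ∑ m ∈ Finset.Icc 1 n, (aL L m : ℝ) * Real.log m =
      ∑ I ∈ SL L n, Real.log (Ideal.absNorm I) := by
    rw [← Finset.sum_fiberwise_of_maps_to (s := SL L n) (t := Finset.Icc 1 n)
      (g := fun I => Ideal.absNorm I)]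
    · refine Finset.sum_congr rfl fun m hm => ?_
      rw [Finset.mem_Icc] at hm
      rw [aL_eq_card L n m hm.1 hm.2, ← nsmul_eq_mul, ← Finset.sum_const]
      refine Finset.sum_congr rfl fun I hI => ?_
      rw [(Finset.mem_filter.1 hI).2]
    · intro I hI
      have hI' := (mem_SL L).1 hI
      exact Finset.mem_Icc.2 ⟨absNorm_pos_of_ne L hI'.1, hI'.2⟩
  have hR : ∑ m ∈ Finset.Icc 1 n, LamL L m * (AL L (n / m) : ℝ) =
      ∑ q ∈ QL L n, Real.log (Ideal.absNorm q.1) * (AL L (n / Ideal.absNorm q.1 ^ q.2) : ℝ) := by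
    rw [← Finset.sum_fiberwise_of_maps_to (s := QL L n) (t := Finset.Icc 1 n)
      (g := fun q => Ideal.absNorm q.1 ^ q.2)]
    · refine Finset.sum_congr rfl fun m hm => ?_
      rw [Finset.mem_Icc] at hm
      rw [LamL_eq_sum L n m hm.2, Finset.sum_mul]
      refine Finset.sum_congr rfl fun q hq => ?_
      rw [(Finset.mem_filter.1 hq).2]
    · intro q hq
      have hq' := (mem_QL L).1 hq
      exact Finset.mem_Icc.2 ⟨Nat.pow_pos (absNorm_pos_of_ne L hq'.2.1), hq'.2.2.2⟩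
  rw [hL, hR]
  rw [Finset.sum_congr rfl (fun I hI => log_absNorm L n I hI)]
  simp_rw [Finset.sum_filter]
  rw [Finset.sum_comm]
  refine Finset.sum_congr rfl fun q hq => ?_
  have hq' := (mem_QL L).1 hq
  rw [← Finset.sum_filter, Finset.sum_const, nsmul_eq_mul, mul_comm]
  congr 2
  rw [card_dvd L n (q.1 ^ q.2) (pow_ne_zero _ hq'.2.1), map_pow]

end Primes

end SphereRep
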