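import Pool.Agent.Lib_MP_ad0b27_co.PrimesDefs

/-!
MP_ad0b27_co: piece PR3, elementary properties of the von Mangoldt function of a number field.
-/

open NumberField Filter Topology
open scoped nonZeroDivisors

namespace SphereRep

section PrimesC
variable (L : Type) [Field L] [NumberField L]

theorem LamL_nonneg (m : ℕ) : 0 ≤ LamL L m :=
  finsum_nonneg fun _ => Real.log_natCast_nonneg _

/-- If the von Mangoldt function does not vanish at `m` there is a prime ideal a power of whose norm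
is `m`. -/
theorem LamL_exists (m : ℕ) (h : LamL L m ≠ 0) :
    ∃ (P : Ideal (𝓞 L)) (k : ℕ), P.IsPrime ∧ P ≠ ⊥ ∧ 1 ≤ k ∧ Ideal.absNorm P ^ k = m := by
  by_contra hne
  push Not at hne
  apply h
  unfold LamL
  have hE : IsEmpty {q : Ideal (𝓞 L) × ℕ //
      q.1.IsPrime ∧ q.1 ≠ ⊥ ∧ 1 ≤ q.2 ∧ Ideal.absNorm q.1 ^ q.2 = m} :=
    ⟨fun q => hne q.1.1 q.1.2 q.2.1 q.2.2.1 q.2.2.2.1 q.2.2.2.2⟩
  exact finsum_of_isEmpty _

theorem LamL_isPrimePow (m : ℕ) (h : LamL L m ≠ 0) : IsPrimePow m := by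
  obtain ⟨P, k, hP, hP0, hk, hm⟩ := LamL_exists L m h
  have hPm : P.IsMaximal := hP.isMaximal hP0
  obtain ⟨p, n, hn, -, hp, hN⟩ := Ideal.exists_prime_and_absNorm_eq_pow P
  rw [← hm, hN, ← pow_mul]
  exact hp.isPrimePow.pow (Nat.mul_ne_zero hn.ne' (by omega))

theorem LamL_prime (p : ℕ) (hp : p.Prime) (h : LamL L p ≠ 0) : Nonempty (𝓞 L →+* ZMod p) := by
  obtain ⟨P, k, hP, hP0, hk, hm⟩ := LamL_exists L p h
  have hPm : P.IsMaximal := hP.isMaximal hP0
  have hk1 : k = 1 := by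
    by_contra hk1
    have h2 : 2 ≤ k := by omega
    exact Nat.Prime.not_prime_pow h2 (hm ▸ hp)
  subst hk1
  rw [pow_one] at hm
  have hcard : Nat.card (𝓞 L ⧸ P) = p := by
    rw [← hm]; rfl
  have hfin : Finite (𝓞 L ⧸ P) := Nat.finite_of_card_ne_zero (by rw [hcard]; exact hp.ne_zero)
  let _ : Fintype (𝓞 L ⧸ P) := Fintype.ofFinite _
  have hc : Fintype.card (𝓞 L ⧸ P) = p := by rw [← Nat.card_eq_fintype_card, hcard]
  exact ⟨((ZMod.ringEquivOfPrime (𝓞 L ⧸ P) hp hc).symm : (𝓞 L ⧸ P) →+* ZMod p).comp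
    (Ideal.Quotient.mk P)⟩

/-- The number of primes above a prime number is at most the degree. -/
theorem card_primesOver_le (p : ℕ) (hp : p.Prime) :
    (IsDedekindDomain.primesOverFinset (Ideal.span {(p : ℤ)}) (𝓞 L)).card ≤
      Module.finrank ℚ L := by
  have hpp : Prime (p : ℤ) := Nat.prime_iff_prime_int.mp hp
  have hne : Ideal.span {(p : ℤ)} ≠ ⊥ := by
    simpa using hp.ne_zero
  have : (Ideal.span {(p : ℤ)}).IsMaximal :=
    ((Ideal.span_singleton_prime hpp.ne_zero).mpr hpp).isMaximal hne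
  exact Ideal.card_primesOverFinset_le_finrank (𝓞 L) ℚ L hne

theorem LamL_le (m : ℕ) : LamL L m ≤ Module.finrank ℚ L * Real.log m := by
  by_cases h : LamL L m = 0
  · rw [h]
    exact mul_nonneg (Nat.cast_nonneg _) (Real.log_natCast_nonneg _)
  obtain ⟨P₀, k₀, hP₀, hP₀0, hk₀, hm₀⟩ := LamL_exists L m h
  have hP₀m : P₀.IsMaximal := hP₀.isMaximal hP₀0
  obtain ⟨p, n, hn, -, hp, hN⟩ := Ideal.exists_prime_and_absNorm_eq_pow P₀
  have hma : m = p ^ (n * k₀) := by rw [← hm₀, hN, ← pow_mul]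
  have ha : n * k₀ ≠ 0 := Nat.mul_ne_zero hn.ne' (by omega)
  have hm0 : m ≠ 0 := by rw [hma]; exact pow_ne_zero _ hp.ne_zero
  have hpp : Prime (p : ℤ) := Nat.prime_iff_prime_int.mp hp
  have hne : Ideal.span {(p : ℤ)} ≠ ⊥ := by
    simpa using hp.ne_zero
  have hmax : (Ideal.span {(p : ℤ)}).IsMaximal :=
    ((Ideal.span_singleton_prime hpp.ne_zero).mpr hpp).isMaximal hne
  set ι := {q : Ideal (𝓞 L) × ℕ //
      q.1.IsPrime ∧ q.1 ≠ ⊥ ∧ 1 ≤ q.2 ∧ Ideal.absNorm q.1 ^ q.2 = m} with hι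
  have hmem : ∀ q : ι, q.1.1 ∈ IsDedekindDomain.primesOverFinset (Ideal.span {(p : ℤ)}) (𝓞 L) := by
    intro q
    obtain ⟨hqP, hq0, hqk, hqm⟩ := q.2
    rw [IsDedekindDomain.mem_primesOverFinset_iff hne]
    refine ⟨hqP, ⟨?_⟩⟩
    refine hmax.eq_of_le (hqP.under ℤ).ne_top ?_
    rw [Ideal.span_le, Set.singleton_subset_iff, SetLike.mem_coe, Ideal.mem_comap]
    have h1 : ((Ideal.absNorm q.1.1 : ℕ) : 𝓞 L) ^ q.1.2 ∈ q.1.1 :=
      Ideal.pow_mem_of_mem _ (Ideal.absNorm_mem _) _ (by omega)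
    rw [← Nat.cast_pow, hqm] at h1
    have h3 : ((m : ℕ) : 𝓞 L) = (p : 𝓞 L) ^ (n * k₀) := by
      rw [← Nat.cast_pow]; exact congrArg _ hma
    rw [h3] at h1
    have h2 := hqP.mem_of_pow_mem _ h1
    simpa using h2
  have hinj : Function.Injective (fun q : ι => (⟨q.1.1, hmem q⟩ :
      IsDedekindDomain.primesOverFinset (Ideal.span {(p : ℤ)}) (𝓞 L))) := by
    intro q r hqr
    have h1 : q.1.1 = r.1.1 := congrArg Subtype.val hqr
    have hN2 : 2 ≤ Ideal.absNorm q.1.1 := by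
      have hq0 : Ideal.absNorm q.1.1 ≠ 0 := by
        intro h0
        exact q.2.2.1 (Ideal.absNorm_eq_zero_iff.mp h0)
      have hq1 : Ideal.absNorm q.1.1 ≠ 1 := by
        intro h0
        exact q.2.1.ne_top (Ideal.absNorm_eq_one_iff.mp h0)
      omega
    have h2 : q.1.2 = r.1.2 := by
      apply Nat.pow_right_injective hN2
      show Ideal.absNorm q.1.1 ^ q.1.2 = Ideal.absNorm q.1.1 ^ r.1.2
      rw [q.2.2.2.2]
      rw [h1, r.2.2.2.2]
    exact Subtype.ext (Prod.ext h1 h2)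
  have hfin : Finite ι := Finite.of_injective _ hinj
  let _ : Fintype ι := Fintype.ofFinite ι
  have hcard : Fintype.card ι ≤ Module.finrank ℚ L := by
    refine le_trans ?_ (card_primesOver_le L p hp)
    have := Fintype.card_le_of_injective _ hinj
    rwa [Fintype.card_coe] at this
  have hlog : 0 ≤ Real.log m := Real.log_natCast_nonneg _
  calc LamL L m = ∑ q : ι, Real.log (Ideal.absNorm q.1.1) := finsum_eq_sum_of_fintype _
    _ ≤ ∑ _q : ι, Real.log m := by
        refine Finset.sum_le_sum fun q _ => ?_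
        have hq0 : Ideal.absNorm q.1.1 ≠ 0 := by
          intro h0
          exact q.2.2.1 (Ideal.absNorm_eq_zero_iff.mp h0)
        refine Real.log_le_log (by positivity) ?_
        have : Ideal.absNorm q.1.1 ≤ m := by
          calc Ideal.absNorm q.1.1 = Ideal.absNorm q.1.1 ^ 1 := (pow_one _).symm
            _ ≤ Ideal.absNorm q.1.1 ^ q.1.2 :=
              Nat.pow_le_pow_right (Nat.pos_of_ne_zero hq0) q.2.2.2.1
            _ = m := q.2.2.2.2
        exact_mod_cast this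
    _ = Fintype.card ι * Real.log m := by
        rw [Finset.sum_const, nsmul_eq_mul, Finset.card_univ]
    _ ≤ Module.finrank ℚ L * Real.log m :=
        mul_le_mul_of_nonneg_right (by exact_mod_cast hcard) hlog

end PrimesC

end SphereRep
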