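import Mathlib

/-!
# Piece PR4: Abel type estimate, pure real analysis
-/

open Filter Topology

namespace SphereRep

/-- PIECE PR4 (PrimesD.lean): pure real analysis. -/
theorem tendsto_log_sum (a : ℕ → ℝ) (ha : ∀ m, 0 ≤ a m) (κ : ℝ) (hκ : 0 < κ)
    (hA : Tendsto (fun n : ℕ => (∑ m ∈ Finset.Icc 1 n, a m) / n) atTop (𝓝 κ)) :
    Tendsto (fun n : ℕ => (∑ m ∈ Finset.Icc 1 n, a m * Real.log m) / (n * Real.log n)) atTop
      (𝓝 κ) := by
  have _ := hκ
  set A : ℕ → ℝ := fun n => ∑ m ∈ Finset.Icc 1 n, a m with hAdef
  -- a uniform bound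
  obtain ⟨C, hC⟩ := hA.bddAbove_range
  have hC' : ∀ n : ℕ, A n ≤ C * n := by
    intro n
    rcases Nat.eq_zero_or_pos n with h | h
    · subst h; simp [hAdef]
    · have h1 : A n / n ≤ C := hC ⟨n, rfl⟩
      have h2 : (0:ℝ) < n := by exact_mod_cast h
      rwa [div_le_iff₀ h2] at h1
  have hC0 : 0 ≤ C := by
    have h1 := hC' 1
    have h2 : 0 ≤ A 1 := Finset.sum_nonneg fun m _ => ha m
    have h3 : C * ((1:ℕ):ℝ) = C := by simp
    linarith
  have hlog : Tendsto (fun n : ℕ => Real.log n) atTop atTop :=
    Real.tendsto_log_atTop.comp tendsto_natCast_atTop_atTop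
  have hinv : Tendsto (fun n : ℕ => C / Real.log n) atTop (𝓝 0) := by
    simpa using hlog.const_div_atTop C
  have hll : Tendsto (fun n : ℕ => Real.log (Real.log n) / Real.log n) atTop (𝓝 0) := by
    have h1 : Tendsto (fun x : ℝ => Real.log x / x) atTop (𝓝 0) := by
      have := Real.isLittleO_log_id_atTop
      simpa using this.tendsto_div_nhds_zero
    exact h1.comp hlog
  have hlow : Tendsto (fun n : ℕ => (A n / n - C / Real.log n) *
      (1 - Real.log (Real.log n) / Real.log n)) atTop (𝓝 κ) := by
    have := (hA.sub hinv).mul (tendsto_const_nhds (x := (1:ℝ)) |>.sub hll)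
    simpa using this
  have hlog2 : ∀ᶠ n : ℕ in atTop, 1 ≤ Real.log n := hlog.eventually_ge_atTop 1
  refine tendsto_of_tendsto_of_tendsto_of_le_of_le' hlow hA ?_ ?_
  · -- lower bound
    filter_upwards [hlog2, eventually_ge_atTop 1] with n hn hn1
    have hn0 : (0:ℝ) < n := by exact_mod_cast hn1
    set l := Real.log n with hl
    have hl0 : 0 < l := by linarith
    have hll0 : 0 ≤ Real.log l := Real.log_nonneg hn
    have hll1 : Real.log l ≤ l := by
      have := Real.log_le_sub_one_of_pos hl0
      linarith
    set k : ℕ := ⌊(n:ℝ) / l⌋₊ with hk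
    have hkle : (k:ℝ) ≤ n / l := Nat.floor_le (by positivity)
    have hkn : k ≤ n := by
      have : (k:ℝ) ≤ n := hkle.trans (div_le_self hn0.le hn)
      exact_mod_cast this
    have hsplit : A n = A k + ∑ m ∈ Finset.Ioc k n, a m := by
      simp only [hAdef]
      rw [← Finset.sum_union]
      · congr 1
        ext m
        simp only [Finset.mem_Icc, Finset.mem_union, Finset.mem_Ioc]
        omega
      · rw [Finset.disjoint_left]
        intro m
        simp only [Finset.mem_Icc, Finset.mem_Ioc]
        omega
    have hAk : A k ≤ C * (n / l) := (hC' k).trans (mul_le_mul_of_nonneg_left hkle hC0)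
    have hT : (∑ m ∈ Finset.Ioc k n, a m) * (l - Real.log l) ≤
        ∑ m ∈ Finset.Icc 1 n, a m * Real.log m := by
      rw [Finset.sum_mul]
      calc ∑ m ∈ Finset.Ioc k n, a m * (l - Real.log l) ≤
          ∑ m ∈ Finset.Ioc k n, a m * Real.log m := by
            apply Finset.sum_le_sum
            intro m hm
            rw [Finset.mem_Ioc] at hm
            apply mul_le_mul_of_nonneg_left _ (ha m)
            have h1 : (n:ℝ) / l < m := by
              have := Nat.lt_floor_add_one ((n:ℝ) / l)
              have h2 : (k:ℝ) + 1 ≤ m := by exact_mod_cast hm.1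
              linarith
            rw [hl, ← Real.log_div hn0.ne' (by rw [← hl]; exact hl0.ne'), ← hl]
            exact Real.log_le_log (by positivity) h1.le
        _ ≤ ∑ m ∈ Finset.Icc 1 n, a m * Real.log m := by
            apply Finset.sum_le_sum_of_subset_of_nonneg
            · intro m
              simp only [Finset.mem_Icc, Finset.mem_Ioc]
              omega
            · intro m _ _
              exact mul_nonneg (ha m) (Real.log_natCast_nonneg m)
    have h1 : (A n - C * (n / l)) * (l - Real.log l) ≤ ∑ m ∈ Finset.Icc 1 n, a m * Real.log m := by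
      refine le_trans ?_ hT
      apply mul_le_mul_of_nonneg_right _ (by linarith)
      linarith
    rw [le_div_iff₀ (by positivity)]
    refine le_trans (le_of_eq ?_) h1
    field_simp
  · -- upper bound
    filter_upwards [hlog2, eventually_ge_atTop 1] with n hn hn1
    have hn0 : (0:ℝ) < n := by exact_mod_cast hn1
    have hl0 : 0 < Real.log n := by linarith
    rw [div_le_div_iff₀ (by positivity) hn0]
    have h1 : ∑ m ∈ Finset.Icc 1 n, a m * Real.log m ≤ A n * Real.log n := by
      simp only [hAdef]
      rw [Finset.sum_mul]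
      apply Finset.sum_le_sum
      intro m hm
      rw [Finset.mem_Icc] at hm
      apply mul_le_mul_of_nonneg_left _ (ha m)
      apply Real.log_le_log
      · exact_mod_cast hm.1
      · exact_mod_cast hm.2
    calc (∑ m ∈ Finset.Icc 1 n, a m * Real.log m) * n ≤ (A n * Real.log n) * n :=
          mul_le_mul_of_nonneg_right h1 hn0.le
      _ = A n * (n * Real.log n) := by ring

end SphereRep
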