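import Mathlib

/-! PIECE PR5: an abstract Mertens type lower bound in short logarithmic intervals. -/

open Filter Topology

namespace SphereRep

/-- PIECE PR5 (PrimesE.lean): pure real analysis. -/
theorem mertens_abstract (A Λ T : ℕ → ℝ) (κ : ℝ) (hκ : 0 < κ) (hA0 : A 0 = 0) (hAm : Monotone A)
    (hA : Tendsto (fun n : ℕ => A n / n) atTop (𝓝 κ)) (hΛ : ∀ m, 0 ≤ Λ m)
    (hT : Tendsto (fun n : ℕ => T n / (n * Real.log n)) atTop (𝓝 κ))
    (hid : ∀ n, T n = ∑ m ∈ Finset.Icc 1 n, Λ m * A (n / m)) (δ : ℝ) (hδ : 0 < δ) :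
    ∃ c : ℝ, 0 < c ∧ ∀ᶠ n : ℕ in atTop,
      c * Real.log n ≤ ∑ m ∈ Finset.Ioc n ⌊(n : ℝ) ^ (1 + δ)⌋₊, Λ m / m := by
  obtain ⟨t, ht0, ht1, ht2⟩ : ∃ t : ℝ, 0 < t ∧ t ≤ 1 / 12 ∧ t ≤ δ / 24 :=
    ⟨min (1 / 12) (δ / 24), lt_min (by norm_num) (by positivity), min_le_left _ _,
      min_le_right _ _⟩
  have hAnn : ∀ k, 0 ≤ A k := fun k => by rw [← hA0]; exact hAm (Nat.zero_le k)
  obtain ⟨a, ha⟩ : ∃ a, a = κ * (1 - t) := ⟨_, rfl⟩
  obtain ⟨b, hb⟩ : ∃ b, b = κ * (1 + t) := ⟨_, rfl⟩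
  have ha0 : 0 < a := by rw [ha]; exact mul_pos hκ (by linarith)
  have hb0 : 0 < b := by rw [hb]; exact mul_pos hκ (by linarith)
  have haκ : a < κ := by rw [ha]; nlinarith
  have hbκ : κ < b := by rw [hb]; nlinarith
  -- bounds for A
  obtain ⟨R, hR1, hRt, hRA⟩ : ∃ R : ℕ, 1 ≤ R ∧ 1 ≤ t * R ∧ ∀ m : ℕ, R ≤ m →
      a * m ≤ A m ∧ A m ≤ b * m := by
    have h1 : ∀ᶠ n : ℕ in atTop, a < A n / n ∧ A n / n < b :=
      (hA.eventually_const_lt haκ).and (hA.eventually_lt_const hbκ)
    obtain ⟨N, hN⟩ := eventually_atTop.1 h1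
    obtain ⟨M, hM⟩ := exists_nat_ge (1 / t)
    refine ⟨N + M + 1, by omega, ?_, fun m hm => ?_⟩
    · have : 1 ≤ t * M := by
        rw [div_le_iff₀ ht0] at hM; linarith
      push_cast
      nlinarith [Nat.cast_nonneg (α := ℝ) N]
    · have hm0 : (0 : ℝ) < m := by exact_mod_cast (show 0 < m by omega)
      have := hN m (by omega)
      rw [lt_div_iff₀ hm0, div_lt_iff₀ hm0] at this
      exact ⟨this.1.le, this.2.le⟩
  -- global upper bound for A
  obtain ⟨C, hC0, hCA⟩ : ∃ C : ℝ, 0 < C ∧ ∀ k : ℕ, A k ≤ C * k := by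
    refine ⟨b + A R, by linarith [hAnn R], fun k => ?_⟩
    rcases Nat.eq_zero_or_pos k with rfl | hk
    · simp [hA0]
    · have hk1 : (1 : ℝ) ≤ k := by exact_mod_cast hk
      rcases le_total R k with h | h
      · have := (hRA k h).2
        nlinarith [hAnn R]
      · have := hAm h
        nlinarith [hAnn R]
  -- bounds for T
  obtain ⟨N1, hN1⟩ : ∃ N1 : ℕ, ∀ n : ℕ, N1 ≤ n → a * (n * Real.log n) ≤ T n ∧
      T n ≤ b * (n * Real.log n) := by
    have h1 : ∀ᶠ n : ℕ in atTop, a < T n / (n * Real.log n) ∧ T n / (n * Real.log n) < b :=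
      (hT.eventually_const_lt haκ).and (hT.eventually_lt_const hbκ)
    obtain ⟨N, hN⟩ := eventually_atTop.1 h1
    refine ⟨N + 2, fun n hn => ?_⟩
    have hn2 : (2 : ℝ) ≤ n := by exact_mod_cast (show 2 ≤ n by omega)
    have hlog : 0 < Real.log n := Real.log_pos (by linarith)
    have hpos : 0 < (n : ℝ) * Real.log n := by positivity
    have := hN n (by omega)
    rw [lt_div_iff₀ hpos, div_lt_iff₀ hpos] at this
    exact ⟨this.1.le, this.2.le⟩
  set Ψ : ℕ → ℝ := fun n => ∑ m ∈ Finset.Icc 1 n, Λ m / m with hΨ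
  have hΨ0 : ∀ n, 0 ≤ Ψ n := fun n =>
    Finset.sum_nonneg fun m _ => div_nonneg (hΛ m) (Nat.cast_nonneg m)
  -- upper bound for Ψ
  have hup : ∀ k : ℕ, 1 ≤ k → N1 ≤ R * k →
      a * (1 - t) * Ψ k ≤ b * (Real.log R + Real.log k) := by
    intro k hk hkN
    have hk0 : (0 : ℝ) < k := by exact_mod_cast hk
    have hR0 : (0 : ℝ) < R := by exact_mod_cast hR1
    have h1 := (hN1 (R * k) hkN).2
    have h2 : a * (1 - t) * (R * k) * Ψ k ≤ T (R * k) := by
      rw [hid (R * k), hΨ]
      simp only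
      rw [Finset.mul_sum]
      have hsub : Finset.Icc 1 k ⊆ Finset.Icc 1 (R * k) := by
        apply Finset.Icc_subset_Icc_right
        nlinarith
      refine le_trans (Finset.sum_le_sum fun m hm => ?_)
        (Finset.sum_le_sum_of_subset_of_nonneg hsub fun m _ _ => mul_nonneg (hΛ m) (hAnn _))
      rw [Finset.mem_Icc] at hm
      have hm0 : (0 : ℝ) < m := by exact_mod_cast (show 0 < m by omega)
      have hq : R ≤ R * k / m := by
        rw [Nat.le_div_iff_mul_le (by omega)]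
        exact Nat.mul_le_mul_left R hm.2
      have h3 := (hRA _ hq).1
      have h4 : (R * k : ℝ) / m - 1 ≤ ((R * k / m : ℕ) : ℝ) := by
        have := Nat.lt_floor_add_one ((R * k : ℝ) / m)
        have h5 : ⌊(R * k : ℝ) / m⌋₊ = R * k / m := by
          have := Nat.floor_div_eq_div (K := ℝ) (R * k) m
          push_cast at this
          exact this
        rw [h5] at this
        linarith
      have h6 : 1 ≤ t * ((R * k : ℝ) / m) := by
        have : (1 : ℝ) ≤ k / m := by
          rw [le_div_iff₀ hm0]; exact_mod_cast (by omega : 1 * m ≤ k)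
        calc (1 : ℝ) ≤ t * R * 1 := by linarith
          _ ≤ t * R * (k / m) := by
              apply mul_le_mul_of_nonneg_left this (by positivity)
          _ = t * ((R * k : ℝ) / m) := by ring
      have h7 : (1 - t) * ((R * k : ℝ) / m) ≤ ((R * k / m : ℕ) : ℝ) := by linarith
      calc a * (1 - t) * (R * k) * (Λ m / m) = Λ m * (a * ((1 - t) * ((R * k : ℝ) / m))) := by
            ring
        _ ≤ Λ m * (a * ((R * k / m : ℕ) : ℝ)) := by
            apply mul_le_mul_of_nonneg_left _ (hΛ m)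
            exact mul_le_mul_of_nonneg_left h7 ha0.le
        _ ≤ Λ m * A (R * k / m) := mul_le_mul_of_nonneg_left h3 (hΛ m)
    have h3 : a * (1 - t) * (R * k) * Ψ k ≤ b * ((R * k) * (Real.log R + Real.log k)) := by
      refine le_trans h2 (le_trans h1 (le_of_eq ?_))
      push_cast
      rw [Real.log_mul hR0.ne' hk0.ne']
    have hRk : (0 : ℝ) < R * k := by positivity
    have h4 : (R * k : ℝ) * (a * (1 - t) * Ψ k) ≤ (R * k) * (b * (Real.log R + Real.log k)) := by
      linarith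
    exact le_of_mul_le_mul_left h4 hRk
  -- lower bound
  have hlow : ∀ n x : ℕ, 1 ≤ n → R * n ≤ x → n ≤ x → N1 ≤ x →
      a * Real.log x ≤ b * Ψ n + C * ∑ m ∈ Finset.Ioc n x, Λ m / m := by
    intro n x hn hRx hnx hNx
    have hx0 : (0 : ℝ) < x := by exact_mod_cast (show 0 < x by omega)
    have h1 := (hN1 x hNx).1
    have h2 : T x ≤ b * x * Ψ n + C * x * ∑ m ∈ Finset.Ioc n x, Λ m / m := by
      rw [hid x]
      have hsplit : Finset.Icc 1 x = Finset.Icc 1 n ∪ Finset.Ioc n x := by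
        ext m; simp only [Finset.mem_Icc, Finset.mem_union, Finset.mem_Ioc]; omega
      have hdisj : Disjoint (Finset.Icc 1 n) (Finset.Ioc n x) := by
        rw [Finset.disjoint_left]
        intro m hm hm'
        rw [Finset.mem_Icc] at hm
        rw [Finset.mem_Ioc] at hm'
        omega
      rw [hsplit, Finset.sum_union hdisj]
      have hq : ∀ m : ℕ, 0 < m → ((x / m : ℕ) : ℝ) ≤ (x : ℝ) / m := fun m _ => Nat.cast_div_le
      apply add_le_add
      · rw [hΨ]
        simp only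
        rw [Finset.mul_sum]
        refine Finset.sum_le_sum fun m hm => ?_
        rw [Finset.mem_Icc] at hm
        have hm0 : 0 < m := by omega
        have hqR : R ≤ x / m := by
          rw [Nat.le_div_iff_mul_le (by omega)]
          exact le_trans (Nat.mul_le_mul_left R hm.2) hRx
        calc Λ m * A (x / m) ≤ Λ m * (b * ((x / m : ℕ) : ℝ)) :=
              mul_le_mul_of_nonneg_left (hRA _ hqR).2 (hΛ m)
          _ ≤ Λ m * (b * ((x : ℝ) / m)) := by
              apply mul_le_mul_of_nonneg_left _ (hΛ m)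
              exact mul_le_mul_of_nonneg_left (hq m hm0) hb0.le
          _ = b * x * (Λ m / m) := by ring
      · rw [Finset.mul_sum]
        refine Finset.sum_le_sum fun m hm => ?_
        rw [Finset.mem_Ioc] at hm
        have hm0 : 0 < m := by omega
        calc Λ m * A (x / m) ≤ Λ m * (C * ((x / m : ℕ) : ℝ)) :=
              mul_le_mul_of_nonneg_left (hCA _) (hΛ m)
          _ ≤ Λ m * (C * ((x : ℝ) / m)) := by
              apply mul_le_mul_of_nonneg_left _ (hΛ m)
              exact mul_le_mul_of_nonneg_left (hq m hm0) hC0.le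
          _ = C * x * (Λ m / m) := by ring
    have h3 : (x : ℝ) * (a * Real.log x) ≤
        x * (b * Ψ n + C * ∑ m ∈ Finset.Ioc n x, Λ m / m) := by
      calc (x : ℝ) * (a * Real.log x) = a * (x * Real.log x) := by ring
        _ ≤ T x := h1
        _ ≤ _ := h2
        _ = _ := by ring
    exact le_of_mul_le_mul_left h3 hx0
  -- choice of the constant
  have h1t : 0 < 1 - t := by linarith
  refine ⟨κ ^ 2 * (δ / 4) / (C * (a * (1 - t))), by positivity, ?_⟩
  obtain ⟨K, hK⟩ : ∃ K : ℝ, K = (1 - t) ^ 3 * Real.log 2 + (1 + t) ^ 2 * Real.log R := ⟨_, rfl⟩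
  have hlogtop : Tendsto (fun n : ℕ => Real.log n) atTop atTop :=
    Real.tendsto_log_atTop.comp tendsto_natCast_atTop_atTop
  have hpow : Tendsto (fun n : ℕ => (n : ℝ) ^ δ) atTop atTop :=
    (tendsto_rpow_atTop hδ).comp tendsto_natCast_atTop_atTop
  filter_upwards [hlogtop.eventually_ge_atTop (4 * K / δ), hpow.eventually_ge_atTop (R + 1),
    eventually_ge_atTop (N1 + 2)] with n hnK hnδ hnN
  have hn2 : (2 : ℝ) ≤ n := by exact_mod_cast (show 2 ≤ n by omega)
  have hn0 : (0 : ℝ) < n := by linarith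
  have hR1' : (1 : ℝ) ≤ R := by exact_mod_cast hR1
  set x : ℕ := ⌊(n : ℝ) ^ (1 + δ)⌋₊ with hx
  have hpow1 : (n : ℝ) ^ (1 + δ) = n * (n : ℝ) ^ δ := by
    rw [Real.rpow_add hn0, Real.rpow_one]
  have hbig : (R : ℝ) * n + 2 ≤ (n : ℝ) ^ (1 + δ) := by
    rw [hpow1]; nlinarith
  have hRx : R * n ≤ x := by
    rw [hx]
    apply Nat.le_floor
    push_cast
    linarith
  have hnx : n ≤ x := le_trans (Nat.le_mul_of_pos_left n (by omega)) hRx
  have h1 := hlow n x (by omega) hRx hnx (by omega)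
  have h2 := hup n (by omega) (le_trans (by omega : N1 ≤ n) (Nat.le_mul_of_pos_left n (by omega)))
  have hlogx : (1 + δ) * Real.log n - Real.log 2 ≤ Real.log x := by
    have h3 : (n : ℝ) ^ (1 + δ) / 2 ≤ x := by
      have := Nat.lt_floor_add_one ((n : ℝ) ^ (1 + δ))
      rw [← hx] at this
      nlinarith
    have h4 : 0 < (n : ℝ) ^ (1 + δ) := Real.rpow_pos_of_pos hn0 _
    have h5 := Real.log_le_log (by positivity) h3
    rw [Real.log_div h4.ne' (by norm_num), Real.log_rpow hn0] at h5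
    exact h5
  set D : ℝ := ∑ m ∈ Finset.Ioc n x, Λ m / m with hD
  have hlogn : 0 ≤ Real.log n := Real.log_nonneg (by linarith)
  have hlogR : 0 ≤ Real.log R := Real.log_nonneg hR1'
  have hlog2 : 0 < Real.log 2 := Real.log_pos (by norm_num)
  -- combine
  have h3 : a * (1 - t) * (a * ((1 + δ) * Real.log n - Real.log 2)) ≤
      b * (b * (Real.log R + Real.log n)) + C * (a * (1 - t)) * D := by
    calc a * (1 - t) * (a * ((1 + δ) * Real.log n - Real.log 2))
        ≤ a * (1 - t) * (a * Real.log x) := by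
          apply mul_le_mul_of_nonneg_left _ (by positivity)
          exact mul_le_mul_of_nonneg_left hlogx ha0.le
      _ ≤ a * (1 - t) * (b * Ψ n + C * D) := mul_le_mul_of_nonneg_left h1 (by positivity)
      _ = b * (a * (1 - t) * Ψ n) + C * (a * (1 - t)) * D := by ring
      _ ≤ b * (b * (Real.log R + Real.log n)) + C * (a * (1 - t)) * D := by
          gcongr
  have hcoef : δ / 2 ≤ (1 - t) ^ 3 * (1 + δ) - (1 + t) ^ 2 := by
    have e1 : 1 - 3 * t ≤ (1 - t) ^ 3 := by nlinarith [mul_pos ht0 ht0, mul_pos (mul_pos ht0 ht0) ht0]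
    have e2 : (1 + t) ^ 2 ≤ 1 + 3 * t := by nlinarith
    have e3 : (1 - 3 * t) * (1 + δ) ≤ (1 - t) ^ 3 * (1 + δ) :=
      mul_le_mul_of_nonneg_right e1 (by linarith)
    nlinarith
  have h4 : κ ^ 2 * (((1 - t) ^ 3 * (1 + δ) - (1 + t) ^ 2) * Real.log n - K) ≤
      C * (a * (1 - t)) * D := by
    have e : κ ^ 2 * (((1 - t) ^ 3 * (1 + δ) - (1 + t) ^ 2) * Real.log n - K) =
      a * (1 - t) * (a * ((1 + δ) * Real.log n - Real.log 2)) -
        b * (b * (Real.log R + Real.log n)) := by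
      rw [ha, hb, hK]; ring
    rw [e]; linarith
  have h5 : κ ^ 2 * (δ / 4 * Real.log n) ≤ C * (a * (1 - t)) * D := by
    refine le_trans ?_ h4
    apply mul_le_mul_of_nonneg_left _ (by positivity)
    have e1 : δ / 2 * Real.log n ≤ ((1 - t) ^ 3 * (1 + δ) - (1 + t) ^ 2) * Real.log n :=
      mul_le_mul_of_nonneg_right hcoef hlogn
    have e2 : K ≤ δ / 4 * Real.log n := by
      rw [div_le_iff₀ hδ] at hnK
      linarith
    linarith
  have hpos : 0 < C * (a * (1 - t)) := by positivity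
  calc κ ^ 2 * (δ / 4) / (C * (a * (1 - t))) * Real.log n
      = κ ^ 2 * (δ / 4 * Real.log n) / (C * (a * (1 - t))) := by ring
    _ ≤ D := by
        rw [div_le_iff₀ hpos]
        linarith

end SphereRep
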