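import Mathlib

/-! Sum over the proper prime powers. -/

set_option autoImplicit false

open Filter Topology

namespace SphereRep

/-- every proper prime power is of the form `a ^ 2 * b ^ 3` -/
lemma exists_sq_cube (m : ℕ) (h1 : IsPrimePow m) (h2 : ¬ m.Prime) :
    ∃ q : ℕ × ℕ, 1 ≤ q.1 ∧ 1 ≤ q.2 ∧ m = q.1 ^ 2 * q.2 ^ 3 := by
  rw [isPrimePow_nat_iff] at h1
  obtain ⟨p, k, hp, hk, rfl⟩ := h1
  have hp1 : 1 ≤ p := hp.one_lt.le
  have hk2 : 2 ≤ k := by
    by_contra hlt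
    have : k = 1 := by omega
    subst this
    rw [pow_one] at h2
    exact h2 hp
  rcases Nat.even_or_odd' k with ⟨j, hj | hj⟩
  · refine ⟨(p ^ j, 1), Nat.one_le_pow _ _ hp1, le_rfl, ?_⟩
    simp only [one_pow, mul_one]
    rw [hj, ← pow_mul, mul_comm]
  · refine ⟨(p ^ (j - 1), p), Nat.one_le_pow _ _ hp1, hp1, ?_⟩
    simp only
    rw [← pow_mul, ← pow_add]
    congr 1
    omega

/-- PIECE PR6 (PrimesF.lean): pure real analysis. -/
theorem primePow_sum_le : ∃ B : ℝ, ∀ n : ℕ,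
    ∑ m ∈ (Finset.Icc 1 n).filter (fun m => IsPrimePow m ∧ ¬ m.Prime), Real.log m / m ≤ B := by
  classical
  set h : ℕ × ℕ → ℝ := fun q => (q.1 : ℝ) ^ (-(7 / 4 : ℝ)) * (q.2 : ℝ) ^ (-(21 / 8 : ℝ)) with hh
  have hsum : Summable h := by
    have s1 : Summable fun a : ℕ => (a : ℝ) ^ (-(7 / 4 : ℝ)) :=
      Real.summable_nat_rpow.mpr (by norm_num)
    have s2 : Summable fun b : ℕ => (b : ℝ) ^ (-(21 / 8 : ℝ)) :=
      Real.summable_nat_rpow.mpr (by norm_num)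
    exact s1.mul_of_nonneg s2 (fun a => by positivity) (fun b => by positivity)
  have hpos : ∀ q, 0 ≤ h q := fun q => by simp only [hh]; positivity
  choose! g hg1 hg2 hg3 using fun (m : ℕ) (hm : IsPrimePow m ∧ ¬ m.Prime) =>
    exists_sq_cube m hm.1 hm.2
  refine ⟨8 * ∑' q, h q, fun n => ?_⟩
  set F := (Finset.Icc 1 n).filter (fun m => IsPrimePow m ∧ ¬ m.Prime) with hF
  have hFm : ∀ m ∈ F, 1 ≤ m ∧ IsPrimePow m ∧ ¬ m.Prime := by
    intro m hm
    rw [hF, Finset.mem_filter, Finset.mem_Icc] at hm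
    exact ⟨hm.1.1, hm.2⟩
  have hterm : ∀ m ∈ F, Real.log m / m ≤ 8 * h (g m) := by
    intro m hm
    obtain ⟨hm1, hm2⟩ := hFm m hm
    have hmpos : (0 : ℝ) < m := by exact_mod_cast hm1
    have h1 : Real.log m ≤ (m : ℝ) ^ (1 / 8 : ℝ) / (1 / 8) :=
      Real.log_le_rpow_div hmpos.le (by norm_num)
    have h2 : Real.log m / m ≤ 8 * (m : ℝ) ^ (-(7 / 8) : ℝ) := by
      rw [div_le_iff₀ hmpos]
      have h3 : (m : ℝ) ^ (-(7 / 8) : ℝ) * m = (m : ℝ) ^ (1 / 8 : ℝ) := by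
        nth_rewrite 2 [← Real.rpow_one (m : ℝ)]
        rw [← Real.rpow_add hmpos]
        norm_num
      rw [mul_assoc, h3]
      linarith
    refine h2.trans (le_of_eq ?_)
    have h4 : (m : ℝ) = ((g m).1 : ℝ) ^ (2 : ℝ) * ((g m).2 : ℝ) ^ (3 : ℝ) := by
      have := hg3 m hm2
      have h5 : (m : ℝ) = ((g m).1 : ℝ) ^ 2 * ((g m).2 : ℝ) ^ 3 := by exact_mod_cast this
      rw [h5]
      norm_cast
    simp only [hh]
    rw [h4, Real.mul_rpow (by positivity) (by positivity), ← Real.rpow_mul (by positivity),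
      ← Real.rpow_mul (by positivity)]
    norm_num
  have hinj : Set.InjOn g (F : Set ℕ) := by
    intro m hm m' hm' hgg
    have e1 := hg3 m (hFm m hm).2
    have e2 := hg3 m' (hFm m' hm').2
    rw [hgg] at e1
    exact e1.trans e2.symm
  calc ∑ m ∈ F, Real.log m / m ≤ ∑ m ∈ F, 8 * h (g m) := Finset.sum_le_sum hterm
    _ = 8 * ∑ q ∈ F.image g, h q := by rw [← Finset.mul_sum, Finset.sum_image hinj]
    _ ≤ 8 * ∑' q, h q :=
      mul_le_mul_of_nonneg_left (hsum.sum_le_tsum _ fun q _ => hpos q) (by norm_num)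

end SphereRep
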