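import Mathlib

/-! Dyadic pigeonhole principle. -/

set_option autoImplicit false

open Filter Topology

namespace SphereRep

/-- PIECE PR7 (PrimesG.lean): dyadic pigeonhole. -/
theorem dyadic (S : Set ℕ) [DecidablePred (· ∈ S)] (δ : ℝ) (hδ : 0 < δ) (hδ1 : δ < 1) (c : ℝ)
    (hc : 0 < c)
    (h : ∀ᶠ n : ℕ in atTop, c * Real.log n ≤
      ∑ m ∈ (Finset.Ioc n ⌊(n : ℝ) ^ (1 + δ)⌋₊).filter (· ∈ S), Real.log m / m) :
    ∀ᶠ n : ℕ in atTop, ∃ X : ℕ, n ≤ X ∧ (X : ℝ) ≤ (n : ℝ) ^ (1 + δ) ∧
      (X : ℝ) ^ (1 - δ) ≤ (((Finset.Ioc X (2 * X)).filter (· ∈ S)).card : ℝ) := by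
  set r : ℝ := (2 : ℝ) ^ (-(δ / 2)) with hr
  have hr0 : 0 < r := Real.rpow_pos_of_pos (by norm_num) _
  have hr1 : r < 1 := Real.rpow_lt_one_of_one_lt_of_neg (by norm_num) (by linarith)
  set B : ℝ := (1 + 2 / δ) * (1 - r)⁻¹ with hB
  have hlog : ∀ᶠ n : ℕ in atTop, B < c * Real.log n :=
    ((Real.tendsto_log_atTop.comp tendsto_natCast_atTop_atTop).const_mul_atTop hc).eventually_gt_atTop B
  filter_upwards [h, hlog, eventually_ge_atTop 1] with n hn hlogn hn1
  by_contra hcon
  push Not at hcon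
  have hnpos : (0 : ℝ) < n := by exact_mod_cast hn1
  set N := ⌊(n : ℝ) ^ (1 + δ)⌋₊ with hN
  set F := (Finset.Ioc n N).filter (· ∈ S) with hF
  have hFm : ∀ m ∈ F, n < m ∧ m ≤ N ∧ m ∈ S := by
    intro m hm
    rw [hF, Finset.mem_filter, Finset.mem_Ioc] at hm
    exact ⟨hm.1.1, hm.1.2, hm.2⟩
  let g : ℕ → ℕ := fun m => Nat.log 2 ((m - 1) / n)
  have hgm : ∀ m ∈ F, 2 ^ (g m) * n < m ∧ m ≤ 2 * (2 ^ (g m) * n) := by
    intro m hm
    obtain ⟨h1, h2, h3⟩ := hFm m hm
    have h4 : 1 ≤ (m - 1) / n := (Nat.one_le_div_iff (by omega)).mpr (by omega)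
    have h5 : 2 ^ (g m) ≤ (m - 1) / n := Nat.pow_log_le_self 2 (by omega)
    have h6 : (m - 1) / n < 2 ^ (g m + 1) := Nat.lt_pow_succ_log_self (by norm_num) _
    have h7 : 2 ^ (g m) * n ≤ m - 1 := by
      calc 2 ^ (g m) * n ≤ (m - 1) / n * n := Nat.mul_le_mul_right _ h5
        _ ≤ m - 1 := Nat.div_mul_le_self _ _
    have h8 : m - 1 < 2 ^ (g m + 1) * n := (Nat.div_lt_iff_lt_mul (by omega)).mp h6
    rw [pow_succ] at h8
    constructor
    · omega
    · have : 2 ^ g m * 2 * n = 2 * (2 ^ g m * n) := by ring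
      omega
  have hmaps : ∀ m ∈ F, g m ∈ Finset.range (N + 1) := by
    intro m hm
    obtain ⟨h1, h2⟩ := hgm m hm
    obtain ⟨h3, h4, _⟩ := hFm m hm
    rw [Finset.mem_range]
    have h5 : g m < 2 ^ g m := Nat.lt_two_pow_self
    have h6 : 2 ^ g m * 1 ≤ 2 ^ g m * n := Nat.mul_le_mul_left _ hn1
    omega
  have hsplit := Finset.sum_fiberwise_of_maps_to hmaps (fun m : ℕ => Real.log m / m)
  have hblock : ∀ i ∈ Finset.range (N + 1),
      ∑ m ∈ F.filter (fun m => g m = i), Real.log m / m ≤ (1 + 2 / δ) * r ^ i := by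
    intro i _
    rcases Finset.eq_empty_or_nonempty (F.filter (fun m => g m = i)) with he | ⟨m₀, hm₀⟩
    · rw [he, Finset.sum_empty]
      positivity
    · set X := 2 ^ i * n with hX
      rw [Finset.mem_filter] at hm₀
      obtain ⟨hm₀F, hm₀i⟩ := hm₀
      have hb := hgm m₀ hm₀F
      rw [hm₀i] at hb
      have hnX : n ≤ X := by
        calc n = 1 * n := (one_mul n).symm
          _ ≤ 2 ^ i * n := Nat.mul_le_mul_right _ Nat.one_le_two_pow
      have hXN : X ≤ N := hb.1.le.trans (hFm m₀ hm₀F).2.1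
      have hXle : (X : ℝ) ≤ (n : ℝ) ^ (1 + δ) :=
        (Nat.cast_le.mpr hXN).trans (Nat.floor_le (by positivity))
      have hcard := hcon X hnX hXle
      have hXpos : (0 : ℝ) < X := by
        have : 0 < X := by omega
        exact_mod_cast this
      have hX1 : (1 : ℝ) ≤ X := by
        have : 1 ≤ X := by omega
        exact_mod_cast this
      have hsub : F.filter (fun m => g m = i) ⊆ (Finset.Ioc X (2 * X)).filter (· ∈ S) := by
        intro m hm
        rw [Finset.mem_filter] at hm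
        have hb' := hgm m hm.1
        rw [hm.2] at hb'
        rw [Finset.mem_filter, Finset.mem_Ioc]
        exact ⟨hb', (hFm m hm.1).2.2⟩
      have hterm : ∀ m ∈ F.filter (fun m => g m = i), Real.log m / m ≤ Real.log (2 * X) / X := by
        intro m hm
        have hm' := hsub hm
        rw [Finset.mem_filter, Finset.mem_Ioc] at hm'
        have h1 : (X : ℝ) ≤ m := by exact_mod_cast hm'.1.1.le
        have h2 : (m : ℝ) ≤ 2 * X := by exact_mod_cast hm'.1.2
        have h3 : 0 < (m : ℝ) := lt_of_lt_of_le hXpos h1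
        exact div_le_div₀ (Real.log_nonneg (by linarith)) (Real.log_le_log h3 h2) hXpos h1
      have hlogX : Real.log (2 * X) ≤ (1 + 2 / δ) * (X : ℝ) ^ (δ / 2) := by
        rw [Real.log_mul (by norm_num) hXpos.ne']
        have h1 : Real.log X ≤ (X : ℝ) ^ (δ / 2) / (δ / 2) :=
          Real.log_le_rpow_div hXpos.le (by positivity)
        have h2 : Real.log 2 ≤ 1 := by
          have := Real.log_two_lt_d9
          linarith
        have h3 : 1 ≤ (X : ℝ) ^ (δ / 2) := Real.one_le_rpow hX1 (by positivity)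
        have h4 : (X : ℝ) ^ (δ / 2) / (δ / 2) = 2 / δ * (X : ℝ) ^ (δ / 2) := by
          field_simp
        rw [h4] at h1
        nlinarith
      calc ∑ m ∈ F.filter (fun m => g m = i), Real.log m / m
          ≤ ∑ m ∈ F.filter (fun m => g m = i), Real.log (2 * X) / X := Finset.sum_le_sum hterm
        _ = ((F.filter (fun m => g m = i)).card : ℝ) * (Real.log (2 * X) / X) := by
            rw [Finset.sum_const, nsmul_eq_mul]
        _ ≤ (X : ℝ) ^ (1 - δ) * ((1 + 2 / δ) * (X : ℝ) ^ (δ / 2) / X) := by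
            refine mul_le_mul ?_ ?_ ?_ (by positivity)
            · exact le_trans (by exact_mod_cast Finset.card_le_card hsub) hcard.le
            · exact div_le_div_of_nonneg_right hlogX hXpos.le
            · exact div_nonneg (Real.log_nonneg (by linarith)) hXpos.le
        _ = (1 + 2 / δ) * (X : ℝ) ^ (-(δ / 2)) := by
            have h5 : (X : ℝ) ^ (-(δ / 2)) = (X : ℝ) ^ (1 - δ) * (X : ℝ) ^ (δ / 2) * (X : ℝ) ^ (-1 : ℝ) := by
              rw [← Real.rpow_add hXpos, ← Real.rpow_add hXpos]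
              congr 1; ring
            rw [h5, Real.rpow_neg_one]
            field_simp
        _ ≤ (1 + 2 / δ) * r ^ i := by
            apply mul_le_mul_of_nonneg_left _ (by positivity)
            have h6 : r ^ i = ((2 : ℝ) ^ i) ^ (-(δ / 2)) := by
              rw [hr, ← Real.rpow_natCast, ← Real.rpow_mul (by norm_num),
                ← Real.rpow_natCast, ← Real.rpow_mul (by norm_num)]
              congr 1; ring
            rw [h6]
            apply Real.rpow_le_rpow_of_nonpos (by positivity) _ (by linarith)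
            have h7 : (2 : ℝ) ^ i * 1 ≤ (2 : ℝ) ^ i * n :=
              mul_le_mul_of_nonneg_left (by exact_mod_cast hn1) (by positivity)
            rw [hX]
            push_cast
            linarith
  have htot : ∑ m ∈ F, Real.log m / m ≤ B := by
    rw [← hsplit]
    refine (Finset.sum_le_sum hblock).trans ?_
    rw [← Finset.mul_sum]
    apply mul_le_mul_of_nonneg_left _ (by positivity)
    have hs := summable_geometric_of_lt_one hr0.le hr1
    rw [← tsum_geometric_of_lt_one hr0.le hr1]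
    exact hs.sum_le_tsum _ fun i _ => by positivity
  linarith

end SphereRep
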