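import Pool.Agent.Lib_MP_ad0b27_co.PrimesDefs
import Pool.Agent.Lib_MP_ad0b27_co.PrimesA
import Pool.Agent.Lib_MP_ad0b27_co.PrimesB
import Pool.Agent.Lib_MP_ad0b27_co.PrimesC
import Pool.Agent.Lib_MP_ad0b27_co.PrimesD
import Pool.Agent.Lib_MP_ad0b27_co.PrimesE
import Pool.Agent.Lib_MP_ad0b27_co.PrimesF
import Pool.Agent.Lib_MP_ad0b27_co.PrimesG

/-!
MP_ad0b27_co, piece PR8: many rational primes with a residue field homomorphism.
-/

open NumberField Filter Topology

namespace SphereRep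

/-- the non prime prime powers contribute a bounded amount -/
theorem LamL_sum_le (L : Type) [Field L] [NumberField L] (S : Set ℕ) [DecidablePred (· ∈ S)]
    (hS : ∀ p : ℕ, p.Prime → Nonempty (𝓞 L →+* ZMod p) → p ∈ S) (B : ℝ)
    (hB : ∀ n : ℕ, ∑ m ∈ (Finset.Icc 1 n).filter (fun m => IsPrimePow m ∧ ¬ m.Prime),
      Real.log m / m ≤ B) (n x : ℕ) :
    ∑ m ∈ Finset.Ioc n x, LamL L m / m ≤ (Module.finrank ℚ L : ℝ) *
      (∑ m ∈ (Finset.Ioc n x).filter (· ∈ S), Real.log m / m) + (Module.finrank ℚ L : ℝ) * B := by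
  classical
  set D : ℝ := (Module.finrank ℚ L : ℝ) with hD
  have hD0 : 0 ≤ D := Nat.cast_nonneg _
  have hlog : ∀ m : ℕ, 0 ≤ Real.log m / m := fun m =>
    div_nonneg (Real.log_natCast_nonneg m) (Nat.cast_nonneg m)
  have hpt : ∀ m ∈ Finset.Ioc n x, LamL L m / m ≤
      D * (if m ∈ S then Real.log m / m else 0) +
        D * (if IsPrimePow m ∧ ¬ m.Prime then Real.log m / m else 0) := by
    intro m _
    have h0 : 0 ≤ D * (if m ∈ S then Real.log m / m else 0) := by
      refine mul_nonneg hD0 ?_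
      split_ifs
      · exact hlog m
      · exact le_refl 0
    have h1 : 0 ≤ D * (if IsPrimePow m ∧ ¬ m.Prime then Real.log m / m else 0) := by
      refine mul_nonneg hD0 ?_
      split_ifs
      · exact hlog m
      · exact le_refl 0
    have h2 : LamL L m / m ≤ D * (Real.log m / m) := by
      rw [← mul_div_assoc]
      exact div_le_div_of_nonneg_right (LamL_le L m) (Nat.cast_nonneg m)
    by_cases hz : LamL L m = 0
    · rw [hz, zero_div]
      exact add_nonneg h0 h1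
    · have hpp := LamL_isPrimePow L m hz
      by_cases hp : m.Prime
      · have hm : m ∈ S := hS m hp (LamL_prime L m hp hz)
        rw [if_pos hm] at h0 ⊢
        linarith
      · rw [if_pos (⟨hpp, hp⟩ : IsPrimePow m ∧ ¬ m.Prime)]
        linarith
  have hsub : ∑ m ∈ (Finset.Ioc n x).filter (fun m => IsPrimePow m ∧ ¬ m.Prime),
      Real.log m / m ≤ B := by
    refine le_trans (Finset.sum_le_sum_of_subset_of_nonneg ?_ fun m _ _ => hlog m) (hB x)
    intro m hm
    rw [Finset.mem_filter, Finset.mem_Ioc] at hm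
    rw [Finset.mem_filter, Finset.mem_Icc]
    exact ⟨⟨by omega, hm.1.2⟩, hm.2⟩
  calc ∑ m ∈ Finset.Ioc n x, LamL L m / m
      ≤ ∑ m ∈ Finset.Ioc n x, (D * (if m ∈ S then Real.log m / m else 0) +
        D * (if IsPrimePow m ∧ ¬ m.Prime then Real.log m / m else 0)) := Finset.sum_le_sum hpt
    _ = D * (∑ m ∈ (Finset.Ioc n x).filter (· ∈ S), Real.log m / m) +
        D * ∑ m ∈ (Finset.Ioc n x).filter (fun m => IsPrimePow m ∧ ¬ m.Prime),
          Real.log m / m := by
        rw [Finset.sum_add_distrib, ← Finset.mul_sum, ← Finset.mul_sum, Finset.sum_filter,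
          Finset.sum_filter]
    _ ≤ _ := by
        have := mul_le_mul_of_nonneg_left hsub hD0
        linarith

/-- PIECE PR8 (Primes.lean): assembly of PR1-PR7. -/
theorem prime_supply (L : Type) [Field L] [NumberField L] (δ : ℝ) (hδ : 0 < δ) (hδ1 : δ < 1) :
    ∀ᶠ n : ℕ in atTop, ∃ X : ℕ, n ≤ X ∧ (X : ℝ) ≤ (n : ℝ) ^ (1 + δ) ∧
      ∃ S : Finset ℕ, S ⊆ Finset.Ioc X (2 * X) ∧
        (∀ p ∈ S, p.Prime ∧ Nonempty (𝓞 L →+* ZMod p)) ∧ (X : ℝ) ^ (1 - δ) ≤ (S.card : ℝ) := by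
  classical
  obtain ⟨κ, hκ, hA⟩ := AL_tendsto L
  obtain ⟨B, hB⟩ := primePow_sum_le
  have h4 := tendsto_log_sum (fun m => (aL L m : ℝ)) (fun m => Nat.cast_nonneg _) κ hκ
    (by simpa only [AL, Nat.cast_sum] using hA)
  have hmono : Monotone fun n => (AL L n : ℝ) := by
    intro a b hab
    simp only [AL]
    exact_mod_cast Finset.sum_le_sum_of_subset (Finset.Icc_subset_Icc_right hab)
  obtain ⟨c, hc, hev⟩ := mertens_abstract (fun n => (AL L n : ℝ)) (LamL L)
    (fun n => ∑ m ∈ Finset.Icc 1 n, (aL L m : ℝ) * Real.log m) κ hκ (by simp [AL]) hmono hA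
    (LamL_nonneg L) h4 (log_identity L) δ hδ
  set D : ℝ := (Module.finrank ℚ L : ℝ) with hD
  have hD0 : 0 < D := by
    rw [hD]; exact_mod_cast Module.finrank_pos
  set S : Set ℕ := {p | p.Prime ∧ Nonempty (𝓞 L →+* ZMod p)} with hS
  have hlim : ∀ᶠ n : ℕ in atTop, 2 * D * B / c ≤ Real.log n :=
    (Real.tendsto_log_atTop.comp tendsto_natCast_atTop_atTop).eventually_ge_atTop _
  have key : ∀ᶠ n : ℕ in atTop, c / (2 * D) * Real.log n ≤
      ∑ m ∈ (Finset.Ioc n ⌊(n : ℝ) ^ (1 + δ)⌋₊).filter (· ∈ S), Real.log m / m := by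
    filter_upwards [hev, hlim] with n h1 h2
    have h3 := LamL_sum_le L S (fun p hp hn => ⟨hp, hn⟩) B hB n ⌊(n : ℝ) ^ (1 + δ)⌋₊
    rw [← hD] at h3
    rw [div_le_iff₀ hc] at h2
    have h5 : c / (2 * D) * Real.log n * D = c * Real.log n / 2 := by
      field_simp
    have h6 : c / (2 * D) * Real.log n * D ≤
        (∑ m ∈ (Finset.Ioc n ⌊(n : ℝ) ^ (1 + δ)⌋₊).filter (· ∈ S), Real.log m / m) * D := by
      rw [h5]
      nlinarith
    exact le_of_mul_le_mul_right h6 hD0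
  have hfin := dyadic S δ hδ hδ1 (c / (2 * D)) (by positivity) key
  filter_upwards [hfin] with n hn
  obtain ⟨X, h1, h2, h3⟩ := hn
  refine ⟨X, h1, h2, (Finset.Ioc X (2 * X)).filter (· ∈ S), Finset.filter_subset _ _, ?_, h3⟩
  intro p hp
  exact (Finset.mem_filter.mp hp).2

end SphereRep
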