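import Pool.Agent.Lib_MP_ad0b27_co.Core
import Pool.Agent.Lib_MP_ad0b27_co.Count
import Pool.Agent.Lib_MP_ad0b27_co.Pad
import Pool.Agent.Lib_MP_ad0b27_co.Primes
import Pool.Agent.Lib_MP_ad0b27_co.Num

/-!
MP_ad0b27_co, piece FINAL.
-/

open NumberField Filter Topology

namespace SphereRep

theorem num_final (δ ε : ℝ) (hδ : 0 < δ) (hδε : 8 * δ ≤ ε) (hδ1 : δ ≤ 1 / 16) :
    ∀ᶠ y : ℝ in atTop,
      2 * ((⌊y ^ (1 - 3 * δ)⌋₊ : ℕ) : ℝ) ^ ((1 + δ) * (1 + δ)) ≤ y ∧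
      y ^ (1 / 2 - ε) + 1 ≤ ((⌊y ^ (1 - 3 * δ)⌋₊ : ℕ) : ℝ) ^ (1 / 2 - 2 * δ) := by
  have hpos : 0 < 1 - 3 * δ := by linarith
  have ha : 0 < (1 - 3 * δ) * (1 / 2 - 2 * δ) := mul_pos hpos (by linarith)
  have hab : 1 / 2 - ε < (1 - 3 * δ) * (1 / 2 - 2 * δ) := by nlinarith
  have he1 : (1 - 3 * δ) * ((1 + δ) * (1 + δ)) < 1 := by nlinarith [mul_pos hδ hδ]
  have h1 : ∀ᶠ y : ℝ in atTop, 2 ≤ y ^ (1 - (1 - 3 * δ) * ((1 + δ) * (1 + δ))) :=
    (tendsto_rpow_atTop (by linarith)).eventually_ge_atTop 2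
  have h2 : ∀ᶠ y : ℝ in atTop, 2 ≤ y ^ (1 - 3 * δ) :=
    (tendsto_rpow_atTop hpos).eventually_ge_atTop 2
  have h3 : ∀ᶠ y : ℝ in atTop, 4 ≤ y ^ ((1 - 3 * δ) * (1 / 2 - 2 * δ)) :=
    (tendsto_rpow_atTop ha).eventually_ge_atTop 4
  have h4 : ∀ᶠ y : ℝ in atTop, 4 ≤ y ^ ((1 - 3 * δ) * (1 / 2 - 2 * δ) - (1 / 2 - ε)) :=
    (tendsto_rpow_atTop (by linarith)).eventually_ge_atTop 4
  filter_upwards [h1, h2, h3, h4, eventually_ge_atTop 1] with y h1 h2 h3 h4 hy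
  have hy0 : 0 < y := by linarith
  have hfl : ((⌊y ^ (1 - 3 * δ)⌋₊ : ℕ) : ℝ) ≤ y ^ (1 - 3 * δ) := Nat.floor_le (by positivity)
  have hfl2 : y ^ (1 - 3 * δ) / 2 ≤ ((⌊y ^ (1 - 3 * δ)⌋₊ : ℕ) : ℝ) := by
    have := Nat.lt_floor_add_one (y ^ (1 - 3 * δ))
    linarith
  constructor
  · calc 2 * ((⌊y ^ (1 - 3 * δ)⌋₊ : ℕ) : ℝ) ^ ((1 + δ) * (1 + δ))
        ≤ y ^ (1 - (1 - 3 * δ) * ((1 + δ) * (1 + δ))) * (y ^ (1 - 3 * δ)) ^ ((1 + δ) * (1 + δ)) := by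
          gcongr
      _ = y := by
          rw [← Real.rpow_mul hy0.le, ← Real.rpow_add hy0]
          rw [show 1 - (1 - 3 * δ) * ((1 + δ) * (1 + δ)) + (1 - 3 * δ) * ((1 + δ) * (1 + δ)) = 1 by
            ring]
          exact Real.rpow_one y
  · have h5 : (y ^ (1 - 3 * δ) / 2) ^ (1 / 2 - 2 * δ) ≤
        ((⌊y ^ (1 - 3 * δ)⌋₊ : ℕ) : ℝ) ^ (1 / 2 - 2 * δ) := by
      apply Real.rpow_le_rpow (by positivity) hfl2 (by linarith)
    refine le_trans ?_ h5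
    rw [Real.div_rpow (by positivity) (by norm_num), ← Real.rpow_mul hy0.le]
    have h6 : (2 : ℝ) ^ (1 / 2 - 2 * δ) ≤ 2 := by
      calc (2 : ℝ) ^ (1 / 2 - 2 * δ) ≤ (2 : ℝ) ^ (1 : ℝ) := by
            apply Real.rpow_le_rpow_of_exponent_le (by norm_num) (by linarith)
        _ = 2 := Real.rpow_one 2
    have h7 : y ^ ((1 - 3 * δ) * (1 / 2 - 2 * δ)) / 2 ≤
        y ^ ((1 - 3 * δ) * (1 / 2 - 2 * δ)) / 2 ^ (1 / 2 - 2 * δ) := by
      apply div_le_div_of_nonneg_left (by positivity) (by positivity) h6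
    refine le_trans ?_ h7
    have h8 : y ^ ((1 - 3 * δ) * (1 / 2 - 2 * δ)) =
        y ^ ((1 - 3 * δ) * (1 / 2 - 2 * δ) - (1 / 2 - ε)) * y ^ (1 / 2 - ε) := by
      rw [← Real.rpow_add hy0]
      congr 1
      ring
    have h9 : 0 < y ^ (1 / 2 - ε) := Real.rpow_pos_of_pos hy0 _
    have h10 : 4 * y ^ (1 / 2 - ε) ≤ y ^ ((1 - 3 * δ) * (1 / 2 - 2 * δ)) := by
      rw [h8]
      gcongr
    linarith

theorem final (α : ℝ) (h0 : 0 < α) (h2 : α < 2) (halg : IsAlgebraic ℚ α) (ε : ℝ) (hε : 0 < ε) :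
    ∀ᶠ n : ℕ in atTop, ∃ (Q : Finset E3) (k : ℕ), Q.card = n ∧ IsConf α k Q ∧
      Real.exp (Real.log n ^ (1 / 2 - ε)) ≤ k := by
  classical
  set δ : ℝ := min (ε / 8) (1 / 16) with hδdef
  have hδ : 0 < δ := lt_min (by linarith) (by norm_num)
  have hδε : 8 * δ ≤ ε := by
    have := min_le_left (ε / 8) (1 / 16)
    linarith
  have hδ1 : δ ≤ 1 / 16 := min_le_right _ _
  obtain ⟨L, _, _, C₀, P₀, hcore⟩ := core α h0 h2 halg
  have hsup := prime_supply L δ hδ (by linarith)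
  have hnum := num_params C₀ δ hδ (by linarith)
  rw [eventually_atTop] at hsup hnum
  obtain ⟨N₁, hN₁⟩ := hsup
  obtain ⟨N₂, hN₂⟩ := hnum
  have hlog : Tendsto (fun n : ℕ => Real.log n) atTop atTop :=
    Real.tendsto_log_atTop.comp tendsto_natCast_atTop_atTop
  have hm : Tendsto (fun y : ℝ => ⌊y ^ (1 - 3 * δ)⌋₊) atTop atTop :=
    tendsto_nat_floor_atTop.comp (tendsto_rpow_atTop (by linarith))
  have hev := (num_final δ ε hδ hδε hδ1).and (hm.eventually_ge_atTop (N₁ + N₂ + P₀ + 3))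
  filter_upwards [hlog.eventually hev, eventually_ge_atTop 1] with n hn hn1
  obtain ⟨⟨hn2, hn3⟩, hn4⟩ := hn
  set m : ℕ := ⌊Real.log n ^ (1 - 3 * δ)⌋₊ with hmdef
  obtain ⟨X, hmX, hXm, S, hS1, hS2, hS3⟩ := hN₁ m (by omega)
  have hsX : S.card ≤ X := by
    have := Finset.card_le_card hS1
    rw [Nat.card_Ioc] at this
    omega
  obtain ⟨r, l, k, hlr, hrl, hk1, hk2, hk3⟩ := hN₂ X (by omega) S.card hS3 hsX
  have hcardI : Fintype.card {x // x ∈ S} = S.card := Fintype.card_coe S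
  have hSmem : ∀ i : {x // x ∈ S}, X < i.1 ∧ i.1 ≤ 2 * X := fun i => by
    have := hS1 i.2
    rw [Finset.mem_Ioc] at this
    exact this
  obtain ⟨fX, fY, e, Vx, Vy, he, hXY, hinj, hVx, hVy, hXV, hYV⟩ :=
    hcore {x // x ∈ S} (fun i => i.1) Subtype.val_injective (fun i => (hS2 i.1 i.2).1)
      (fun i => by have := (hSmem i).1; omega) (fun i => (hS2 i.1 i.2).2)
  obtain ⟨P, hPne, hPconf, hPcard⟩ := count_conf α C₀ X r l k (by omega) hlr {x // x ∈ S}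
    (fun i => i.1) (fun i => (hS2 i.1 i.2).1) hSmem (by rw [hcardI]; exact hrl) fX fY e Vx Vy he
    hXY hinj hVx hVy hXV hYV (by rw [hcardI]; exact hk2)
  rw [hcardI] at hPcard
  have hk0 : 1 ≤ k := by
    have : (0 : ℝ) < k := lt_of_lt_of_le (Real.exp_pos _) hk1
    exact_mod_cast this
  obtain ⟨k', rfl⟩ : ∃ k', k = k' + 1 := ⟨k - 1, by omega⟩
  have hXpos : (0 : ℝ) < X := by
    have : 0 < X := by omega
    exact_mod_cast this
  have hmpos : (0 : ℝ) < m := by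
    have : 0 < m := by omega
    exact_mod_cast this
  have hPn : P.card ^ 2 ≤ n := by
    have hPpos : (0 : ℝ) < P.card := by exact_mod_cast hPne.card_pos
    have h1 : Real.log P.card ≤ (X : ℝ) ^ (1 + δ) := by
      refine le_trans ?_ hk3
      apply Real.log_le_log hPpos
      exact_mod_cast hPcard
    have h2' : (X : ℝ) ^ (1 + δ) ≤ (m : ℝ) ^ ((1 + δ) * (1 + δ)) := by
      rw [Real.rpow_mul hmpos.le]
      exact Real.rpow_le_rpow hXpos.le hXm (by linarith)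
    have h3 : Real.log (P.card ^ 2 : ℝ) ≤ Real.log n := by
      rw [Real.log_pow]
      push_cast
      linarith
    have hnpos : (0 : ℝ) < n := by exact_mod_cast hn1
    have h4 := (Real.log_le_log_iff (by positivity) hnpos).mp h3
    exact_mod_cast h4
  obtain ⟨Q, hQ1, hQ2⟩ := conf_pad α h0 k' P hPne hPconf n hPn
  refine ⟨Q, k', hQ1, hQ2, ?_⟩
  have h5 : Real.log n ^ (1 / 2 - ε) + 1 ≤ (X : ℝ) ^ (1 / 2 - 2 * δ) := by
    refine hn3.trans ?_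
    apply Real.rpow_le_rpow hmpos.le (by exact_mod_cast hmX) (by linarith)
  have h6 : Real.exp (Real.log n ^ (1 / 2 - ε) + 1) ≤ ((k' + 1 : ℕ) : ℝ) :=
    (Real.exp_le_exp.mpr h5).trans hk1
  have h7 : 0 ≤ Real.log n ^ (1 / 2 - ε) := Real.rpow_nonneg (Real.log_natCast_nonneg n) _
  have h8 : 1 ≤ Real.exp (Real.log n ^ (1 / 2 - ε)) := Real.one_le_exp h7
  rw [Real.exp_add] at h6
  have h9 : 2 ≤ Real.exp 1 := by
    have := Real.add_one_le_exp (1 : ℝ)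
    linarith
  push_cast at h6
  nlinarith

end SphereRep
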