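import Pool.Agent.Lib_MP_ad0b27_co.Defs

/-!
MP_ad0b27_co, piece FINITE1.
-/

open NumberField

namespace SphereRep

theorem norm_emb_le_house {K : Type} [Field K] [NumberField K] (σ : K →+* ℂ) (x : K) :
    ‖σ x‖ ≤ house x := (canonicalEmbedding.norm_le_iff x _).1 le_rfl σ

theorem house_le_iff {K : Type} [Field K] [NumberField K] (x : K) (B : ℝ) :
    house x ≤ B ↔ ∀ σ : K →+* ℂ, ‖σ x‖ ≤ B := canonicalEmbedding.norm_le_iff x B

theorem finite_quats (K : Type) [Field K] [NumberField K] (U : ℕ) (B : ℝ) :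
    {ξ : Quaternion K | HouseLe B ξ ∧ ∃ u : ℕ, 1 ≤ u ∧ u ≤ U ∧
      ∃ w : Quaternion (𝓞 K), (u : K) • ξ = qK w}.Finite := by
  classical
  let S : Set K := {x : K | IsIntegral ℤ x ∧ ∀ φ : K →+* ℂ, ‖φ x‖ ≤ U * |B|}
  have hS : S.Finite := Embeddings.finite_of_norm_le K ℂ (U * |B|)
  let F : ℕ × K × K × K × K → Quaternion K :=
    fun p => ((p.1 : K)⁻¹) • (⟨p.2.1, p.2.2.1, p.2.2.2.1, p.2.2.2.2⟩ : Quaternion K)
  have hfin : (F '' ((Set.Icc 1 U) ×ˢ (S ×ˢ (S ×ˢ (S ×ˢ S))))).Finite :=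
    ((Set.finite_Icc 1 U).prod (hS.prod (hS.prod (hS.prod hS)))).image F
  refine hfin.subset ?_
  rintro ξ ⟨hB, u, hu1, hu2, w, hw⟩
  have hu0 : (u : K) ≠ 0 := by
    have : u ≠ 0 := by omega
    exact_mod_cast this
  have key : ∀ (x : K) (y : 𝓞 K), (u : K) * x = (y : K) → house x ≤ B → (y : K) ∈ S := by
    intro x y hxy hx
    refine ⟨y.2, fun φ => ?_⟩
    rw [← hxy, map_mul, norm_mul, map_natCast]
    have h1 : ‖φ x‖ ≤ B := (norm_emb_le_house φ x).trans hx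
    have h2 : ‖((u : ℕ) : ℂ)‖ = u := by simp
    rw [h2]
    have h3 : (u : ℝ) ≤ U := by exact_mod_cast hu2
    exact mul_le_mul h3 (h1.trans (le_abs_self B)) (norm_nonneg _) (by positivity)
  have e1 : (u : K) * ξ.re = ((w.re : 𝓞 K) : K) := congrArg QuaternionAlgebra.re hw
  have e2 : (u : K) * ξ.imI = ((w.imI : 𝓞 K) : K) := congrArg QuaternionAlgebra.imI hw
  have e3 : (u : K) * ξ.imJ = ((w.imJ : 𝓞 K) : K) := congrArg QuaternionAlgebra.imJ hw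
  have e4 : (u : K) * ξ.imK = ((w.imK : 𝓞 K) : K) := congrArg QuaternionAlgebra.imK hw
  refine ⟨(u, (w.re : K), (w.imI : K), (w.imJ : K), (w.imK : K)), ⟨⟨hu1, hu2⟩, key _ _ e1 hB.1,
    key _ _ e2 hB.2.1, key _ _ e3 hB.2.2.1, key _ _ e4 hB.2.2.2⟩, ?_⟩
  simp only [F]
  rw [← e1, ← e2, ← e3, ← e4]
  ext
  · change (u : K)⁻¹ * ((u : K) * ξ.re) = ξ.re
    rw [inv_mul_cancel_left₀ hu0]
  · change (u : K)⁻¹ * ((u : K) * ξ.imI) = ξ.imI
    rw [inv_mul_cancel_left₀ hu0]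
  · change (u : K)⁻¹ * ((u : K) * ξ.imJ) = ξ.imJ
    rw [inv_mul_cancel_left₀ hu0]
  · change (u : K)⁻¹ * ((u : K) * ξ.imK) = ξ.imK
    rw [inv_mul_cancel_left₀ hu0]

end SphereRep
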