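import Pool.Agent.Lib_MP_ad0b27_co.Psi

/-!
MP_ad0b27_co, piece FINITE2.
-/

open NumberField

namespace SphereRep

/-- all four coordinates of the image of a quaternion under an embedding are at most `b` -/
def EmbLe {K : Type} [Field K] (σ : K →+* ℂ) (b : ℝ) (q : Quaternion K) : Prop :=
  ‖σ q.re‖ ≤ b ∧ ‖σ q.imI‖ ≤ b ∧ ‖σ q.imJ‖ ≤ b ∧ ‖σ q.imK‖ ≤ b

theorem EmbLe.star' {K : Type} [Field K] {σ : K →+* ℂ} {b : ℝ} {q : Quaternion K}
    (h : EmbLe σ b q) : EmbLe σ b (star q) := by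
  obtain ⟨h1, h2, h3, h4⟩ := h
  refine ⟨?_, ?_, ?_, ?_⟩
  · simpa using h1
  · simpa using h2
  · simpa using h3
  · simpa using h4

theorem four_le (x1 x2 x3 x4 : ℂ) (c : ℝ) (h1 : ‖x1‖ ≤ c) (h2 : ‖x2‖ ≤ c) (h3 : ‖x3‖ ≤ c)
    (h4 : ‖x4‖ ≤ c) : ‖x1 + x2 + x3 + x4‖ ≤ 4 * c := by
  have e1 := norm_add_le (x1 + x2 + x3) x4
  have e2 := norm_add_le (x1 + x2) x3
  have e3 := norm_add_le x1 x2
  linarith

theorem prod_le {K : Type} [Field K] {σ : K →+* ℂ} {a b : ℝ} {x y : K} (ha : ‖σ x‖ ≤ a)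
    (hb : ‖σ y‖ ≤ b) : ‖σ (x * y)‖ ≤ a * b := by
  rw [map_mul, norm_mul]
  exact mul_le_mul ha hb (norm_nonneg _) ((norm_nonneg _).trans ha)

theorem EmbLe.mul {K : Type} [Field K] {σ : K →+* ℂ} {a b : ℝ} {p q : Quaternion K}
    (hp : EmbLe σ a p) (hq : EmbLe σ b q) : EmbLe σ (4 * (a * b)) (p * q) := by
  obtain ⟨p1, p2, p3, p4⟩ := hp
  obtain ⟨q1, q2, q3, q4⟩ := hq
  have key : ∀ s1 s2 s3 s4 x1 x2 x3 x4 y1 y2 y3 y4 : K, (s1 = 1 ∨ s1 = -1) → (s2 = 1 ∨ s2 = -1) →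
      (s3 = 1 ∨ s3 = -1) → (s4 = 1 ∨ s4 = -1) → ‖σ x1‖ ≤ a → ‖σ x2‖ ≤ a → ‖σ x3‖ ≤ a →
      ‖σ x4‖ ≤ a → ‖σ y1‖ ≤ b → ‖σ y2‖ ≤ b → ‖σ y3‖ ≤ b → ‖σ y4‖ ≤ b →
      ‖σ (s1 * (x1 * y1) + s2 * (x2 * y2) + s3 * (x3 * y3) + s4 * (x4 * y4))‖ ≤ 4 * (a * b) := by
    intro s1 s2 s3 s4 x1 x2 x3 x4 y1 y2 y3 y4 h1 h2 h3 h4 a1 a2 a3 a4 b1 b2 b3 b4
    have aux : ∀ s x y : K, (s = 1 ∨ s = -1) → ‖σ x‖ ≤ a → ‖σ y‖ ≤ b → ‖σ (s * (x * y))‖ ≤ a * b := by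
      intro s x y hs hx hy
      have := prod_le hx hy
      rcases hs with rfl | rfl
      · rwa [one_mul]
      · rwa [neg_one_mul, map_neg, norm_neg]
    rw [map_add, map_add, map_add]
    exact four_le _ _ _ _ _ (aux _ _ _ h1 a1 b1) (aux _ _ _ h2 a2 b2) (aux _ _ _ h3 a3 b3)
      (aux _ _ _ h4 a4 b4)
  have l1 : (1 : K) = 1 ∨ (1 : K) = -1 := Or.inl rfl
  have l2 : (-1 : K) = 1 ∨ (-1 : K) = -1 := Or.inr rfl
  refine ⟨?_, ?_, ?_, ?_⟩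
  · have := key 1 (-1) (-1) (-1) p.re p.imI p.imJ p.imK q.re q.imI q.imJ q.imK l1 l2 l2 l2
      p1 p2 p3 p4 q1 q2 q3 q4
    convert this using 3
    rw [Quaternion.re_mul]
    ring
  · have := key 1 1 1 (-1) p.re p.imI p.imJ p.imK q.imI q.re q.imK q.imJ l1 l1 l1 l2
      p1 p2 p3 p4 q2 q1 q4 q3
    convert this using 3
    rw [Quaternion.imI_mul]
    ring
  · have := key 1 (-1) 1 1 p.re p.imI p.imJ p.imK q.imJ q.imK q.re q.imI l1 l2 l1 l1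
      p1 p2 p3 p4 q3 q4 q1 q2
    convert this using 3
    rw [Quaternion.imJ_mul]
    ring
  · have := key 1 1 (-1) 1 p.re p.imI p.imJ p.imK q.imK q.imJ q.imI q.re l1 l1 l2 l1
      p1 p2 p3 p4 q4 q3 q2 q1
    convert this using 3
    rw [Quaternion.imK_mul]
    ring

theorem HouseLe.emb {K : Type} [Field K] [NumberField K] {B : ℝ} {q : Quaternion K}
    (h : HouseLe B q) (σ : K →+* ℂ) : EmbLe σ B q := by
  obtain ⟨h1, h2, h3, h4⟩ := h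
  have key : ∀ x : K, house x ≤ B → ‖σ x‖ ≤ B := fun x hx =>
    ((canonicalEmbedding.norm_le_iff x _).1 le_rfl σ).trans hx
  exact ⟨key _ h1, key _ h2, key _ h3, key _ h4⟩

theorem houseLe_of_emb {K : Type} [Field K] [NumberField K] {B : ℝ} {q : Quaternion K}
    (h : ∀ σ : K →+* ℂ, EmbLe σ B q) : HouseLe B q := by
  refine ⟨?_, ?_, ?_, ?_⟩
  · exact (canonicalEmbedding.norm_le_iff _ _).2 fun σ => (h σ).1
  · exact (canonicalEmbedding.norm_le_iff _ _).2 fun σ => (h σ).2.1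
  · exact (canonicalEmbedding.norm_le_iff _ _).2 fun σ => (h σ).2.2.1
  · exact (canonicalEmbedding.norm_le_iff _ _).2 fun σ => (h σ).2.2.2

theorem EmbLe.smul {K : Type} [Field K] {σ : K →+* ℂ} {a b : ℝ} {q : Quaternion K} {x : K}
    (hx : ‖σ x‖ ≤ a) (h : EmbLe σ b q) : EmbLe σ (a * b) (x • q) := by
  obtain ⟨h1, h2, h3, h4⟩ := h
  exact ⟨prod_le hx h1, prod_le hx h2, prod_le hx h3, prod_le hx h4⟩

theorem house_bound (K : Type) [Field K] [NumberField K] (C c₂ : ℝ) (hC : 1 ≤ C) (hc : 0 < c₂)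
    (ω : Quaternion (𝓞 K)) :
    ∃ B : ℝ, ∀ (I : Type) (D : PD K I) (T M : Finset I)
      (v v' : ∀ i, Option (ZMod (D.p i))) (h h' : Quaternion (𝓞 K)),
      Good C D M v h → Good C D T v' h' →
      (∀ σ : K →+* ℂ, c₂ * (D.m M : ℝ) ^ (1 / (Module.finrank ℚ K : ℝ)) ≤
          ‖σ ((Quaternion.normSq h : 𝓞 K) : K)‖) →
      (∀ σ : K →+* ℂ, c₂ * (D.m T : ℝ) ^ (1 / (Module.finrank ℚ K : ℝ)) ≤
          ‖σ ((Quaternion.normSq h' : 𝓞 K) : K)‖) →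
      HouseLe B ((((Quaternion.normSq h * Quaternion.normSq h' : 𝓞 K) : K)⁻¹) •
        qK (h' * h * ω * star h * star h')) := by
  set W : ℝ := max (max (house (qK ω).re) (house (qK ω).imI))
    (max (house (qK ω).imJ) (house (qK ω).imK)) with hW
  have hWle : HouseLe W (qK ω) := by
    refine ⟨?_, ?_, ?_, ?_⟩ <;> simp [hW]
  have hW0 : 0 ≤ W := (house_nonneg _).trans hWle.1
  refine ⟨256 * C ^ 4 * W / c₂ ^ 2, ?_⟩
  intro I D T M v v' h h' hh hh' hν hν'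
  set n : ℝ := (Module.finrank ℚ K : ℝ) with hn
  have hn0 : 0 < n := by
    rw [hn]
    exact_mod_cast Module.finrank_pos
  have hm : ∀ N : Finset I, 0 < (D.m N : ℝ) := by
    intro N
    have : 0 < D.m N := Finset.prod_pos fun i _ => (D.prime i).pos
    exact_mod_cast this
  set a : ℝ := (D.m M : ℝ) ^ (1 / (2 * n)) with ha
  set b : ℝ := (D.m T : ℝ) ^ (1 / (2 * n)) with hb
  have ha0 : 0 < a := Real.rpow_pos_of_pos (hm M) _
  have hb0 : 0 < b := Real.rpow_pos_of_pos (hm T) _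
  have ha2 : (D.m M : ℝ) ^ (1 / n) = a ^ 2 := by
    rw [ha, ← Real.rpow_natCast, ← Real.rpow_mul (hm M).le]
    congr 1
    push_cast
    field_simp
  have hb2 : (D.m T : ℝ) ^ (1 / n) = b ^ 2 := by
    rw [hb, ← Real.rpow_natCast, ← Real.rpow_mul (hm T).le]
    congr 1
    push_cast
    field_simp
  rw [ha2] at hν
  rw [hb2] at hν'
  apply houseLe_of_emb
  intro σ
  have e1 : EmbLe σ (C * a) (qK h) := hh.bnd.emb σ
  have e2 : EmbLe σ (C * b) (qK h') := hh'.bnd.emb σ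
  have e3 : EmbLe σ W (qK ω) := hWle.emb σ
  have e4 := (((e2.mul e1).mul e3).mul e1.star').mul e2.star'
  have hmulq : ∀ x y : Quaternion (𝓞 K), qK (x * y) = qK x * qK y := fun x y => qmap_mul _ x y
  have hstarq : ∀ x : Quaternion (𝓞 K), qK (star x) = star (qK x) := fun x => qmap_star _ x
  rw [hmulq, hmulq, hmulq, hmulq, hstarq, hstarq]
  have hx : ‖σ (((Quaternion.normSq h * Quaternion.normSq h' : 𝓞 K) : K)⁻¹)‖ ≤
      (c₂ * a ^ 2 * (c₂ * b ^ 2))⁻¹ := by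
    rw [map_inv₀, norm_inv]
    apply inv_anti₀ (by positivity)
    have e0 : ((Quaternion.normSq h * Quaternion.normSq h' : 𝓞 K) : K) =
        ((Quaternion.normSq h : 𝓞 K) : K) * ((Quaternion.normSq h' : 𝓞 K) : K) :=
      map_mul (algebraMap (𝓞 K) K) _ _
    rw [e0, map_mul, norm_mul]
    exact mul_le_mul (hν σ) (hν' σ) (by positivity) (norm_nonneg _)
  have e5 := EmbLe.smul hx e4
  have e6 : (c₂ * a ^ 2 * (c₂ * b ^ 2))⁻¹ *
      (4 * (4 * (4 * (4 * (C * b * (C * a)) * W) * (C * a)) * (C * b))) =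
      256 * C ^ 4 * W / c₂ ^ 2 := by
    field_simp
    ring
  rw [e6] at e5
  exact e5

end SphereRep
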