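import Pool.Agent.Lib_MP_ad0b27_co.Defs

/-! MP_ad0b27_co, piece GRAPH: a subgraph of large minimum degree. -/

namespace SphereRep

theorem exists_min_degree {V : Type*} [DecidableEq V] (r : V → V → Prop) [DecidableRel r]
    (hs : ∀ x y, r x y → r y x) (P : Finset V) (k : ℕ) (hP : P.Nonempty)
    (h : 2 * k * P.card ≤ ((P ×ˢ P).filter (fun e => r e.1 e.2)).card) :
    ∃ W ⊆ P, W.Nonempty ∧ ∀ w ∈ W, k ≤ (W.filter (r w)).card := by
  induction hn : P.card using Nat.strong_induction_on generalizing P with
  | _ n ih =>
    by_cases hall : ∀ w ∈ P, k ≤ (P.filter (r w)).card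
    · exact ⟨P, Finset.Subset.refl _, hP, hall⟩
    · push Not at hall
      obtain ⟨w, hw, hlt⟩ := hall
      have hcard : (P.erase w).card + 1 = P.card := Finset.card_erase_add_one hw
      have hsub : (P ×ˢ P).filter (fun e => r e.1 e.2) ⊆
          (((P.erase w) ×ˢ (P.erase w)).filter (fun e => r e.1 e.2)) ∪
          ((P.filter (r w)).image (fun y => (w, y)) ∪
            (P.filter (r w)).image (fun x => (x, w))) := by
        rintro ⟨x, y⟩ he
        simp only [Finset.mem_filter, Finset.mem_product] at he
        obtain ⟨⟨hx, hy⟩, hr⟩ := he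
        simp only [Finset.mem_union, Finset.mem_filter, Finset.mem_product, Finset.mem_erase,
          Finset.mem_image]
        by_cases hxw : x = w
        · subst hxw
          right; left
          exact ⟨y, ⟨hy, hr⟩, rfl⟩
        · by_cases hyw : y = w
          · subst hyw
            right; right
            exact ⟨x, ⟨hx, hs _ _ hr⟩, rfl⟩
          · left
            exact ⟨⟨⟨hxw, hx⟩, ⟨hyw, hy⟩⟩, hr⟩
      have hle := Finset.card_le_card hsub
      have h1 := Finset.card_union_le
        (((P.erase w) ×ˢ (P.erase w)).filter (fun e => r e.1 e.2))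
          ((P.filter (r w)).image (fun y => (w, y)) ∪
            (P.filter (r w)).image (fun x => (x, w)))
      have h2 := Finset.card_union_le ((P.filter (r w)).image (fun y => (w, y)))
            ((P.filter (r w)).image (fun x => (x, w)))
      have h3 : ((P.filter (r w)).image (fun y => (w, y))).card ≤ (P.filter (r w)).card :=
        Finset.card_image_le
      have h4 : ((P.filter (r w)).image (fun x => (x, w))).card ≤ (P.filter (r w)).card :=
        Finset.card_image_le
      have h5 : 2 * k * P.card = 2 * k * (P.erase w).card + 2 * k := by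
        rw [← hcard]; ring
      have hk : 2 * k * (P.erase w).card + 2 ≤
          (((P.erase w) ×ˢ (P.erase w)).filter (fun e => r e.1 e.2)).card := by omega
      have hne : (P.erase w).Nonempty := by
        by_contra hcon
        rw [Finset.not_nonempty_iff_eq_empty] at hcon
        rw [hcon] at hk
        simp at hk
      obtain ⟨W, hWs, hWn, hW⟩ := ih (P.erase w).card (by omega) (P.erase w) hne (by omega) rfl
      exact ⟨W, hWs.trans (Finset.erase_subset _ _), hWn, hW⟩

end SphereRep
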