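import Pool.Agent.Lib_MP_ad0b27_co.Defs

/-!
MP_ad0b27_co: definitions for the pieces PRIMES (counting functions of ideals).
-/

open NumberField Filter Topology
open scoped nonZeroDivisors

namespace SphereRep

section Primes
variable (L : Type) [Field L] [NumberField L]

/-- The number of ideals of norm `m`. -/
noncomputable def aL (m : ℕ) : ℕ := Nat.card {I : Ideal (𝓞 L) // Ideal.absNorm I = m}

/-- The number of nonzero ideals of norm at most `n`. -/
noncomputable def AL (n : ℕ) : ℕ := ∑ m ∈ Finset.Icc 1 n, aL L m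

/-- The von Mangoldt function of the number field: the sum of `log N(P)` over the pairs `(P, k)`
with `P` a nonzero prime ideal, `k ≥ 1` and `N(P) ^ k = m`. -/
noncomputable def LamL (m : ℕ) : ℝ :=
  ∑ᶠ q : {q : Ideal (𝓞 L) × ℕ // q.1.IsPrime ∧ q.1 ≠ ⊥ ∧ 1 ≤ q.2 ∧ Ideal.absNorm q.1 ^ q.2 = m},
    Real.log (Ideal.absNorm q.1.1)

end Primes

end SphereRep
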