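import Pool.Agent.Lib_MP_ad0b27_co.Defs

/-!
MP_ad0b27_co, piece PSI: algebra of two by two matrices and of quaternions.
-/

namespace SphereRep

section Psi
variable {R k : Type*} [CommRing R]

theorem psi_mul [CommRing k] (ρ : R →+* k) (j : k) (hj : j ^ 2 = -1) (g h : Quaternion R) :
    psi ρ j (g * h) = psi ρ j g * psi ρ j h := by
  ext a b
  fin_cases a <;> fin_cases b
  · simp [psi, Matrix.mul_apply, Fin.sum_univ_two]
    linear_combination (-(ρ g.imI * ρ h.imI) - ρ g.imK * ρ h.imK) * hj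
  · simp [psi, Matrix.mul_apply, Fin.sum_univ_two]
    linear_combination (-(ρ g.imI * ρ h.imK) + ρ g.imK * ρ h.imI) * hj
  · simp [psi, Matrix.mul_apply, Fin.sum_univ_two]
    linear_combination (-(ρ g.imK * ρ h.imI) + ρ g.imI * ρ h.imK) * hj
  · simp [psi, Matrix.mul_apply, Fin.sum_univ_two]
    linear_combination (-(ρ g.imI * ρ h.imI) - ρ g.imK * ρ h.imK) * hj

theorem psi_star [CommRing k] (ρ : R →+* k) (j : k) (h : Quaternion R) :
    psi ρ j (star h) = (psi ρ j h).adjugate := by
  ext a b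
  fin_cases a <;> fin_cases b <;> simp [psi, Matrix.adjugate_fin_two] <;> ring

theorem psi_det [CommRing k] (ρ : R →+* k) (j : k) (hj : j ^ 2 = -1) (h : Quaternion R) :
    (psi ρ j h).det = ρ (Quaternion.normSq h) := by
  simp only [psi, Matrix.det_fin_two_of, Quaternion.normSq_def', map_add, map_pow]
  linear_combination (-(ρ h.imI ^ 2) - ρ h.imK ^ 2) * hj

theorem psi_coe [CommRing k] (ρ : R →+* k) (j : k) (a : R) :
    psi ρ j (a : Quaternion R) = ρ a • (1 : Matrix (Fin 2) (Fin 2) k) := by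
  ext x y
  fin_cases x <;> fin_cases y <;> simp [psi]

theorem psi_eq_zero [Field k] (ρ : R →+* k) (j : k) (hj : j ^ 2 = -1) (h2 : (2 : k) ≠ 0)
    (h : Quaternion R) (h0 : psi ρ j h = 0) :
    ρ h.re = 0 ∧ ρ h.imI = 0 ∧ ρ h.imJ = 0 ∧ ρ h.imK = 0 := by
  have e00 := congrFun (congrFun h0 0) 0
  have e01 := congrFun (congrFun h0 0) 1
  have e10 := congrFun (congrFun h0 1) 0
  have e11 := congrFun (congrFun h0 1) 1
  simp [psi] at e00 e01 e10 e11
  have hj0 : j ≠ 0 := by
    rintro rfl
    simp at hj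
  refine ⟨?_, ?_, ?_, ?_⟩
  · have : (2 : k) * ρ h.re = 0 := by linear_combination e00 + e11
    exact (mul_eq_zero.mp this).resolve_left h2
  · have : (2 : k) * (j * ρ h.imI) = 0 := by linear_combination e00 - e11
    exact (mul_eq_zero.mp ((mul_eq_zero.mp this).resolve_left h2)).resolve_left hj0
  · have : (2 : k) * ρ h.imJ = 0 := by linear_combination e01 - e10
    exact (mul_eq_zero.mp this).resolve_left h2
  · have : (2 : k) * (j * ρ h.imK) = 0 := by linear_combination e01 + e10
    exact (mul_eq_zero.mp ((mul_eq_zero.mp this).resolve_left h2)).resolve_left hj0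

theorem mulVec_two [CommRing k] (H : Matrix (Fin 2) (Fin 2) k) (x y : k) :
    H.mulVec ![x, y] = ![H 0 0 * x + H 0 1 * y, H 1 0 * x + H 1 1 * y] := by
  ext i
  fin_cases i <;> simp [Matrix.mulVec, dotProduct, Fin.sum_univ_two]

theorem mulVec_two_eq_zero [CommRing k] (H : Matrix (Fin 2) (Fin 2) k) (x y : k)
    (h : H.mulVec ![x, y] = 0) :
    H 0 0 * x + H 0 1 * y = 0 ∧ H 1 0 * x + H 1 1 * y = 0 := by
  rw [mulVec_two] at h
  exact ⟨by simpa using congrFun h 0, by simpa using congrFun h 1⟩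

theorem mulVec_two_eq_zero_of [CommRing k] (H : Matrix (Fin 2) (Fin 2) k) (x y : k)
    (h0 : H 0 0 * x + H 0 1 * y = 0) (h1 : H 1 0 * x + H 1 1 * y = 0) :
    H.mulVec ![x, y] = 0 := by
  rw [mulVec_two, h0, h1]
  ext i
  fin_cases i <;> simp

theorem det_zero_of_line [Field k] (H : Matrix (Fin 2) (Fin 2) k) (t : Option k)
    (h : H.mulVec (vec t) = 0) : H.det = 0 := by
  rw [Matrix.det_fin_two]
  cases t with
  | none =>
    obtain ⟨h0, h1⟩ := mulVec_two_eq_zero H 0 1 h
    linear_combination H 0 0 * h1 - H 1 0 * h0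
  | some t =>
    obtain ⟨h0, h1⟩ := mulVec_two_eq_zero H 1 t h
    linear_combination H 1 1 * h0 - H 0 1 * h1

theorem mulVec_of_mul_adj [Field k] (H₁ H₂ : Matrix (Fin 2) (Fin 2) k) (t : k)
    (h : H₂.mulVec ![1, t] = 0) (h0 : H₂ ≠ 0) (h1 : H₁ * H₂.adjugate = 0) :
    H₁.mulVec ![1, t] = 0 := by
  obtain ⟨ha, hb⟩ := mulVec_two_eq_zero H₂ 1 t h
  have e00 := congrFun (congrFun h1 0) 0
  have e01 := congrFun (congrFun h1 0) 1
  have e10 := congrFun (congrFun h1 1) 0
  have e11 := congrFun (congrFun h1 1) 1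
  simp [Matrix.mul_apply, Fin.sum_univ_two, Matrix.adjugate_fin_two] at e00 e01 e10 e11
  by_cases hd : H₂ 1 1 = 0
  · have hc : H₂ 1 0 = 0 := by linear_combination hb - t * hd
    have hb' : H₂ 0 1 ≠ 0 := by
      intro hb'
      have ha' : H₂ 0 0 = 0 := by linear_combination ha - t * hb'
      apply h0
      ext i j
      fin_cases i <;> fin_cases j <;> simp [ha', hb', hc, hd]
    refine mulVec_two_eq_zero_of _ _ _ ?_ ?_
    · refine (mul_eq_zero.mp (?_ : H₂ 0 1 * _ = 0)).resolve_left hb'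
      linear_combination -e01 + H₁ 0 1 * ha
    · refine (mul_eq_zero.mp (?_ : H₂ 0 1 * _ = 0)).resolve_left hb'
      linear_combination -e11 + H₁ 1 1 * ha
  · refine mulVec_two_eq_zero_of _ _ _ ?_ ?_
    · refine (mul_eq_zero.mp (?_ : H₂ 1 1 * _ = 0)).resolve_left hd
      linear_combination e00 + H₁ 0 1 * hb
    · refine (mul_eq_zero.mp (?_ : H₂ 1 1 * _ = 0)).resolve_left hd
      linear_combination e10 + H₁ 1 1 * hb

theorem eigen_zero [Field k] (H W : Matrix (Fin 2) (Fin 2) k) (t μ : k)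
    (h : H.mulVec ![1, t] = 0) (hW : W.mulVec ![1, t] = μ • ![1, t]) :
    H * W * H.adjugate = 0 := by
  obtain ⟨ha, hb⟩ := mulVec_two_eq_zero H 1 t h
  rw [mulVec_two] at hW
  have hW0 : W 0 0 * 1 + W 0 1 * t = μ := by simpa using congrFun hW 0
  have hW1 : W 1 0 * 1 + W 1 1 * t = μ * t := by simpa using congrFun hW 1
  have ha' : H 0 0 = -(H 0 1 * t) := by linear_combination ha
  have hb' : H 1 0 = -(H 1 1 * t) := by linear_combination hb
  ext i j
  fin_cases i <;> fin_cases j <;>
    simp [Matrix.mul_apply, Fin.sum_univ_two, Matrix.adjugate_fin_two, ha', hb']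
  · linear_combination H 0 1 * H 1 1 * hW1 - H 0 1 * H 1 1 * t * hW0
  · linear_combination - H 0 1 * H 0 1 * hW1 + H 0 1 * H 0 1 * t * hW0
  · linear_combination H 1 1 * H 1 1 * hW1 - H 1 1 * H 1 1 * t * hW0
  · linear_combination - H 0 1 * H 1 1 * hW1 + H 0 1 * H 1 1 * t * hW0

theorem mul_zero_of_cols [Field k] (H G : Matrix (Fin 2) (Fin 2) k) (x y a b : k)
    (h00 : H 0 0 = a * x) (h10 : H 1 0 = a * y) (h01 : H 0 1 = b * x) (h11 : H 1 1 = b * y)
    (hG : G.mulVec ![x, y] = 0) : G * H = 0 := by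
  obtain ⟨g0, g1⟩ := mulVec_two_eq_zero G x y hG
  ext i j
  fin_cases i <;> fin_cases j <;> simp [Matrix.mul_apply, Fin.sum_univ_two, h00, h10, h01, h11]
  · linear_combination a * g0
  · linear_combination b * g0
  · linear_combination a * g1
  · linear_combination b * g1

theorem exists_line [Field k] (H : Matrix (Fin 2) (Fin 2) k) (t : Option k)
    (h : H.mulVec (vec t) = 0) :
    ∃ u : Option k, ∀ G : Matrix (Fin 2) (Fin 2) k, G.mulVec (vec u) = 0 → G * H = 0 := by
  cases t with
  | none =>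
    obtain ⟨h0, h1⟩ := mulVec_two_eq_zero H 0 1 h
    have h0' : H 0 1 = 0 := by linear_combination h0
    have h1' : H 1 1 = 0 := by linear_combination h1
    by_cases ha : H 0 0 = 0
    · refine ⟨none, fun G hG => ?_⟩
      exact mul_zero_of_cols H G 0 1 (H 1 0) 0 (by simp [ha]) (by simp) (by simp [h0'])
        (by simp [h1']) hG
    · refine ⟨some (H 1 0 / H 0 0), fun G hG => ?_⟩
      exact mul_zero_of_cols H G 1 (H 1 0 / H 0 0) (H 0 0) 0 (by simp) (by field_simp)
        (by simp [h0']) (by simp [h1']) hG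
  | some t =>
    obtain ⟨h0, h1⟩ := mulVec_two_eq_zero H 1 t h
    have h0' : H 0 0 = -(t * H 0 1) := by linear_combination h0
    have h1' : H 1 0 = -(t * H 1 1) := by linear_combination h1
    by_cases hb : H 0 1 = 0
    · refine ⟨none, fun G hG => ?_⟩
      exact mul_zero_of_cols H G 0 1 (-(t * H 1 1)) (H 1 1) (by simp [h0', hb]) (by simp [h1'])
        (by simp [hb]) (by simp) hG
    · refine ⟨some (H 1 1 / H 0 1), fun G hG => ?_⟩
      exact mul_zero_of_cols H G 1 (H 1 1 / H 0 1) (-(t * H 0 1)) (H 0 1) (by simp [h0'])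
        (by rw [h1']; field_simp) (by simp) (by field_simp) hG

theorem unique_line [Field k] (H : Matrix (Fin 2) (Fin 2) k) (t t' : k) (h0 : H ≠ 0)
    (h : H.mulVec ![1, t] = 0) (h' : H.mulVec ![1, t'] = 0) : t = t' := by
  obtain ⟨a0, a1⟩ := mulVec_two_eq_zero H 1 t h
  obtain ⟨b0, b1⟩ := mulVec_two_eq_zero H 1 t' h'
  by_contra hne
  have hne' : t - t' ≠ 0 := sub_ne_zero.mpr hne
  have e01 : H 0 1 = 0 := by
    refine (mul_eq_zero.mp (?_ : (t - t') * H 0 1 = 0)).resolve_left hne'
    linear_combination a0 - b0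
  have e11 : H 1 1 = 0 := by
    refine (mul_eq_zero.mp (?_ : (t - t') * H 1 1 = 0)).resolve_left hne'
    linear_combination a1 - b1
  have e00 : H 0 0 = 0 := by linear_combination a0 - t * e01
  have e10 : H 1 0 = 0 := by linear_combination a1 - t * e11
  apply h0
  ext i j
  fin_cases i <;> fin_cases j <;> simp [e00, e01, e10, e11]

theorem qmap_mul {S : Type*} [CommRing S] (f : R →+* S) (g h : Quaternion R) :
    qmap f (g * h) = qmap f g * qmap f h := by
  ext <;> simp [qmap]

theorem qmap_star {S : Type*} [CommRing S] (f : R →+* S) (h : Quaternion R) :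
    qmap f (star h) = star (qmap f h) := by
  ext <;> simp [qmap]

theorem qmap_normSq {S : Type*} [CommRing S] (f : R →+* S) (h : Quaternion R) :
    Quaternion.normSq (qmap f h) = f (Quaternion.normSq h) := by
  simp [Quaternion.normSq_def', qmap]

theorem qmap_smul {S : Type*} [CommRing S] (f : R →+* S) (a : R) (h : Quaternion R) :
    qmap f (a • h) = f a • qmap f h := by
  ext <;> simp [qmap]

theorem qmap_injective {S : Type*} [CommRing S] (f : R →+* S) (hf : Function.Injective f) :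
    Function.Injective (qmap f : Quaternion R → Quaternion S) := by
  intro a b hab
  have h1 := congrArg QuaternionAlgebra.re hab
  have h2 := congrArg QuaternionAlgebra.imI hab
  have h3 := congrArg QuaternionAlgebra.imJ hab
  have h4 := congrArg QuaternionAlgebra.imK hab
  simp only [qmap] at h1 h2 h3 h4
  ext
  · exact hf h1
  · exact hf h2
  · exact hf h3
  · exact hf h4

end Psi

end SphereRep
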