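import Pool.Agent.Lib_MP_ad0b27_co.Psi
import Pool.Agent.Lib_MP_ad0b27_co.Size
import Pool.Agent.Lib_MP_ad0b27_co.Integral
import Pool.Agent.Lib_MP_ad0b27_co.Finite1
import Pool.Agent.Lib_MP_ad0b27_co.Finite2
import Pool.Agent.Lib_MP_ad0b27_co.QR

/-!
MP_ad0b27_co, piece VERTEX.
-/

open NumberField

namespace SphereRep

theorem vertex_conj (a b o : Quaternion ℝ) (x y : ℝ) (hx : Quaternion.normSq a = x)
    (hy : Quaternion.normSq b = y) (hx0 : x ≠ 0) (hy0 : y ≠ 0) :
    a⁻¹ * ((y * x)⁻¹ • (a * b * o * star b * star a)) * a = b * o * b⁻¹ := by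
  have ha : a ≠ 0 := by
    rintro rfl
    apply hx0
    rw [← hx]; simp
  have hb : b ≠ 0 := by
    rintro rfl
    apply hy0
    rw [← hy]; simp
  have hsa : star a = x • a⁻¹ := by
    rw [Quaternion.inv_def, hx, smul_smul, mul_inv_cancel₀ hx0, one_smul]
  have hsb : star b = y • b⁻¹ := by
    rw [Quaternion.inv_def, hy, smul_smul, mul_inv_cancel₀ hy0, one_smul]
  rw [hsa, hsb]
  simp only [mul_smul_comm, smul_mul_assoc, smul_smul]
  have h1 : (y * x)⁻¹ * (x * y) = 1 := by field_simp
  rw [h1, one_smul]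
  calc a⁻¹ * (a * b * o * b⁻¹ * a⁻¹) * a = (a⁻¹ * a) * (b * o * b⁻¹) * (a⁻¹ * a) := by
        simp only [mul_assoc]
    _ = b * o * b⁻¹ := by rw [inv_mul_cancel₀ ha, one_mul, mul_one]

theorem vertex_sets (K : Type) [Field K] [NumberField K] (τ : K →+* ℝ) (C : ℝ) (hC : 1 ≤ C)
    (hgood : ∀ (I : Type) [Fintype I] [DecidableEq I] (D : PD K I) (M : Finset I)
      (v : ∀ i, Option (ZMod (D.p i))), ∃ h, Good C D M v h)
    (ω : Quaternion (𝓞 K)) :
    ∃ C₀ P₀ : ℕ, ∀ (I : Type) [Fintype I] [DecidableEq I] (D : PD K I), (∀ i, P₀ < D.p i) →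
      ∀ f : ∀ i, ZMod (D.p i), (∀ i, ∃ μ : ZMod (D.p i), (D.psi i ω).mulVec ![1, f i] = μ • ![1, f i]) →
      ∃ V : Finset I → Finset (Quaternion ℝ),
        (∀ T, (V T).card ≤ C₀ * ∏ i ∈ T, (D.p i + 1)) ∧
        ∀ (T M : Finset I) (t : ∀ i, ZMod (D.p i)) (h : Quaternion (𝓞 K)), T ⊆ M →
          (∀ i ∈ M, i ∉ T → t i = f i) → Good C D M (fun i => some (t i)) h →
          qR τ h * qR τ ω * (qR τ h)⁻¹ ∈ V T := by
  classical
  obtain ⟨C₁, c₂, hC1, hc2, hsize⟩ := good_size K τ C hC
  obtain ⟨B, hB⟩ := house_bound K C c₂ hC hc2 ω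
  have hfin := finite_quats K (C₁ ^ 2) B
  refine ⟨hfin.toFinset.card, C₁, ?_⟩
  intro I _ _ D hP f hf
  have hprime : ∀ i, Fact (D.p i).Prime := fun i => ⟨D.prime i⟩
  have hne : ∀ i, NeZero (D.p i) := fun i => ⟨(D.prime i).ne_zero⟩
  have hmpos : ∀ M : Finset I, 0 < D.m M := fun M =>
    Finset.prod_pos (fun i _ => (D.prime i).pos)
  let Λ : Finset I → Finset (∀ i, Option (ZMod (D.p i))) := fun T =>
    Fintype.piFinset (fun i => if i ∈ T then Finset.univ else {none})
  let h' : Finset I → (∀ i, Option (ZMod (D.p i))) → Quaternion (𝓞 K) := fun T v =>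
    (hgood I D T v).choose
  have h'spec : ∀ T v, Good C D T v (h' T v) := fun T v => (hgood I D T v).choose_spec
  refine ⟨fun T => (hfin.toFinset ×ˢ Λ T).image (fun x =>
    (qR τ (h' T x.2))⁻¹ * qmap τ x.1 * qR τ (h' T x.2)), ?_, ?_⟩
  · intro T
    refine Finset.card_image_le.trans ?_
    rw [Finset.card_product]
    refine Nat.mul_le_mul_left _ (le_of_eq ?_)
    rw [Fintype.card_piFinset]
    have h1 : ∀ i, (if i ∈ T then (Finset.univ : Finset (Option (ZMod (D.p i)))) else {none}).card =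
        if i ∈ T then D.p i + 1 else 1 := by
      intro i
      split_ifs
      · rw [Finset.card_univ, Fintype.card_option, ZMod.card]
      · simp
    simp_rw [h1]
    rw [Finset.prod_ite_mem, Finset.univ_inter]
  · intro T M t h hTM htf hg
    -- the lines
    have hline : ∀ i ∈ T, ∃ u : Option (ZMod (D.p i)),
        ∀ G : Matrix (Fin 2) (Fin 2) (ZMod (D.p i)), G.mulVec (vec u) = 0 → G * D.psi i h = 0 :=
      fun i hi => exists_line (D.psi i h) (some (t i)) (hg.ker i (hTM hi))
    let v : ∀ i, Option (ZMod (D.p i)) := fun i => if hi : i ∈ T then (hline i hi).choose else none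
    have hv : ∀ i (hi : i ∈ T), ∀ G : Matrix (Fin 2) (Fin 2) (ZMod (D.p i)),
        G.mulVec (vec (v i)) = 0 → G * D.psi i h = 0 := by
      intro i hi
      simp only [v, dif_pos hi]
      exact (hline i hi).choose_spec
    have hvΛ : v ∈ Λ T := by
      simp only [Λ, Fintype.mem_piFinset]
      intro i
      by_cases hi : i ∈ T
      · simp [hi]
      · simp [hi, v]
    set g := h' T v with hgdef
    have hg' : Good C D T v g := h'spec T v
    obtain ⟨k, hk1, hkC, hk, hσ⟩ := hsize I D M _ h hg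
    obtain ⟨k', hk1', hkC', hk', hσ'⟩ := hsize I D T v g hg'
    have hpos : ∀ M : Finset I, 0 < c₂ * (D.m M : ℝ) ^ (1 / (Module.finrank ℚ K : ℝ)) := by
      intro M
      have : (0 : ℝ) < D.m M := by exact_mod_cast hmpos M
      positivity
    have hν : Quaternion.normSq h ≠ 0 := by
      intro h0
      have h1 := hσ (Complex.ofRealHom.comp τ)
      rw [h0] at h1
      have h2 := hpos M
      simp only [map_zero, norm_zero] at h1
      linarith
    have hν' : Quaternion.normSq g ≠ 0 := by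
      intro h0
      have h1 := hσ' (Complex.ofRealHom.comp τ)
      rw [h0] at h1
      have h2 := hpos T
      simp only [map_zero, norm_zero] at h1
      linarith
    obtain ⟨w, hw⟩ := integral_vertex D T M hTM h g ω k k' hν hν' hk hk'
      (fun i _ hd => absurd (Nat.le_of_dvd (by omega) hd) (by have := hP i; omega))
      (fun i _ hd => absurd (Nat.le_of_dvd (by omega) hd) (by have := hP i; omega))
      (fun i hi => by
        rw [← psi_det (D.ρ i) (D.j i) (D.hj i) h]
        exact det_zero_of_line _ _ (hg.ker i hi))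
      (fun i hi => by
        rw [← psi_det (D.ρ i) (D.j i) (D.hj i) g]
        exact det_zero_of_line _ _ (hg'.ker i hi))
      (fun i hi => hv i hi _ (hg'.ker i hi))
      (fun i hi hiT => by
        obtain ⟨μ, hμ⟩ := hf i
        rw [← htf i hi hiT] at hμ
        exact eigen_zero _ _ _ _ (hg.ker i hi) hμ)
    set W := g * h * ω * star h * star g with hWdef
    set N : 𝓞 K := Quaternion.normSq h * Quaternion.normSq g with hNdef
    have hN0 : N ≠ 0 := mul_ne_zero hν hν'
    have hN0K : (N : K) ≠ 0 := by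
      intro h0
      apply hN0
      exact_mod_cast h0
    set ξ : Quaternion K := ((N : K)⁻¹) • qK W with hξ
    have hξmem : ξ ∈ hfin.toFinset := by
      rw [Set.Finite.mem_toFinset]
      refine ⟨hB I D T M _ _ h g hg hg' hσ hσ', k * k', ?_, ?_, w, ?_⟩
      · exact Nat.mul_pos hk1 hk1'
      · calc k * k' ≤ C₁ * C₁ := Nat.mul_le_mul hkC hkC'
          _ = C₁ ^ 2 := by ring
      · have h1 : (((k * k' : ℕ) : 𝓞 K) : K) • qK W = (N : K) • qK w := by
          have := congrArg qK hw
          unfold qK at this ⊢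
          rw [qmap_smul, qmap_smul] at this
          exact this
        rw [hξ, smul_comm]
        rw [show ((k * k' : ℕ) : K) = (((k * k' : ℕ) : 𝓞 K) : K) by push_cast; rfl, h1, smul_smul,
          inv_mul_cancel₀ hN0K, one_smul]
    refine Finset.mem_image.2 ⟨(ξ, v), Finset.mem_product.2 ⟨hξmem, hvΛ⟩, ?_⟩
    show (qR τ g)⁻¹ * qmap τ ξ * qR τ g = qR τ h * qR τ ω * (qR τ h)⁻¹
    have hcomp : qmap τ (qK W) = qR τ W := rfl
    rw [hξ, qmap_smul, hcomp]
    have hW : qR τ W = qR τ g * qR τ h * qR τ ω * star (qR τ h) * star (qR τ g) := by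
      rw [hWdef]
      unfold qR
      simp only [qmap_mul, qmap_star]
    have hNτ : τ ((N : K)⁻¹) = (τ ((Quaternion.normSq h : 𝓞 K) : K) *
        τ ((Quaternion.normSq g : 𝓞 K) : K))⁻¹ := by
      rw [map_inv₀, hNdef]
      push_cast
      rw [map_mul]
    rw [hW, hNτ]
    apply vertex_conj
    · unfold qR
      rw [qmap_normSq]; rfl
    · unfold qR
      rw [qmap_normSq]; rfl
    · rw [Ne, map_eq_zero]
      intro h0
      apply hν'
      exact_mod_cast h0
    · rw [Ne, map_eq_zero]
      intro h0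
      apply hν
      exact_mod_cast h0

end SphereRep
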